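import Pool.Agent.H.MP_21b43d_ag.E3.G.Geo1

/-!
# M21, existence part, S4-P, file 1: pull back of a double cover, push forward of modules
-/

set_option autoImplicit false

open CategoryTheory CategoryTheory.Limits AlgebraicGeometry TopologicalSpace

noncomputable section

namespace M21.E3

variable {X Q : Scheme.{0}} (π : X ⟶ Q)

/-- push forward of modules -/
abbrev PP : X.Modules ⥤ Q.Modules := Scheme.Modules.pushforward π

theorem pre_mono {U V : Q.Opens} (h : V ≤ U) : π ⁻¹ᵁ V ≤ π ⁻¹ᵁ U := fun _ hx => h hx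

theorem push_res (F : X.Modules) {U V : Q.Opens} (h : V ≤ U) (s : Γ((PP π).obj F, U)) :
    res ((PP π).obj F) h s = res F (pre_mono π h) s := rfl

theorem push_smul (F : X.Modules) {U : Q.Opens} (a : Γ(Q, U)) (s : Γ((PP π).obj F, U)) :
    a • s = π.app U a • (show Γ(F, π ⁻¹ᵁ U) from s) := rfl

theorem push_add (F : X.Modules) {U : Q.Opens} (s t : Γ((PP π).obj F, U)) :
    s + t = (show Γ(F, π ⁻¹ᵁ U) from s) + (show Γ(F, π ⁻¹ᵁ U) from t) := rfl

theorem app_resF {U V : Q.Opens} (h : V ≤ U) (a : Γ(Q, U)) :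
    π.app V (resF h a) = resF (pre_mono π h) (π.app U a) := by
  have := π.naturality (homOfLE h).op
  exact congrArg (fun φ => CommRingCat.Hom.hom φ a) this

namespace BiP

/-- the pull back of a double cover -/
def pull (G : BiP Q) (haff : ∀ s t, IsAffineOpen (π ⁻¹ᵁ G.U s t)) (pt : X)
    (hpt : π pt ∈ (G.V false ⊓ G.V true) ⊓ (G.W false ⊓ G.W true)) : BiP X where
  V s := π ⁻¹ᵁ G.V s
  W t := π ⁻¹ᵁ G.W t
  hV := congrArg (π ⁻¹ᵁ ·) G.hV
  hW := congrArg (π ⁻¹ᵁ ·) G.hW
  aff := haff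
  b s := π.app _ (G.b s)
  z t := π.app _ (G.z t)
  hb s := (Scheme.preimage_basicOpen π (G.b s)).symm.trans (congrArg (π ⁻¹ᵁ ·) (G.hb s))
  hz t := (Scheme.preimage_basicOpen π (G.z t)).symm.trans (congrArg (π ⁻¹ᵁ ·) (G.hz t))
  bb := by
    have h := congrArg (π.app (G.V false ⊓ G.V true)) G.bb
    rw [map_mul, map_one, app_resF, app_resF] at h
    exact h
  zz := by
    have h := congrArg (π.app (G.W false ⊓ G.W true)) G.zz
    rw [map_mul, map_one, app_resF, app_resF] at h
    exact h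
  pt := pt
  pt_mem := hpt

end BiP

end M21.E3
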