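import Pool.Agent.H.MP_21b43d_ag.E3.S4.Push1
import Pool.Agent.H.MP_21b43d_ag.B.Coh4

/-!
# M21, existence part, S4-P, file 2: push forward of quasi-coherent and of coherent modules
-/

set_option autoImplicit false

open CategoryTheory CategoryTheory.Limits AlgebraicGeometry TopologicalSpace

noncomputable section

namespace M21.E3

variable {X Q : Scheme.{0}} (π : X ⟶ Q)

theorem push_app {F F' : X.Modules} (φ : F ⟶ F') {U : Q.Opens} (s : Γ((PP π).obj F, U)) :
    ((PP π).map φ).app U s = φ.app (π ⁻¹ᵁ U) s := rfl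

/-- The push forward of a quasi-coherent module is quasi-coherent. -/
theorem qc_push [IsAffineHom π] {F : X.Modules} (hF : QC F) : QC ((PP π).obj F) where
  tors U hU f t ht := by
    obtain ⟨n, hn⟩ := hF.tors' (hU.preimage π) (π.app U f) (pre_mono π (Q.basicOpen_le f))
      (Scheme.preimage_basicOpen π f) t ht
    refine ⟨n, ?_⟩
    rw [push_smul, map_pow]
    exact hn
  ext U hU f s := by
    obtain ⟨n, t, ht⟩ := hF.ext' (hU.preimage π) (π.app U f) (pre_mono π (Q.basicOpen_le f))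
      (Scheme.preimage_basicOpen π f) s
    refine ⟨n, t, ?_⟩
    rw [push_res, push_smul, map_pow, app_resF]
    exact ht

/-- The push forward of a short exact sequence with quasi-coherent kernel is exact. -/
theorem shortExact_push [IsAffineHom π] (S : ShortComplex X.Modules) (hS : S.ShortExact)
    (h1 : QC S.X₁) : (S.map (PP π)).ShortExact where
  mono_f := by
    have := hS.mono_f
    exact mono_of_injective _ fun U => injective_of_mono S.f (π ⁻¹ᵁ U)
  epi_g := by
    refine epi_of_locSurj _ fun U s x hx => ?_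
    obtain ⟨V, hV, hxV, hVU⟩ := exists_isAffineOpen_mem_and_subset (x := x) (U := U) hx
    obtain ⟨m, hm⟩ := surj_of_qc S hS h1 (hV.preimage π)
      (res S.X₃ (pre_mono π hVU) s)
    exact ⟨V, hVU, hxV, m, hm⟩
  exact := by
    have := hS.mono_f
    rw [exact_iff_lift]
    intro U s hs x hx
    obtain ⟨t, ht⟩ := exists_of_app_eq_zero S hS.exact (U := π ⁻¹ᵁ U) s hs
    exact ⟨U, le_rfl, hx, t, ht.trans (res_self (M := (PP π).obj S.X₂) _ _).symm⟩

/-- The push forward of a coherent module by a finite morphism is coherent. -/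
theorem coh_push [IsFinite π] {F : X.Modules} (hF : IsCoh F) : IsCoh ((PP π).obj F) := by
  refine isCoh_iff.mpr ⟨qc_push π hF.qc, fun U hU => ?_⟩
  have h1 : (π.app U).hom.Finite := IsFinite.finite_app (f := π) U hU
  have h2 : Module.Finite Γ(X, π ⁻¹ᵁ U) Γ(F, π ⁻¹ᵁ U) := hF.finite _ (hU.preimage π)
  have key : @Module.Finite Γ(Q, U) Γ(F, π ⁻¹ᵁ U) _ _ (Module.compHom _ (π.app U).hom) := by
    algebraize [(π.app U).hom]
    let _ : Module Γ(Q, U) Γ(F, π ⁻¹ᵁ U) := Module.compHom _ (π.app U).hom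
    have : IsScalarTower Γ(Q, U) Γ(X, π ⁻¹ᵁ U) Γ(F, π ⁻¹ᵁ U) := ⟨fun a b s => by
      change ((π.app U a) * b) • s = π.app U a • b • s
      rw [mul_smul]⟩
    exact Module.Finite.trans Γ(X, π ⁻¹ᵁ U) Γ(F, π ⁻¹ᵁ U)
  exact key

/-- A quasi-coherent module with zero push forward is zero. -/
theorem isZero_of_push [IsAffineHom π] {F : X.Modules} (hF : QC F) (h : IsZero ((PP π).obj F)) :
    IsZero F := by
  rw [IsZero.iff_id_eq_zero]
  refine hom_ext_app fun U s => sec_ext F fun x hx => ?_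
  obtain ⟨V, hV, hxV, -⟩ := exists_isAffineOpen_mem_and_subset (x := π x) (U := ⊤) trivial
  obtain ⟨g, hg, hxg⟩ := (hV.preimage π).exists_basicOpen_le ⟨x, hx⟩ hxV
  refine ⟨X.basicOpen g, hg, hxg, ?_⟩
  change res F hg s = res F hg 0
  rw [res_zero]
  obtain ⟨n, t, ht⟩ := hF.ext _ (hV.preimage π) g (res F hg s)
  have h0 : t = 0 := (subsingleton_of_isZero h V).elim t 0
  rw [h0, res_zero] at ht
  have hu : IsUnit (resF (X.basicOpen_le g) g) := RingedSpace.isUnit_res_basicOpen _ g
  exact (hu.pow n).smul_eq_zero.mp ht.symm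

/-- Finiteness of a morphism can be checked on the charts. -/
theorem isFinite_of_charts (G : BiP Q) (haff : ∀ s t, IsAffineOpen (π ⁻¹ᵁ G.U s t))
    (hfin : ∀ s t, (π.app (G.U s t)).hom.Finite) : IsFinite π := by
  have hcov : (⨆ i : Bool × Bool, G.U i.1 i.2) = ⊤ := by
    rw [eq_top_iff]
    intro p _
    obtain ⟨s, t, hp⟩ := G.exists_mem_U p
    exact TopologicalSpace.Opens.mem_iSup.mpr ⟨(s, t), hp⟩
  rw [HasAffineProperty.iff_of_iSup_eq_top (P := @IsFinite) (fun i : Bool × Bool =>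
    (⟨G.U i.1 i.2, G.aff i.1 i.2⟩ : Q.affineOpens)) hcov]
  intro i
  refine ⟨haff i.1 i.2, ?_⟩
  have h1 : (π.app ((G.U i.1 i.2).ι ''ᵁ ⊤)).hom.Finite := by
    rw [Scheme.Opens.ι_image_top]
    exact hfin i.1 i.2
  have h2 := morphismRestrict_appTop π (G.U i.1 i.2)
  have h3 : ((X.presheaf.map (eqToHom (image_morphismRestrict_preimage π (G.U i.1 i.2)
      ⊤)).op).hom.comp (π.app ((G.U i.1 i.2).ι ''ᵁ ⊤)).hom).Finite := by
    refine RingHom.Finite.comp (RingHom.Finite.of_surjective _ ?_) h1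
    exact ((ConcreteCategory.isIso_iff_bijective (X.presheaf.map
      (eqToHom (image_morphismRestrict_preimage π (G.U i.1 i.2) ⊤)).op)).mp inferInstance).2
  change (π ∣_ (G.U i.1 i.2)).appTop.hom.Finite
  rw [h2]
  exact h3

end M21.E3
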