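import Pool.Agent.H.MP_21b43d_ag.E3.S4.Bip4
import Pool.Agent.H.MP_21b43d_ag.E3.S4.Push2

/-!
# M21, stage 4: charts in a field, part 5: the pulled back cover, finiteness, split sheaves
-/

set_option autoImplicit false
set_option linter.all false

open CategoryTheory CategoryTheory.Limits AlgebraicGeometry TopologicalSpace Opposite

namespace M21.S4

open M21X M21.XP M21.E3

noncomputable section

namespace FC

variable {X : Scheme.{0}} {f : X ⟶ Spec (.of ℂ)} {K : Type} [Field K] [Algebra ℂ K] (C : FC X f K)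

section cpt

variable [IsIntegral X]

/-- A double cover compatible with the charts. -/
structure Cpt (G : BiP X) : Prop where
  U : ∀ s t, G.U s t = C.U s t
  B : C.kap G.B = C.B
  Z : C.kap G.Z = C.Z

theorem cpt_bip [IsSeparated f] : C.Cpt C.bip := ⟨C.bip_U, C.kap_B, C.kap_Z⟩

/-- **Split structure sheaf** from a basis in `K`. -/
theorem exists_split {G : BiP X} (hG : C.Cpt G) {ι : Type} (e : ι → K) (a b : ι → ℤ)
    (ind : LinearIndependent ℂ (fun x : ι × ℤ × ℤ => C.B ^ x.2.1 * C.Z ^ x.2.2 * e x.1))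
    (spn : ∀ s t, Subalgebra.toSubmodule (C.R s t) = Submodule.span ℂ
      {g | ∃ l p q, (Rg s (a l) p ∧ Rg t (b l) q) ∧ g = C.B ^ p * C.Z ^ q * e l}) :
    letI := cx f
    ∃ S : G.Split (FO X) ι, (∀ l, C.kap (S.e l) = e l) ∧ S.a = a ∧ S.b = b := by
  letI := cx f
  have he : ∀ l, ∃ x : X.functionField, C.kap x = e l := by
    intro l
    have h1 : e l ∈ Subalgebra.toSubmodule (C.R false false) := by
      rw [spn false false]
      refine Submodule.subset_span ⟨l, 0, 0, ⟨le_refl (0 : ℤ), le_refl (0 : ℤ)⟩, ?_⟩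
      rw [zpow_zero, zpow_zero, one_mul, one_mul]
    exact C.exists_kap false false h1
  choose e' he' using he
  have hmon : ∀ (l : ι) (p q : ℤ), C.kap (G.B ^ p * G.Z ^ q * e' l) = C.B ^ p * C.Z ^ q * e l := by
    intro l p q
    rw [map_mul, map_mul, map_zpow₀, map_zpow₀, hG.B, hG.Z, he']
  let k : X.functionField →ₗ[ℂ] K := C.kapA.toLinearMap
  have hk : ∀ x, k x = C.kap x := fun x => rfl
  have hkinj : Function.Injective k := C.kap_injective
  refine ⟨{ e := e', a := a, b := b, indep := ?_, secs := ?_ }, he', rfl, rfl⟩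
  · apply LinearIndependent.of_comp k
    have h2 : (k ∘ fun x : ι × ℤ × ℤ => G.B ^ x.2.1 * G.Z ^ x.2.2 * e' x.1) =
        fun x : ι × ℤ × ℤ => C.B ^ x.2.1 * C.Z ^ x.2.2 * e x.1 := by
      funext x
      exact hmon x.1 x.2.1 x.2.2
    rw [h2]
    exact ind
  · intro s t
    have h3 : (G.spanR e' (fun l p q => Rg s (a l) p ∧ Rg t (b l) q)).map k =
        Subalgebra.toSubmodule (C.R s t) := by
      rw [spn s t, BiP.spanR, Submodule.map_span]
      congr 1
      ext g
      constructor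
      · rintro ⟨_, ⟨l, p, q, hpq, rfl⟩, rfl⟩
        exact ⟨l, p, q, hpq, hmon l p q⟩
      · rintro ⟨l, p, q, hpq, rfl⟩
        exact ⟨_, ⟨l, p, q, hpq, rfl⟩, hmon l p q⟩
    ext x
    have h4 : x ∈ (FO X).secs (G.U s t) ↔ C.kap x ∈ C.R s t := by
      rw [hG.U s t]
      exact C.reg_iff s t x
    rw [h4]
    constructor
    · intro hx
      have h5 : k x ∈ (G.spanR e' (fun l p q => Rg s (a l) p ∧ Rg t (b l) q)).map k := by
        rw [h3]
        exact hx
      obtain ⟨y, hy, hxy⟩ := h5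
      rwa [← hkinj hxy]
    · intro hx
      have h5 : k x ∈ (G.spanR e' (fun l p q => Rg s (a l) p ∧ Rg t (b l) q)).map k :=
        ⟨x, hx, rfl⟩
      rw [h3] at h5
      exact h5

end cpt

section two

variable {Y : Scheme.{0}} {g : Y ⟶ Spec (.of ℂ)} (D : FC Y g K)
  (hR : ∀ s t, D.R s t ≤ C.R s t)
  [IsIntegral X] [IsIntegral Y] [IsSeparated f] [IsSeparated g]
  (eB : D.B = C.B) (eZ : D.Z = C.Z)

include eB eZ in
theorem preimage_bip_U (s t : Bool) : C.pi D hR ⁻¹ᵁ D.bip.U s t = C.U s t := by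
  rw [D.bip_U]
  exact C.preimage_U D hR eB eZ s t

include eB eZ in
theorem haff (s t : Bool) : IsAffineOpen (C.pi D hR ⁻¹ᵁ D.bip.U s t) := by
  rw [C.preimage_bip_U D hR eB eZ]
  exact C.aff_U s t

theorem pi_pt0 : C.pi D hR C.pt0 = D.pt0 := by
  have h := congrArg (fun m : Spec (.of K) ⟶ Y =>
    m (IsLocalRing.closedPoint K : PrimeSpectrum K)) (C.xi_pi D hR)
  exact h

theorem hpt : C.pi D hR C.pt0 ∈
    (D.bip.V false ⊓ D.bip.V true) ⊓ (D.bip.W false ⊓ D.bip.W true) := by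
  rw [C.pi_pt0 D hR]
  exact D.bip.pt_mem

/-- **The pulled back cover.** -/
def GX : BiP X := D.bip.pull (C.pi D hR) (C.haff D hR eB eZ) C.pt0 (C.hpt D hR)

theorem cpt_GX : C.Cpt (C.GX D hR eB eZ) := by
  have hx1 : ⊤ ≤ C.xi ⁻¹ᵁ (C.pi D hR ⁻¹ᵁ D.V false) := by
    have h1 : ⊤ ≤ (C.xi ≫ C.pi D hR) ⁻¹ᵁ D.V false := by
      rw [C.xi_pi D hR]
      exact D.xi_V false
    exact h1
  have hx2 : ⊤ ≤ C.xi ⁻¹ᵁ (C.pi D hR ⁻¹ᵁ D.W false) := by
    have h1 : ⊤ ≤ (C.xi ≫ C.pi D hR) ⁻¹ᵁ D.W false := by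
      rw [C.xi_pi D hR]
      exact D.xi_W false
    exact h1
  refine ⟨fun s t => C.preimage_bip_U D hR eB eZ s t, ?_, ?_⟩
  · exact (C.kap_toK (C.GX D hR eB eZ).pt_mem.1.1 hx1 ((C.pi D hR).app _ (D.b false))).trans
      ((C.vl_pi D hR (D.xi_V false) hx1 (D.b false)).trans ((D.vl_b false).trans eB))
  · exact (C.kap_toK (C.GX D hR eB eZ).pt_mem.2.1 hx2 ((C.pi D hR).app _ (D.z false))).trans
      ((C.vl_pi D hR (D.xi_W false) hx2 (D.z false)).trans ((D.vl_z false).trans eZ))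

/-- the values of the sections over (an open equal to) a chart -/
def rv (s t : Bool) {O : X.Opens} (hO : O = C.U s t) (h : ⊤ ≤ C.xi ⁻¹ᵁ O) : Γ(X, O) →+* C.R s t :=
  (C.vl h).codRestrict (C.R s t) (by
    intro a
    subst hO
    exact C.vl_mem s t a)

omit [IsSeparated f] in
theorem rv_bijective (s t : Bool) {O : X.Opens} (hO : O = C.U s t) (h : ⊤ ≤ C.xi ⁻¹ᵁ O) :
    Function.Bijective (C.rv s t hO h) := by
  constructor
  · intro a b hab
    apply C.vl_inj h
    exact congrArg Subtype.val hab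
  · rintro ⟨g, hg⟩
    subst hO
    obtain ⟨a, ha⟩ := C.exists_vl s t hg
    exact ⟨a, Subtype.ext ha⟩

include eB eZ in
/-- Finiteness of the pulled back charts. -/
theorem finite_app (hfin : ∀ s t, (Subalgebra.inclusion (hR s t)).toRingHom.Finite) (s t : Bool) :
    ((C.pi D hR).app (D.bip.U s t)).hom.Finite := by
  have hD : ⊤ ≤ D.xi ⁻¹ᵁ D.bip.U s t := by
    rw [D.bip_U]
    exact D.xi_U s t
  have hC : ⊤ ≤ C.xi ⁻¹ᵁ (C.pi D hR ⁻¹ᵁ D.bip.U s t) := by
    rw [C.preimage_bip_U D hR eB eZ]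
    exact C.xi_U s t
  have bD := D.rv_bijective s t (D.bip_U s t) hD
  have bC := C.rv_bijective s t (C.preimage_bip_U D hR eB eZ s t) hC
  let eC := RingEquiv.ofBijective _ bC
  have hsq : (C.rv s t (C.preimage_bip_U D hR eB eZ s t) hC).comp
      ((C.pi D hR).app (D.bip.U s t)).hom =
      (Subalgebra.inclusion (hR s t)).toRingHom.comp (D.rv s t (D.bip_U s t) hD) := by
    ext a
    exact C.vl_pi D hR hD hC a
  have h1 : ((C.pi D hR).app (D.bip.U s t)).hom =
      (eC.symm : C.R s t →+* _).comp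
        ((Subalgebra.inclusion (hR s t)).toRingHom.comp (D.rv s t (D.bip_U s t) hD)) := by
    rw [← hsq]
    ext a
    exact (eC.symm_apply_apply _).symm
  rw [h1]
  exact RingHom.Finite.comp (RingHom.Finite.of_surjective _ eC.symm.surjective)
    (RingHom.Finite.comp (hfin s t) (RingHom.Finite.of_surjective _ bD.2))

include eB eZ in
theorem isFinite_pi (hfin : ∀ s t, (Subalgebra.inclusion (hR s t)).toRingHom.Finite) :
    IsFinite (C.pi D hR) :=
  isFinite_of_charts (C.pi D hR) D.bip (C.haff D hR eB eZ) (C.finite_app D hR eB eZ hfin)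

end two

end FC

end

end M21.S4
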