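import Pool.Agent.H.MP_21b43d_ag.E3.S4.Push3
import Pool.Agent.H.MP_21b43d_ag.E3.G.FinB

/-!
# M21, existence part, S4-P, file 4: Euler forms and push forward
-/

set_option autoImplicit false

open CategoryTheory CategoryTheory.Limits CategoryTheory.Pretriangulated AlgebraicGeometry
  TopologicalSpace

noncomputable section

namespace M21.E3

theorem poly_eq {r d e x r' d' e' x' k : ℤ}
    (h : ∀ m n, k ≤ m → k ≤ n → r * m * n + d * m + e * n + x = r' * m * n + d' * m + e' * n + x') :
    r = r' ∧ d = d' ∧ e = e' ∧ x = x' := by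
  have h1 := h k k le_rfl le_rfl
  have h2 := h (k + 1) k (by omega) le_rfl
  have h3 := h k (k + 1) le_rfl (by omega)
  have h4 := h (k + 1) (k + 1) (by omega) (by omega)
  have e1 : r = r' := by linear_combination h4 - h2 - h3 + h1
  subst e1
  have e2 : d = d' := by linear_combination h2 - h1
  subst e2
  have e3 : e = e' := by linear_combination h3 - h1
  subst e3
  exact ⟨rfl, rfl, rfl, by linear_combination h1⟩

variable {X Q : Scheme.{0}} (π : X ⟶ Q) [CX X] [CX Q]
    (hC : (CX.f : X ⟶ Spec (.of ℂ)) = π ≫ CX.f)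
    (G : BiP Q) (haff : ∀ s t, IsAffineOpen (π ⁻¹ᵁ G.U s t)) (pt : X)
    (hpt : π pt ∈ (G.V false ⊓ G.V true) ⊓ (G.W false ⊓ G.W true)) [IsIntegral X] [IsIntegral Q]
    [IsLocallyNoetherian X] [IsLocallyNoetherian Q] [IsFinite π]
    {ι ι' : Type} [Fintype ι] [Fintype ι'] (SQ : G.Split (FO Q) ι)
    (SX : (G.pull π haff pt hpt).Split (FO X) ι')

include hC SQ SX in
/-- The four numbers of a coherent module and of its push forward are the same. -/
theorem numbers_push {F : X.Modules} (hF : IsCoh F) :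
    (G.pull π haff pt hpt).nr (SS F) = G.nr (SS ((PP π).obj F)) ∧
      (G.pull π haff pt hpt).nd1 (SS F) = G.nd1 (SS ((PP π).obj F)) ∧
      (G.pull π haff pt hpt).nd2 (SS F) = G.nd2 (SS ((PP π).obj F)) ∧
      (G.pull π haff pt hpt).nx (SS F) = G.nx (SS ((PP π).obj F)) := by
  have hF' := coh_push π hF
  obtain ⟨k, hk⟩ := BiP.eulF_eq_finrank SX hF
  obtain ⟨k', hk'⟩ := BiP.eulF_eq_finrank SQ hF'
  apply poly_eq (k := max k k')
  intro m n hm hn
  rw [← BiP.eulF_eq _ _ (fun m n => BiP.homFin_coh SX hF m n),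
    ← BiP.eulF_eq _ _ (fun m n => BiP.homFin_coh SQ hF' m n),
    (hk m n ((le_max_left _ _).trans hm) ((le_max_left _ _).trans hn)).1,
    (hk' m n ((le_max_right _ _).trans hm) ((le_max_right _ _).trans hn)).1]
  exact_mod_cast ((homPush π hC G haff pt hpt F m n).finrank_eq).symm

include hC SQ SX in
/-- The Euler forms of a coherent module and of its push forward are the same. -/
theorem eulF_push {F : X.Modules} (hF : IsCoh F) (m n : ℤ) :
    M21.eulF ℂ ((G.pull π haff pt hpt).LL m n) (SS F) =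
      M21.eulF ℂ (G.LL m n) (SS ((PP π).obj F)) := by
  have hF' := coh_push π hF
  obtain ⟨e1, e2, e3, e4⟩ := numbers_push π hC G haff pt hpt SQ SX hF
  rw [BiP.eulF_eq _ _ (fun m n => BiP.homFin_coh SX hF m n),
    BiP.eulF_eq _ _ (fun m n => BiP.homFin_coh SQ hF' m n), e1, e2, e3, e4]

end M21.E3
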