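import Pool.Agent.H.MP_21b43d_ag.E3.Q.Dual
import Pool.Agent.H.MP_21b43d_ag.E3.G.HartG
import Pool.Agent.H.MP_21b43d_ag.E3.G.Embed
import Pool.Agent.H.MP_21b43d_ag.E3.Rk3
import Pool.Agent.H.MP_21b43d_ag.E3.Cmp

/-!
# M21, existence part, S4-Q: the bound on `ℙ¹ × ℙ¹`
-/

open CategoryTheory CategoryTheory.Limits CategoryTheory.Pretriangulated AlgebraicGeometry
  TopologicalSpace

noncomputable section

namespace M21.E3

/-- (aux) a rank one object of degree 0 is in `F`. -/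
theorem Rk1.fc_QB {𝒞 : Type*} [Category 𝒞] [Abelian 𝒞] {W : ObjectProperty 𝒞} (hW : WSerre W)
    {q : RDX W} {S : 𝒞} (h : Rk1 q S) (hD : q.D S = 0) : q.Fc S := by
  refine ⟨h.tf, fun N i hi hN => ?_⟩
  by_cases hz : IsZero N
  · exact (q.inv_zero hW hz).2.1.le
  · obtain ⟨h1, h2⟩ := q.add_coker_Wk2 hW i hi hN h.mem
    have h3 := h.sub N i hi hN hz
    have h4 : q.r (cokernel i) = 0 := by linarith
    have h5 := q.D_nonneg _ (hW.cokernel i hN h.mem) h4
    linarith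

/-- (aux) sums of copies of an object of `F` are in `F`. -/
theorem RDX.Fc_pow_QB {𝒞 : Type*} [Category 𝒞] [Abelian 𝒞] {W : ObjectProperty 𝒞}
    (hW : WSerre W) (q : RDX W) {S : 𝒞} (h : q.Fc S) (n : ℕ) :
    q.Fc (⨁ (fun _ : Fin n => S)) := by
  induction n with
  | zero =>
    refine ⟨q.Tf_pow hW h.1 0, fun N i hi hN => ?_⟩
    have hz : IsZero N := by
      rw [IsZero.iff_id_eq_zero, ← cancel_mono i]
      exact (zero_Rk1 S).eq_of_tgt _ _
    exact (q.inv_zero hW hz).2.1.le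
  | succ n ih => exact q.Fc_iso hW (succ_Rk1 S n) (q.Fc_ext hW _ (se_Rk1 S _) h ih)

/-- `finrank_from` for objects of nonpositive degree of `F`: the image `M'` of `S^n → M` for
independent `t_i` has `D M' ≤ 0` (subobject of `M`) and `D M' ≥ 0` (quotient of `S^n` of degree `0` by
a subobject of `S^n ∈ F`). -/
theorem Rk1H.finrank_from' {𝒞 : Type*} [Category 𝒞] [Abelian 𝒞] [Linear ℂ 𝒞]
    {W : ObjectProperty 𝒞} (hW : WSerre W) {q : RDX W} {S M : 𝒞} (h : Rk1H q S) (hM : q.Fc M) :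
    FiniteDimensional ℂ (S ⟶ M) ∧ (Module.finrank ℂ (S ⟶ M) : ℤ) ≤ q.r M := by
  apply finrank_le_Rk3
  intro n t ht
  set f : (⨁ (fun _ : Fin n => S)) ⟶ M := biproduct.desc t with hf
  have hWn : W (⨁ (fun _ : Fin n => S)) := WSerre.pow hW h.mem n
  have hI : W (Abelian.image f) := W_im_Rk1b hW f hWn hM.1.1
  have hK : W (kernel f) := hW.kernel f hWn hM.1.1
  have hFI : q.Fc (Abelian.image f) := q.Fc_sub hW (Abelian.image.ι f) inferInstance hI hM
  have hFn : q.Fc (⨁ (fun _ : Fin n => S)) := q.Fc_pow_QB hW (h.toRk1.fc_QB hW h.deg) n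
  obtain ⟨-, a2, -⟩ := q.add _ (se_im_Rk1b f) hK hWn hI
  dsimp only at a2
  have hDK := hFn.2 (kernel f) (kernel.ι f) inferInstance hK
  have hDn := (RDX.pow hW q h.mem n).2.1
  rw [h.deg, mul_zero] at hDn
  have hDI := hFI.2 _ (𝟙 _) inferInstance hI
  have hD0 : q.D (Abelian.image f) = 0 := by linarith
  -- the factorization
  let t' : Fin n → (S ⟶ Abelian.image f) := fun i =>
    biproduct.ι (fun _ : Fin n => S) i ≫ Abelian.factorThruImage f
  have ht' : ∀ i, t' i ≫ Abelian.image.ι f = t i := by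
    intro i
    change (biproduct.ι (fun _ : Fin n => S) i ≫ Abelian.factorThruImage f) ≫
      Abelian.image.ι f = t i
    rw [Category.assoc, Abelian.image.fac, hf, biproduct.ι_desc]
  have hli : LinearIndependent ℂ t' := by
    apply LinearIndependent.of_comp (CategoryTheory.Linear.rightComp ℂ S (Abelian.image.ι f))
    have e : (CategoryTheory.Linear.rightComp ℂ S (Abelian.image.ι f)) ∘ t' = t :=
      funext fun i => ht' i
    rw [e]
    exact ht
  have h1 := h.hom_from hW hFI hD0 n t' hli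
  obtain ⟨b1, -⟩ := q.add_coker_Wk2 hW (Abelian.image.ι f) inferInstance hI hM.1.1
  have b2 := q.r_nonneg _ (hW.cokernel (Abelian.image.ι f) hI hM.1.1)
  have h2 := h.pos
  nlinarith [Int.natCast_nonneg n]

variable {Q : Scheme.{0}} [IsIntegral Q] [CX Q] [IsLocallyNoetherian Q]

namespace BiP

variable {G : BiP Q}

/-- The structure sheaf is split with basis `1` of bidegree `(0, 0)`: `ℙ¹ × ℙ¹`. -/
structure Split.Std (S : G.Split (FO Q) Unit) : Prop where
  e : S.e () = 1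
  a : S.a () = 0
  b : S.b () = 0

/-- `O(m, n)`: rank 1, degree `m + n + 2`. -/
theorem Split.Std.rdx_OO {S : G.Split (FO Q) Unit} (hS : S.Std) (m n : ℤ) :
    IsCoh (G.OO m n) ∧ (rdx S).r (G.OO m n) = 1 ∧ (rdx S).D (G.OO m n) = m + n + 2 := by
  have hc : IsCoh (G.OO m n) := isCoh_OO G m n
  obtain ⟨T, ha, hb⟩ := S.exists_OF (G := G) m n
  obtain ⟨h1, h2, -⟩ := rdx_split S T hc.qc
  refine ⟨hc, ?_, ?_⟩
  · have h3 : (rdx S).r (G.OO m n) = Fintype.card Unit := h1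
    rw [h3]
    simp
  · have h3 : (rdx S).D (G.OO m n) = ∑ l, (T.a l + 1) + ∑ l, (T.b l + 1) := h2
    rw [h3]
    simp only [Finset.univ_unique, Finset.sum_singleton, ha, hb]
    have e1 : S.a default = 0 := hS.a
    have e2 : S.b default = 0 := hS.b
    rw [e1, e2]
    ring

theorem Split.Std.rk1H {S : G.Split (FO Q) Unit} (hS : S.Std) (j : ℤ) :
    Rk1H ((rdx S).sh (2 * j + 2)) (G.OO j j) := by
  obtain ⟨hc, hr, hD⟩ := hS.rdx_OO j j
  obtain ⟨T, -, -⟩ := S.exists_OF (G := G) j j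
  have h1 : Rk1 (rdx S) (G.OO j j) := Split.rk1 S T hc.qc
  have h2 : Hart (rdx S) (G.OO j j) := Split.hart S T hc.qc
  refine { mem := h1.mem, pos := h1.pos, sub := h1.sub, deg := ?_, hart := ?_,
           endo := fun g => Split.endo S T hc.qc g }
  · rw [RDX.sh_D, hr, hD]
    ring
  · intro M M' i hi hM hM' hr0 hD0 ψ
    rw [RDX.sh_r] at hr0
    rw [RDX.sh_D, hr0, mul_zero, sub_zero] at hD0
    exact h2 M M' i hi hM hM' hr0 hD0 ψ

omit [CX Q] [IsLocallyNoetherian Q] in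
/-- (aux) the structure sheaf is quasi-coherent. -/
theorem qc_FO_QB (G : BiP Q) : QC (FO Q).mod := by
  have h : FO Q = G.OF 0 0 := by
    have h1 : (FO Q).mem = (G.OF 0 0).mem := by
      funext p g
      exact propext (G.mem_zero_iff_Geo3 g).symm
    cases hF : FO Q
    cases hG : G.OF 0 0
    rw [hF, hG] at h1
    cases h1
    rfl
  rw [h]
  exact qc_OO_QCf G 0 0

/-- `Hom(O(j,j), N[2]) = 0` for `N` in `T` of slope `2 (j - 1)` (`duality_Q`). -/
theorem Split.Std.h2_zero {S : G.Split (FO Q) Unit} (hS : S.Std) (j : ℤ) {N : Q.Modules}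
    (hN : ((rdx S).sh (2 * j)).Tc N) (φ : G.LL (-j) (-j) ⟶ (SS N)⟦(2 : ℤ)⟧) : φ = 0 := by
  by_contra hφ
  have hW := wserre_isCoh Q
  have hNc : IsCoh N := hN.1
  have hT : G.Torus := S.torus hS.e (qc_FO_QB G)
  obtain ⟨ψ, hψ⟩ := G.duality_Q hT hNc.qc (-j) (-j) φ hφ
  have e : -(-j + 2) = j - 2 := by ring
  have hF : ((rdx S).sh (2 * j)).Fc (G.OO (-(-j + 2)) (-(-j + 2))) := by
    rw [e]
    have h1 := hS.rk1H (j - 2)
    exact (rdx S).Fc_mono (by omega) (h1.toRk1.fc_QB hW h1.deg)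
  exact hψ (((rdx S).sh (2 * j)).Tc_Fc_zero hW hN hF ψ)

/-- An alternating sum with support in `{0, 1, 2}` and zero second term. -/
theorem altSum_le_QB (a : ℤ → ℕ) (h : ∀ i, i < 0 ∨ 2 ≤ i → a i = 0) : altSum a ≤ a 0 := by
  have h1 : altSum a = a 0 - a 1 := by
    unfold altSum
    rw [finsum_eq_sum_of_support_subset (s := {0, 1})]
    · rw [Finset.sum_insert (by decide), Finset.sum_singleton]
      simp
      ring
    · intro i hi
      rw [Function.mem_support] at hi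
      simp only [Finset.coe_insert, Finset.coe_singleton, Set.mem_insert_iff,
        Set.mem_singleton_iff]
      by_contra hcon
      apply hi
      rw [h i (by omega), Nat.cast_zero, mul_zero]
  rw [h1]
  have := Int.natCast_nonneg (a 1)
  omega

/-- `χ(O(j,j), N) ≤ dim Hom(O(j,j), N)` if `Hom(O(j,j), N[2]) = 0`. -/
theorem eulF_le_finrank (S : G.Split (FO Q) Unit) {N : Q.Modules} (hN : IsCoh N) (j : ℤ)
    (h2 : ∀ φ : G.LL (-j) (-j) ⟶ (SS N)⟦(2 : ℤ)⟧, φ = 0) :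
    M21.eulF ℂ (G.LL (-j) (-j)) (SS N) ≤ Module.finrank ℂ (G.OO j j ⟶ N) := by
  have _ := S
  have hx : M21.eulF ℂ (G.LL (-j) (-j)) (SS N) = altSum fun i : ℤ =>
      Module.finrank ℂ (G.LL (-j) (-j) ⟶ (SS N)⟦i⟧) := rfl
  have h0 : ∀ i : ℤ, i < 0 ∨ 2 ≤ i →
      Module.finrank ℂ (G.LL (-j) (-j) ⟶ (SS N)⟦i⟧) = 0 := by
    intro i hi
    have : Subsingleton (G.LL (-j) (-j) ⟶ (SS N)⟦i⟧) := by
      refine ⟨fun φ ψ => ?_⟩
      by_cases h : i = 2
      · subst h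
        rw [h2 φ, h2 ψ]
      · have h' : i < 0 ∨ 2 < i := by omega
        rw [G.hom_zero_cech hN.qc _ _ i h' φ, G.hom_zero_cech hN.qc _ _ i h' ψ]
    exact Module.finrank_zero_of_subsingleton
  have h3 := altSum_le_QB (fun i : ℤ => Module.finrank ℂ (G.LL (-j) (-j) ⟶ (SS N)⟦i⟧)) h0
  have h4 : Module.finrank ℂ (G.LL (-j) (-j) ⟶ (SS N)⟦(0 : ℤ)⟧) =
      Module.finrank ℂ (G.OO j j ⟶ N) := by
    rw [← (homSS (G.OO (- -j) (- -j)) N).finrank_eq]
    rw [neg_neg]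
  rw [hx]
  rw [← h4]
  exact h3

/-- The bound. -/
theorem Split.Std.bound {S : G.Split (FO Q) Unit} (hS : S.Std) (j : ℤ) {N : Q.Modules}
    (hT : ((rdx S).sh (2 * j)).Tc N) (hF : ((rdx S).sh (2 * j + 2)).Fc N) :
    (rdx S).x N ≤ (1 + 2 * j ^ 2 + 2 * |j| + |j ^ 2 - 2 * j|) * (rdx S).r N := by
  have hW := wserre_isCoh Q
  have hN : IsCoh N := hT.1
  have h1 := (((hS.rk1H j)).finrank_from' hW hF).2
  rw [RDX.sh_r] at h1
  have h2 := eulF_le_finrank S hN j (hS.h2_zero j hT)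
  rw [G.eulF_eq (SS N) (fun m n => homFin_coh S hN m n)] at h2
  have h3 := (((rdx S).sh (2 * j)).Tc_D hW hT).1
  have h4 := hF.2 N (𝟙 N) inferInstance hN
  rw [RDX.sh_D] at h3 h4
  have hr := (rdx S).r_nonneg N hN
  have hr' : (rdx S).r N = G.nr (SS N) := rfl
  have hD' : (rdx S).D N = G.nd1 (SS N) + G.nd2 (SS N) := rfl
  have hx' : (rdx S).x N = G.nx (SS N) := rfl
  rw [← hr', ← hx'] at h2
  have h5 : (rdx S).x N ≤ (rdx S).r N - (rdx S).r N * j ^ 2 + (rdx S).D N * j := by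
    rw [hD']
    have e : (rdx S).r N * -j * -j + G.nd1 (SS N) * -j + G.nd2 (SS N) * -j + (rdx S).x N =
      (rdx S).r N * j ^ 2 - (G.nd1 (SS N) + G.nd2 (SS N)) * j + (rdx S).x N := by ring
    rw [e] at h2
    linarith
  have h6 : (rdx S).D N * j ≤ (2 * j ^ 2 + 2 * |j|) * (rdx S).r N := by
    rcases le_total 0 j with hj | hj
    · rw [abs_of_nonneg hj]
      nlinarith
    · rw [abs_of_nonpos hj]
      nlinarith
  have h7 : 0 ≤ |j ^ 2 - 2 * j| * (rdx S).r N := mul_nonneg (abs_nonneg _) hr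
  have h8 : 0 ≤ (rdx S).r N * j ^ 2 := mul_nonneg hr (sq_nonneg _)
  nlinarith

/-- The hull condition. -/
theorem hull (S : G.Split (FO Q) Unit) (M : Q.Modules) (hM : (rdx S).Tf M) :
    ∃ n : ℤ, ∀ (M' : Q.Modules) (i : M ⟶ M'), Mono i → (rdx S).Tf M' →
      (rdx S).r M' = (rdx S).r M → (rdx S).D M' = (rdx S).D M → (rdx S).x M' ≤ n := by
  have hW := wserre_isCoh Q
  obtain ⟨k, n, j, hj⟩ := exists_embed S hM
  have hO : IsCoh (G.OO k k) := isCoh_OO G k k
  obtain ⟨T, -, -⟩ := S.exists_OF (G := G) k k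
  have hH : Hart (rdx S) (G.OO k k) := Split.hart S T hO.qc
  exact hull_of_embed hW (rdx S) hM j (hW.pow hO n) (hH.pow (rdx S) n)

end BiP

end M21.E3
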