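import Pool.Agent.H.MP_21b43d_ag.E3.G.Num
import Pool.Agent.H.MP_21b43d_ag.E3.MainB
import Pool.Agent.H.MP_21b43d_ag.E3.Cmp
import Pool.Agent.H.MP_21b43d_ag.Defs

/-!
# M21, existence part, S4: a stability condition from the conditions `Pos` for a shifted slope
-/

open CategoryTheory CategoryTheory.Limits CategoryTheory.Pretriangulated AlgebraicGeometry
  TopologicalSpace

noncomputable section

namespace M21.E3

variable {X : Scheme.{0}} [IsIntegral X] [CX X] [IsLocallyNoetherian X]

namespace BiP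

variable {G : BiP X} {ι : Type} [Fintype ι]

/-- A function which is a combination of the four Euler forms depends only on the numerical class. -/
theorem eul_num_StabP (S : G.Split (FO X) ι) {e : X.Modules → ℤ} (a b c d : ℤ)
    (he : ∀ F, e F = a * M21.eulF ℂ (G.LL 1 1) (SS F) + b * M21.eulF ℂ (G.LL 1 0) (SS F) +
      c * M21.eulF ℂ (G.LL 0 1) (SS F) + d * M21.eulF ℂ (G.LL 0 0) (SS F))
    {E F : DMod X} (hE : dbCoh X E) (hF : dbCoh X F)
    (key : ∀ m n : ℤ, M21.eulF ℂ (G.LL m n) E = M21.eulF ℂ (G.LL m n) F) :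
    eul e E = eul e F := by
  have h : e = fun F => a * M21.eulF ℂ (G.LL 1 1) (SS F) + b * M21.eulF ℂ (G.LL 1 0) (SS F) +
      c * M21.eulF ℂ (G.LL 0 1) (SS F) + d * M21.eulF ℂ (G.LL 0 0) (SS F) := funext he
  rw [h, eul_lin_Num S E hE, eul_lin_Num S F hF, key, key, key, key]

/-- **Existence of a stability condition** from the conditions `Pos` for the slope `k` and the
parameter `t`: `Λ = ℤ²`, `v(E) = (D(E) - k r(E), χ(E) - t r(E))`, `Z(v) = - v_1 + i v_0`. -/
theorem exists_stabilityCondition_of_pos (S : G.Split (FO X) ι) (k t : ℤ)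
    (hp : Pos ((rdx S).sh k) t) :
    Nonempty (StabilityCondition (CX.f : X ⟶ Spec (.of ℂ))) := by
  have hW := wserre_isCoh X
  have : (dbW (IsCoh : ObjectProperty X.Modules)).IsTriangulated :=
    inferInstanceAs (dbCoh X).IsTriangulated
  let q := (rdx S).sh k
  obtain ⟨σ, hσ⟩ := exists_stab hW q t hp
  let v : DbCoh X → (Fin 2 → ℤ) := fun E => ![eul q.D E.obj, eul (mm q t) E.obj]
  let Z : (Fin 2 → ℤ) →+ ℂ :=
    { toFun := fun w => - (w 1 : ℂ) + (w 0 : ℂ) * Complex.I
      map_zero' := by simp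
      map_add' := fun a b => by
        simp only [Pi.add_apply, Int.cast_add]
        ring }
  have hZ : ∀ E : DbCoh X, Z (v E) =
      - (eul (mm q t) E.obj : ℂ) + (eul q.D E.obj : ℂ) * Complex.I := fun E => rfl
  refine ⟨{ toSlicing := σ, n := 2, v := v, v_add := ?_, v_num := ?_, Z := Z,
            Z_phase := ?_, support := ?_ }⟩
  · intro T hT
    have hT' : (dbCoh X).ι.mapTriangle.obj T ∈ distTriang (DMod X) := hT
    have e1 := eul_add hW q.D (addOn_D q) _ hT' T.obj₁.property T.obj₂.property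
      T.obj₃.property
    have e2 := eul_add hW (mm q t) (addOn_mm q t) _ hT' T.obj₁.property
      T.obj₂.property T.obj₃.property
    funext i
    fin_cases i
    · exact e1
    · exact e2
  · intro E F hEF
    have key : ∀ m n : ℤ, M21.eulF ℂ (G.LL m n) E.obj = M21.eulF ℂ (G.LL m n) F.obj := by
      intro m n
      have h1 := hEF ⟨G.LL m n, dbW_single hW (G.OO (-m) (-n)) (isCoh_OO G (-m) (-n)) 0⟩
      have h2 : chi (CX.f : X ⟶ Spec (.of ℂ)) (G.LL m n) E.obj = M21.eulF ℂ (G.LL m n) E.obj :=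
        chi_eq_eulF CX.f (G.LL m n) E.obj
      have h3 : chi (CX.f : X ⟶ Spec (.of ℂ)) (G.LL m n) F.obj = M21.eulF ℂ (G.LL m n) F.obj :=
        chi_eq_eulF CX.f (G.LL m n) F.obj
      rw [← h2, ← h3]
      exact h1
    have e1 : eul q.D E.obj = eul q.D F.obj := by
      refine eul_num_StabP S (-k) (1 + k) (1 + k) (-2 - k) (fun F => ?_) E.property F.property key
      show G.nd1 (SS F) + G.nd2 (SS F) - k * G.nr (SS F) = _
      unfold nd1 nd2 nr
      ring
    have e2 : eul (mm q t) E.obj = eul (mm q t) F.obj := by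
      refine eul_num_StabP S (-t) t t (1 - t) (fun F => ?_) E.property F.property key
      show G.nx (SS F) - t * G.nr (SS F) = _
      unfold nx nr
      ring
    funext i
    fin_cases i
    · exact e1
    · exact e2
  · intro φ E hE h0
    obtain ⟨ρ, hρ, hρ'⟩ := hσ φ E hE h0
    exact ⟨ρ, hρ, (hZ E).trans hρ'⟩
  · refine ⟨1, fun φ E _ i => ?_⟩
    rw [one_mul, hZ]
    fin_cases i
    · have h1 := Complex.abs_im_le_norm
        (- (eul (mm q t) E.obj : ℂ) + (eul q.D E.obj : ℂ) * Complex.I)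
      simp only [Complex.add_im, Complex.neg_im, Complex.intCast_im, Complex.mul_im,
        Complex.intCast_re, Complex.I_im, Complex.I_re, mul_one, mul_zero, add_zero, neg_zero,
        zero_add] at h1
      exact h1
    · have h1 := Complex.abs_re_le_norm
        (- (eul (mm q t) E.obj : ℂ) + (eul q.D E.obj : ℂ) * Complex.I)
      simp only [Complex.add_re, Complex.neg_re, Complex.intCast_re, Complex.mul_re,
        Complex.intCast_im, Complex.I_im, Complex.I_re, mul_one, mul_zero, sub_zero,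
        add_zero, abs_neg] at h1
      exact h1

end BiP

/-- `Pos` depends only on the values on `W`. -/
theorem Pos.congr {𝒞 : Type*} [Category 𝒞] [Abelian 𝒞] [HasDerivedCategory 𝒞]
    {W : ObjectProperty 𝒞} {q q' : RDX W} {t : ℤ}
    (hr : ∀ M, W M → q.r M = q'.r M) (hD : ∀ M, W M → q.D M = q'.D M)
    (hx : ∀ M, W M → q.x M = q'.x M) (h : Pos q t) : Pos q' t := by
  have tf : ∀ M, q'.Tf M → q.Tf M := fun M hM =>
    ⟨hM.1, fun N i hi hN hr' => hM.2 N i hi hN (by rw [← hr N hN, hr'])⟩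
  have tf' : ∀ M, q.Tf M → q'.Tf M := fun M hM =>
    ⟨hM.1, fun N i hi hN hr' => hM.2 N i hi hN (by rw [hr N hN, hr'])⟩
  refine ⟨fun M hM hD0 h0 => ?_, fun M hM => ?_⟩
  · rw [← hx M hM.1.1, ← hr M hM.1.1]
    refine h.bound M ⟨tf M hM.1, fun N i hi hN => ?_⟩ ?_ h0
    · rw [hD N hN]
      exact hM.2 N i hi hN
    · rw [hD M hM.1.1, hD0]
  · obtain ⟨n, hn⟩ := h.hull M (tf M hM)
    refine ⟨n, fun M' i hi hM' h1 h2 => ?_⟩
    rw [← hx M' hM'.1]
    refine hn M' i hi (tf M' hM') ?_ ?_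
    · rw [hr M' hM'.1, hr M hM.1, h1]
    · rw [hD M' hM'.1, hD M hM.1, h2]

end M21.E3
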