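import Pool.Agent.H.MP_21b43d_ag.E3.S4.PushF
import Pool.Agent.H.MP_21b43d_ag.E3.S4.Push4
import Pool.Agent.H.MP_21b43d_ag.E3.S4.QB
import Pool.Agent.H.MP_21b43d_ag.E3.S4.StabP

/-!
# M21, existence part, S4-M: stability conditions on finite covers of `ℙ¹ × ℙ¹`
-/

open CategoryTheory CategoryTheory.Limits CategoryTheory.Pretriangulated AlgebraicGeometry
  TopologicalSpace

noncomputable section

namespace M21.E3

namespace RDX

variable {𝒟 : Type*} [Category 𝒟] [Abelian 𝒟] {V : ObjectProperty 𝒟} (q : RDX V)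

theorem sh_sh (k l : ℤ) : (q.sh k).sh l = q.sh (k + l) := by
  unfold sh
  congr 1
  funext M
  ring

end RDX

section

variable {X Q : Scheme.{0}} (π : X ⟶ Q) [CX X] [CX Q]
    (hC : (CX.f : X ⟶ Spec (.of ℂ)) = π ≫ CX.f)
    (G : BiP Q) (haff : ∀ s t, IsAffineOpen (π ⁻¹ᵁ G.U s t))
    (hfin : ∀ s t, (π.app (G.U s t)).hom.Finite) (pt : X)
    (hpt : π pt ∈ (G.V false ⊓ G.V true) ⊓ (G.W false ⊓ G.W true)) [IsIntegral X] [IsIntegral Q]
    [IsLocallyNoetherian X] [IsLocallyNoetherian Q]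

include hC haff hfin hpt in
/-- **Existence of a stability condition** on a finite cover of `ℙ¹ × ℙ¹` such that the direct image of
the structure sheaf is a direct sum of line bundles. -/
theorem exists_stabilityCondition_cover {ι : Type} [Fintype ι] (S : G.Split (FO Q) Unit)
    (hS : S.Std) (T : (G.pull π haff pt hpt).Split (FO X) ι) :
    Nonempty (StabilityCondition (CX.f : X ⟶ Spec (.of ℂ))) := by
  have hπ : IsFinite π := isFinite_of_charts π G haff hfin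
  have hW := wserre_isCoh X
  have hV := wserre_isCoh Q
  obtain ⟨c, hc⟩ := exists_push π G haff pt hpt hC S T
  have h := hc 2
  have hc0 : (0 : ℤ) ≤ c := Int.natCast_nonneg c
  -- the bound
  let C : ℤ := 1 + 2 * ((c : ℤ) + 1) ^ 2 + 2 * ((c : ℤ) + 1) + (((c : ℤ) + 1) ^ 2 + 2 * ((c : ℤ) + 1))
  have hwin : ∀ j : ℤ, -(c : ℤ) - 1 < j → j ≤ c → ∀ N, (((BiP.rdx S).sh 2).sh (2 * (j - 1))).Tc N →
      (((BiP.rdx S).sh 2).sh (2 * j)).Fc N → ((BiP.rdx S).sh 2).x N ≤ C * ((BiP.rdx S).sh 2).r N := by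
    intro j h1 h2 N hT hF
    rw [RDX.sh_sh] at hT hF
    have e1 : 2 + 2 * (j - 1) = 2 * j := by ring
    have e2 : 2 + 2 * j = 2 * j + 2 := by ring
    rw [e1] at hT
    rw [e2] at hF
    have hb := hS.bound j hT hF
    have hr := (BiP.rdx S).r_nonneg N hT.1
    refine hb.trans (mul_le_mul_of_nonneg_right ?_ hr)
    have hj : |j| ≤ (c : ℤ) + 1 := abs_le.2 ⟨by omega, by omega⟩
    have hj0 : 0 ≤ |j| := abs_nonneg j
    have hj2 : j ^ 2 = |j| ^ 2 := (sq_abs j).symm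
    have h3 : |j ^ 2 - 2 * j| ≤ |j| ^ 2 + 2 * |j| := by
      refine (abs_sub _ _).trans ?_
      rw [abs_pow, abs_mul]
      simp
    have h4 : |j| ^ 2 ≤ ((c : ℤ) + 1) ^ 2 := by nlinarith
    change _ ≤ 1 + 2 * ((c : ℤ) + 1) ^ 2 + 2 * ((c : ℤ) + 1) + (((c : ℤ) + 1) ^ 2 + 2 * ((c : ℤ) + 1))
    rw [hj2] at *
    linarith
  have hull : ∀ M, ((BiP.rdx S).sh 2).Tf M → ∃ n : ℤ, ∀ (M' : Q.Modules) (i : M ⟶ M'), Mono i →
      ((BiP.rdx S).sh 2).Tf M' → ((BiP.rdx S).sh 2).r M' = ((BiP.rdx S).sh 2).r M →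
      ((BiP.rdx S).sh 2).D M' = ((BiP.rdx S).sh 2).D M → ((BiP.rdx S).sh 2).x M' ≤ n := by
    intro M hM
    obtain ⟨n, hn⟩ := BiP.hull S M hM
    refine ⟨n, fun M' i hi h1 h2 h3 => hn M' i hi h1 h2 ?_⟩
    rw [RDX.sh_D, RDX.sh_D] at h3
    rw [RDX.sh_r] at h2
    rw [h2] at h3
    linarith
  have hp := h.pos hW hV C (C + 1) (by omega) hwin hull
  refine BiP.exists_stabilityCondition_of_pos T 2 (C + 1) (Pos.congr ?_ ?_ ?_ hp)
  · intro M hM
    exact (numbers_push π hC G haff pt hpt S T hM).1.symm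
  · intro M hM
    obtain ⟨e1, e2, e3, -⟩ := numbers_push π hC G haff pt hpt S T hM
    show G.nd1 (SS ((PP π).obj M)) + G.nd2 (SS ((PP π).obj M)) - 2 * G.nr (SS ((PP π).obj M)) =
      (G.pull π haff pt hpt).nd1 (SS M) + (G.pull π haff pt hpt).nd2 (SS M) -
        2 * (G.pull π haff pt hpt).nr (SS M)
    rw [e1, e2, e3]
  · intro M hM
    exact (numbers_push π hC G haff pt hpt S T hM).2.2.2.symm

end

end M21.E3
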