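import Pool.Agent.H.MP_21b43d_ag.XP.Irr

/-!
# M21, stage 4: charts in a field, part 1: overlaps of charts
-/

set_option autoImplicit false
set_option linter.all false

open CategoryTheory CategoryTheory.Limits AlgebraicGeometry TopologicalSpace

namespace M21.S4

open M21X M21.XP

noncomputable section

/-- The basic open of a section, seen on a morphism from an affine scheme. -/
theorem mem_basicOpen_iff {X : Scheme.{0}} {T : Type} [CommRing T] (h : Spec (.of T) ⟶ X)
    (W : X.Opens) (hV : ⊤ ≤ h ⁻¹ᵁ W) (s : Γ(X, W)) (p : PrimeSpectrum T) :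
    h p ∈ X.basicOpen s ↔ secV W h hV s ∉ p.asIdeal := by
  have h1 := Scheme.basicOpen_appLE h ⊤ W hV s
  have h2 := basicOpen_eq_of_affine' (R := .of T) (h.appLE W ⊤ hV s)
  rw [h1] at h2
  have h3 : (p : (Spec (.of T) : Scheme.{0})) ∈ (⊤ ⊓ h ⁻¹ᵁ X.basicOpen s : (Spec (.of T)).Opens) ↔
      p ∈ PrimeSpectrum.basicOpen (secV W h hV s) := by
    rw [h2]
    rfl
  constructor
  · intro hp
    exact h3.mp ⟨trivial, hp⟩
  · intro hp
    exact (h3.mpr hp).2

theorem isDominant_of_injective {A B : Type} [CommRing A] [CommRing B] (φ : A →+* B)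
    (hφ : Function.Injective φ) : IsDominant (Spec.map (CommRingCat.ofHom φ)) := by
  constructor
  have := (PrimeSpectrum.denseRange_comap_iff_ker_le_nilRadical φ).mpr (by
    rw [(RingHom.injective_iff_ker_eq_bot φ).mp hφ]
    exact bot_le)
  exact this

section loc

variable {K : Type} [Field K] [Algebra ℂ K]

/-- The elements of `K` which are in `R` after multiplication by a power of `β`. -/
def locA (R : Subalgebra ℂ K) (β : K) (hβ : β ∈ R) : Subalgebra ℂ K where
  carrier := {g | ∃ n : ℕ, β ^ n * g ∈ R}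
  mul_mem' := by
    rintro a b ⟨n, hn⟩ ⟨m, hm⟩
    refine ⟨n + m, ?_⟩
    have : β ^ (n + m) * (a * b) = (β ^ n * a) * (β ^ m * b) := by ring
    rw [this]
    exact mul_mem hn hm
  add_mem' := by
    rintro a b ⟨n, hn⟩ ⟨m, hm⟩
    refine ⟨n + m, ?_⟩
    have : β ^ (n + m) * (a + b) = β ^ m * (β ^ n * a) + β ^ n * (β ^ m * b) := by ring
    rw [this]
    exact add_mem (mul_mem (pow_mem hβ m) hn) (mul_mem (pow_mem hβ n) hm)
  algebraMap_mem' c := ⟨0, by rw [pow_zero, one_mul]; exact R.algebraMap_mem c⟩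

theorem le_locA (R : Subalgebra ℂ K) (β : K) (hβ : β ∈ R) : R ≤ locA R β hβ := fun a ha =>
  ⟨0, by rw [pow_zero, one_mul]; exact ha⟩

/-- `R[1/β]` is the localization. -/
theorem isLocalization_locA (R : Subalgebra ℂ K) (β : K) (hβ : β ∈ R) (h0 : β ≠ 0) :
    letI := (Subalgebra.inclusion (le_locA R β hβ)).toRingHom.toAlgebra
    IsLocalization.Away (⟨β, hβ⟩ : R) (locA R β hβ) := by
  letI := (Subalgebra.inclusion (le_locA R β hβ)).toRingHom.toAlgebra
  have hval : ∀ a : R, ((algebraMap R (locA R β hβ) a : locA R β hβ) : K) = a := fun a => rfl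
  refine ⟨⟨?_, ?_, ?_⟩⟩
  · rintro ⟨_, n, rfl⟩
    have hinv : (β ^ n)⁻¹ ∈ locA R β hβ := ⟨n, by
      rw [mul_inv_cancel₀ (pow_ne_zero n h0)]
      exact R.one_mem⟩
    refine IsUnit.of_mul_eq_one ⟨_, hinv⟩ (Subtype.ext ?_)
    show β ^ n * (β ^ n)⁻¹ = 1
    exact mul_inv_cancel₀ (pow_ne_zero n h0)
  · rintro ⟨z, n, hn⟩
    refine ⟨⟨⟨β ^ n * z, hn⟩, ⟨_, n, rfl⟩⟩, Subtype.ext ?_⟩
    show z * β ^ n = β ^ n * z
    exact mul_comm _ _
  · intro a b hab
    refine ⟨1, ?_⟩
    have h1 : (a : K) = b := by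
      rw [← hval a, ← hval b, hab]
    rw [Subtype.ext h1]

end loc

section overlap

variable {X : Scheme.{0}} {K : Type} [Field K] [Algebra ℂ K] (xi : Spec (.of K) ⟶ X)
  (f : X ⟶ Spec (.of ℂ)) [IsSeparated f]

/-- **Overlap of two charts**: the points of the first chart where `β` is invertible lie in the
second chart if the elements of the second chart ring are regular there. -/
theorem mem_range_of_basicOpen (R1 R2 : Subalgebra ℂ K) (j1 : Spec (.of R1) ⟶ X)
    (j2 : Spec (.of R2) ⟶ X)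
    (h1 : Spec.map (CommRingCat.ofHom (algebraMap R1 K)) ≫ j1 = xi)
    (h2 : Spec.map (CommRingCat.ofHom (algebraMap R2 K)) ≫ j2 = xi)
    (f1 : j1 ≫ f = Spec.map (CommRingCat.ofHom (algebraMap ℂ R1)))
    (f2 : j2 ≫ f = Spec.map (CommRingCat.ofHom (algebraMap ℂ R2)))
    (β : K) (hβ : β ∈ R1) (h0 : β ≠ 0) (hR : ∀ a ∈ R2, ∃ n : ℕ, β ^ n * a ∈ R1)
    (p : PrimeSpectrum R1) (hp : (⟨β, hβ⟩ : R1) ∉ p.asIdeal) : ∃ q, j2 q = j1 p := by
  letI := (Subalgebra.inclusion (le_locA R1 β hβ)).toRingHom.toAlgebra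
  haveI := isLocalization_locA R1 β hβ h0
  have hR2 : R2 ≤ locA R1 β hβ := fun a ha => hR a ha
  let i1 : R1 →+* locA R1 β hβ := (Subalgebra.inclusion (le_locA R1 β hβ)).toRingHom
  let i2 : R2 →+* locA R1 β hβ := (Subalgebra.inclusion hR2).toRingHom
  have hdom : IsDominant (Spec.map (CommRingCat.ofHom (algebraMap (locA R1 β hβ) K))) :=
    isDominant_of_injective _ Subtype.val_injective
  have e : Spec.map (CommRingCat.ofHom i1) ≫ j1 = Spec.map (CommRingCat.ofHom i2) ≫ j2 := by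
    apply ext_of_isDominant_of_isSeparated f (ι := Spec.map (CommRingCat.ofHom
      (algebraMap (locA R1 β hβ) K)))
    · rw [Category.assoc, Category.assoc, f1, f2, ← Spec.map_comp, ← Spec.map_comp]
      rfl
    · rw [← Category.assoc, ← Category.assoc, ← Spec.map_comp, ← Spec.map_comp]
      exact h1.trans h2.symm
  have hr := PrimeSpectrum.localization_away_comap_range (locA R1 β hβ) (⟨β, hβ⟩ : R1)
  obtain ⟨p', hp'⟩ : p ∈ Set.range (PrimeSpectrum.comap (algebraMap R1 (locA R1 β hβ))) := by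
    rw [hr]
    exact hp
  refine ⟨Spec.map (CommRingCat.ofHom i2) p', ?_⟩
  have e1 := congrArg (fun g : Spec (.of (locA R1 β hβ)) ⟶ X => g p') e
  have e2 : Spec.map (CommRingCat.ofHom i1) p' = p := hp'
  have e3 : j1 (Spec.map (CommRingCat.ofHom i1) p') = j2 (Spec.map (CommRingCat.ofHom i2) p') := e1
  exact e3.symm.trans (congrArg (fun x => j1 x) e2)

end overlap

/-- `B` for chart `0` (`false`), `B⁻¹` for chart `1` (`true`) -/
def pw {K : Type} [Field K] (B : K) (s : Bool) : K := if s then B⁻¹ else B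

theorem pw_false {K : Type} [Field K] (B : K) : pw B false = B := rfl

theorem pw_true {K : Type} [Field K] (B : K) : pw B true = B⁻¹ := rfl

theorem pw_ne {K : Type} [Field K] {B : K} (h : B ≠ 0) (s : Bool) : pw B s ≠ 0 := by
  cases s
  · exact h
  · exact inv_ne_zero h

theorem pw_mul_not {K : Type} [Field K] {B : K} (h : B ≠ 0) (s : Bool) :
    pw B s * pw B (!s) = 1 := by
  cases s
  · exact mul_inv_cancel₀ h
  · exact inv_mul_cancel₀ h

/-- **Four charts in a field.** An integral separated scheme `X` over `ℂ` with a dominant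
`K`-point and a cover by four affine charts `Spec (R s t)`, `R s t` subalgebras of `K`, with
coordinates `B^±1`, `Z^±1`. -/
structure FC (X : Scheme.{0}) (f : X ⟶ Spec (.of ℂ)) (K : Type) [Field K] [Algebra ℂ K] where
  /-- the dominant `K`-point -/
  xi : Spec (.of K) ⟶ X
  dom : IsDominant xi
  /-- the chart rings -/
  R : Bool → Bool → Subalgebra ℂ K
  /-- the charts -/
  j : ∀ s t, Spec (.of (R s t)) ⟶ X
  opn : ∀ s t, IsOpenImmersion (j s t)
  hj : ∀ s t, Spec.map (CommRingCat.ofHom (algebraMap (R s t) K)) ≫ j s t = xi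
  hf : ∀ s t, j s t ≫ f = Spec.map (CommRingCat.ofHom (algebraMap ℂ (R s t)))
  cov : ∀ x : X, ∃ s t, x ∈ (j s t).opensRange
  /-- the first coordinate -/
  B : K
  /-- the second coordinate -/
  Z : K
  B_ne : B ≠ 0
  Z_ne : Z ≠ 0
  memB : ∀ s t, pw B s ∈ R s t
  memZ : ∀ s t, pw Z t ∈ R s t
  locB : ∀ s t, ∀ a ∈ R (!s) t, ∃ n : ℕ, pw B s ^ n * a ∈ R s t
  locZ : ∀ s t, ∀ a ∈ R s (!t), ∃ n : ℕ, pw Z t ^ n * a ∈ R s t

end

end M21.S4
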