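import Pool.Agent.H.MP_21b43d_ag.E3.S4.Bip1

/-!
# M21, stage 4: charts in a field, part 2: the two covers and the coordinates
-/

set_option autoImplicit false
set_option linter.all false

open CategoryTheory CategoryTheory.Limits AlgebraicGeometry TopologicalSpace

namespace M21.S4

open M21X M21.XP

noncomputable section

namespace FC

variable {X : Scheme.{0}} {f : X ⟶ Spec (.of ℂ)} {K : Type} [Field K] [Algebra ℂ K] (C : FC X f K)

instance : IsDominant C.xi := C.dom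
instance (s t : Bool) : IsOpenImmersion (C.j s t) := C.opn s t

/-- The four charts. -/
def U (s t : Bool) : X.Opens := (C.j s t) ''ᵁ ⊤

/-- The first cover. -/
def V (s : Bool) : X.Opens := C.U s false ⊔ C.U s true

/-- The second cover. -/
def W (t : Bool) : X.Opens := C.U false t ⊔ C.U true t

theorem aff_U (s t : Bool) : IsAffineOpen (C.U s t) :=
  (isAffineOpen_top _).image_of_isOpenImmersion (C.j s t)

theorem mem_U_iff (s t : Bool) (x : X) :
    x ∈ C.U s t ↔ ∃ p : PrimeSpectrum (C.R s t), C.j s t p = x := by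
  constructor
  · rintro ⟨p, -, hp⟩
    exact ⟨p, hp⟩
  · rintro ⟨p, hp⟩
    exact ⟨p, trivial, hp⟩

theorem exists_mem_U (x : X) : ∃ s t, x ∈ C.U s t := by
  obtain ⟨s, t, p, hp⟩ := C.cov x
  exact ⟨s, t, p, trivial, hp⟩

theorem U_le_V (s t : Bool) : C.U s t ≤ C.V s := by
  cases t
  · exact le_sup_left
  · exact le_sup_right

theorem U_le_W (s t : Bool) : C.U s t ≤ C.W t := by
  cases s
  · exact le_sup_left
  · exact le_sup_right

theorem mem_V_iff (s : Bool) (x : X) : x ∈ C.V s ↔ ∃ t, x ∈ C.U s t := by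
  constructor
  · rintro (h | h)
    · exact ⟨false, h⟩
    · exact ⟨true, h⟩
  · rintro ⟨t, h⟩
    exact C.U_le_V s t h

theorem mem_W_iff (t : Bool) (x : X) : x ∈ C.W t ↔ ∃ s, x ∈ C.U s t := by
  constructor
  · rintro (h | h)
    · exact ⟨false, h⟩
    · exact ⟨true, h⟩
  · rintro ⟨s, h⟩
    exact C.U_le_W s t h

theorem xi_U (s t : Bool) : ⊤ ≤ C.xi ⁻¹ᵁ C.U s t := by
  intro p _
  refine ⟨Spec.map (CommRingCat.ofHom (algebraMap (C.R s t) K)) p, trivial, ?_⟩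
  rw [← C.hj s t]
  rfl

theorem xi_of_mem [IsIntegral X] {O : X.Opens} {x : X} (hx : x ∈ O) : ⊤ ≤ C.xi ⁻¹ᵁ O := by
  intro p _
  obtain ⟨q, hq⟩ := C.xi.denseRange.exists_mem_open O.2 ⟨x, hx⟩
  have : p = q := Subsingleton.elim (α := PrimeSpectrum K) _ _
  rw [this]
  exact hq

/-- the value at the generic `K`-point of a section over a nonempty open -/
def vl {O : X.Opens} (h : ⊤ ≤ C.xi ⁻¹ᵁ O) : Γ(X, O) →+* K := secV O C.xi h

theorem vl_inj [IsReduced X] {O : X.Opens} (h : ⊤ ≤ C.xi ⁻¹ᵁ O) {a b : Γ(X, O)}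
    (hab : C.vl h a = C.vl h b) : a = b := secV_inj C.xi h hab

theorem vl_res {O O' : X.Opens} (i : O' ≤ O) (h' : ⊤ ≤ C.xi ⁻¹ᵁ O') (h : ⊤ ≤ C.xi ⁻¹ᵁ O)
    (a : Γ(X, O)) : C.vl h' (resF i a) = C.vl h a := secV_res C.xi i h' h a

theorem le_j (s t : Bool) : ⊤ ≤ (C.j s t) ⁻¹ᵁ C.U s t := fun p _ => ⟨p, trivial, rfl⟩

theorem vl_U (s t : Bool) (a : Γ(X, C.U s t)) :
    C.vl (C.xi_U s t) a = (secV (C.U s t) (C.j s t) (C.le_j s t) a : C.R s t) := by
  unfold vl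
  rw [secV_fac (C.U s t) (algebraMap (C.R s t) K) (C.hj s t).symm (C.le_j s t) (C.xi_U s t)]
  rfl

theorem vl_mem (s t : Bool) (a : Γ(X, C.U s t)) : C.vl (C.xi_U s t) a ∈ C.R s t := by
  rw [C.vl_U]
  exact (secV (C.U s t) (C.j s t) (C.le_j s t) a).2

theorem exists_vl (s t : Bool) {g : K} (hg : g ∈ C.R s t) :
    ∃ a : Γ(X, C.U s t), C.vl (C.xi_U s t) a = g := by
  obtain ⟨a, ha⟩ : ∃ a : Γ(X, C.U s t),
      secV (C.U s t) (C.j s t) (C.le_j s t) a = (⟨g, hg⟩ : C.R s t) :=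
    secV_surj' (C.j s t) (C.le_j s t) ⟨g, hg⟩
  refine ⟨a, ?_⟩
  rw [C.vl_U]
  exact congrArg Subtype.val ha

/-- Sections of the chart are the elements of the chart ring. -/
theorem exists_vl_iff (s t : Bool) (g : K) :
    (∃ a : Γ(X, C.U s t), C.vl (C.xi_U s t) a = g) ↔ g ∈ C.R s t := by
  constructor
  · rintro ⟨a, rfl⟩
    exact C.vl_mem s t a
  · exact C.exists_vl s t

/-- The points of a chart where a section with value `g` is invertible. -/
theorem mem_basicOpen_j [IsReduced X] (s t : Bool) {O : X.Opens} (h : ⊤ ≤ C.xi ⁻¹ᵁ O) (b : Γ(X, O))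
    {g : K} (hg : g ∈ C.R s t) (hb : C.vl h b = g) (p : PrimeSpectrum (C.R s t))
    (hp : C.j s t p ∈ O) :
    C.j s t p ∈ X.basicOpen b ↔ (⟨g, hg⟩ : C.R s t) ∉ p.asIdeal := by
  obtain ⟨a, ha⟩ := C.exists_vl s t hg
  have hx : ⊤ ≤ C.xi ⁻¹ᵁ (O ⊓ C.U s t) := fun p hp => ⟨h hp, C.xi_U s t hp⟩
  have e1 : resF (inf_le_left : O ⊓ C.U s t ≤ O) b = resF inf_le_right a := by
    apply C.vl_inj hx
    rw [C.vl_res _ hx h, C.vl_res _ hx (C.xi_U s t), hb, ha]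
  have hpU : C.j s t p ∈ C.U s t := ⟨p, trivial, rfl⟩
  have e2 : X.basicOpen (resF (inf_le_left : O ⊓ C.U s t ≤ O) b) =
      (O ⊓ C.U s t) ⊓ X.basicOpen b := X.basicOpen_res b (homOfLE inf_le_left).op
  have e3 : X.basicOpen (resF (inf_le_right : O ⊓ C.U s t ≤ C.U s t) a) =
      (O ⊓ C.U s t) ⊓ X.basicOpen a := X.basicOpen_res a (homOfLE inf_le_right).op
  have e4 : C.j s t p ∈ X.basicOpen b ↔ C.j s t p ∈ X.basicOpen a := by
    constructor
    · intro hb'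
      have : C.j s t p ∈ (O ⊓ C.U s t) ⊓ X.basicOpen b := ⟨⟨hp, hpU⟩, hb'⟩
      rw [← e2, e1, e3] at this
      exact this.2
    · intro ha'
      have : C.j s t p ∈ (O ⊓ C.U s t) ⊓ X.basicOpen a := ⟨⟨hp, hpU⟩, ha'⟩
      rw [← e3, ← e1, e2] at this
      exact this.2
  rw [e4, mem_basicOpen_iff (C.j s t) (C.U s t) (C.le_j s t) a p]
  have e5 : secV (C.U s t) (C.j s t) (C.le_j s t) a = (⟨g, hg⟩ : C.R s t) := by
    apply Subtype.ext
    rw [← C.vl_U, ha]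
  rw [e5]

section

variable [IsReduced X] [IsSeparated f]

/-- A point of `U s t` where `B^±1` is invertible lies in `U (!s) t`. -/
theorem mem_not_B (s t : Bool) {O : X.Opens} (h : ⊤ ≤ C.xi ⁻¹ᵁ O) (b : Γ(X, O))
    (hb : C.vl h b = pw C.B s) (x : X) (hx : x ∈ C.U s t) (hxb : x ∈ X.basicOpen b) :
    x ∈ C.U (!s) t := by
  obtain ⟨p, rfl⟩ := (C.mem_U_iff s t x).mp hx
  have h1 := (C.mem_basicOpen_j s t h b (C.memB s t) hb p (X.basicOpen_le b hxb)).mp hxb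
  rw [mem_U_iff]
  exact mem_range_of_basicOpen C.xi f (C.R s t) (C.R (!s) t) (C.j s t) (C.j (!s) t)
    (C.hj s t) (C.hj (!s) t) (C.hf s t) (C.hf (!s) t) (pw C.B s) (C.memB s t) (pw_ne C.B_ne s)
    (C.locB s t) p h1

theorem mem_not_Z (s t : Bool) {O : X.Opens} (h : ⊤ ≤ C.xi ⁻¹ᵁ O) (b : Γ(X, O))
    (hb : C.vl h b = pw C.Z t) (x : X) (hx : x ∈ C.U s t) (hxb : x ∈ X.basicOpen b) :
    x ∈ C.U s (!t) := by
  obtain ⟨p, rfl⟩ := (C.mem_U_iff s t x).mp hx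
  have h1 := (C.mem_basicOpen_j s t h b (C.memZ s t) hb p (X.basicOpen_le b hxb)).mp hxb
  rw [mem_U_iff]
  exact mem_range_of_basicOpen C.xi f (C.R s t) (C.R s (!t)) (C.j s t) (C.j s (!t))
    (C.hj s t) (C.hj s (!t)) (C.hf s t) (C.hf s (!t)) (pw C.Z t) (C.memZ s t) (pw_ne C.Z_ne t)
    (C.locZ s t) p h1

omit [IsSeparated f] in
/-- Two sections with inverse values are invertible at the common points. -/
theorem mem_basicOpen_of_mul {O O' : X.Opens} (h : ⊤ ≤ C.xi ⁻¹ᵁ O) (h' : ⊤ ≤ C.xi ⁻¹ᵁ O')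
    (b : Γ(X, O)) (b' : Γ(X, O')) (hbb : C.vl h b * C.vl h' b' = 1) (x : X) (hx : x ∈ O)
    (hx' : x ∈ O') : x ∈ X.basicOpen b := by
  have hxi : ⊤ ≤ C.xi ⁻¹ᵁ (O ⊓ O') := fun p hp => ⟨h hp, h' hp⟩
  have e1 : resF (inf_le_left : O ⊓ O' ≤ O) b * resF (inf_le_right : O ⊓ O' ≤ O') b' = 1 := by
    apply C.vl_inj hxi
    rw [map_mul, C.vl_res _ hxi h, C.vl_res _ hxi h', hbb, map_one]
  have e2 : IsUnit (resF (inf_le_left : O ⊓ O' ≤ O) b) := IsUnit.of_mul_eq_one _ e1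
  have e3 : X.basicOpen (resF (inf_le_left : O ⊓ O' ≤ O) b) = O ⊓ O' :=
    X.basicOpen_of_isUnit e2
  have e4 : X.basicOpen (resF (inf_le_left : O ⊓ O' ≤ O) b) = (O ⊓ O') ⊓ X.basicOpen b :=
    X.basicOpen_res b (homOfLE inf_le_left).op
  have e5 : x ∈ (O ⊓ O') ⊓ X.basicOpen b := by
    rw [← e4, e3]
    exact ⟨hx, hx'⟩
  exact e5.2

/-- Rectangle property. -/
theorem mem_of_mem_mem (s t : Bool) (x : X) (h1 : x ∈ C.U s (!t)) (h2 : x ∈ C.U (!s) t) :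
    x ∈ C.U s t := by
  obtain ⟨b, hb⟩ := C.exists_vl s (!t) (C.memB s (!t))
  obtain ⟨b', hb'⟩ := C.exists_vl (!s) t (C.memB (!s) t)
  have h3 : x ∈ X.basicOpen b' := by
    refine C.mem_basicOpen_of_mul (C.xi_U _ _) (C.xi_U _ _) b' b ?_ x h2 h1
    rw [hb, hb', mul_comm, pw_mul_not C.B_ne]
  have h4 := C.mem_not_B (!s) t (C.xi_U (!s) t) b' hb' x h2 h3
  rwa [Bool.not_not] at h4

/-- **`V s ∩ W t = U s t`.** -/
theorem V_inf_W (s t : Bool) : C.V s ⊓ C.W t = C.U s t := by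
  apply le_antisymm
  · rintro x ⟨hx1, hx2⟩
    obtain ⟨t', h1⟩ := (C.mem_V_iff s x).mp hx1
    obtain ⟨s', h2⟩ := (C.mem_W_iff t x).mp hx2
    by_cases ht : t' = t
    · rwa [ht] at h1
    by_cases hs : s' = s
    · rwa [hs] at h2
    have ht' : t' = !t := by cases t <;> cases t' <;> simp_all
    have hs' : s' = !s := by cases s <;> cases s' <;> simp_all
    rw [ht'] at h1
    rw [hs'] at h2
    exact C.mem_of_mem_mem s t x h1 h2
  · exact le_inf (C.U_le_V s t) (C.U_le_W s t)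

theorem V_sup : C.V false ⊔ C.V true = ⊤ := by
  rw [eq_top_iff]
  intro x _
  obtain ⟨s, t, h⟩ := C.exists_mem_U x
  cases s
  · exact Or.inl (C.U_le_V _ _ h)
  · exact Or.inr (C.U_le_V _ _ h)

theorem W_sup : C.W false ⊔ C.W true = ⊤ := by
  rw [eq_top_iff]
  intro x _
  obtain ⟨s, t, h⟩ := C.exists_mem_U x
  cases t
  · exact Or.inl (C.U_le_W _ _ h)
  · exact Or.inr (C.U_le_W _ _ h)

end

section glue

variable [IsReduced X]

/-- Gluing two sections with the same value. -/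
theorem exists_sup {O O' : X.Opens} (h : ⊤ ≤ C.xi ⁻¹ᵁ O) (h' : ⊤ ≤ C.xi ⁻¹ᵁ O') (b : Γ(X, O))
    (b' : Γ(X, O')) (hbb : C.vl h b = C.vl h' b') (hs : ⊤ ≤ C.xi ⁻¹ᵁ (O ⊔ O')) :
    ∃ c : Γ(X, O ⊔ O'), C.vl hs c = C.vl h b := by
  let F : Bool → X.Opens := fun i => bif i then O else O'
  let sc : ∀ i, Γ(X, F i) := fun i => match i with
    | true => b
    | false => b'
  have hF : ∀ i, ⊤ ≤ C.xi ⁻¹ᵁ F i := by
    intro i
    cases i
    · exact h'
    · exact h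
  have hv : ∀ i, C.vl (hF i) (sc i) = C.vl h b := by
    intro i
    cases i
    · exact hbb.symm
    · rfl
  have hcomp : TopCat.Presheaf.IsCompatible X.sheaf.1 F sc := by
    intro i k
    have hab : ⊤ ≤ C.xi ⁻¹ᵁ (F i ⊓ F k) := fun p hp => ⟨hF i hp, hF k hp⟩
    apply C.vl_inj hab
    exact ((C.vl_res _ hab (hF i) (sc i)).trans (hv i)).trans
      ((C.vl_res _ hab (hF k) (sc k)).trans (hv k)).symm
  have hle : ∀ i, F i ≤ O ⊔ O' := by
    intro i
    cases i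
    · exact le_sup_right
    · exact le_sup_left
  have hcov : O ⊔ O' ≤ iSup F := by
    apply sup_le
    · exact le_iSup F true
    · exact le_iSup F false
  obtain ⟨c, hc, -⟩ := X.sheaf.existsUnique_gluing' F (O ⊔ O') (fun i => homOfLE (hle i)) hcov sc
    hcomp
  refine ⟨c, ?_⟩
  have h1 := C.vl_res (hle true) (hF true) hs c
  have h2 : resF (hle true) c = sc true := hc true
  rw [h2, hv true] at h1
  exact h1.symm

theorem xi_V (s : Bool) : ⊤ ≤ C.xi ⁻¹ᵁ C.V s := fun p hp => C.U_le_V s false (C.xi_U s false hp)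

theorem xi_W (t : Bool) : ⊤ ≤ C.xi ⁻¹ᵁ C.W t := fun p hp => C.U_le_W false t (C.xi_U false t hp)

theorem exists_b (s : Bool) : ∃ b : Γ(X, C.V s), C.vl (C.xi_V s) b = pw C.B s := by
  obtain ⟨b, hb⟩ := C.exists_vl s false (C.memB s false)
  obtain ⟨b', hb'⟩ := C.exists_vl s true (C.memB s true)
  obtain ⟨c, hc⟩ := C.exists_sup (C.xi_U s false) (C.xi_U s true) b b' (by rw [hb, hb'])
    (C.xi_V s)
  exact ⟨c, hc.trans hb⟩

theorem exists_z (t : Bool) : ∃ z : Γ(X, C.W t), C.vl (C.xi_W t) z = pw C.Z t := by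
  obtain ⟨b, hb⟩ := C.exists_vl false t (C.memZ false t)
  obtain ⟨b', hb'⟩ := C.exists_vl true t (C.memZ true t)
  obtain ⟨c, hc⟩ := C.exists_sup (C.xi_U false t) (C.xi_U true t) b b' (by rw [hb, hb'])
    (C.xi_W t)
  exact ⟨c, hc.trans hb⟩

/-- the first coordinate -/
def b (s : Bool) : Γ(X, C.V s) := (C.exists_b s).choose

theorem vl_b (s : Bool) : C.vl (C.xi_V s) (C.b s) = pw C.B s := (C.exists_b s).choose_spec

/-- the second coordinate -/
def z (t : Bool) : Γ(X, C.W t) := (C.exists_z t).choose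

theorem vl_z (t : Bool) : C.vl (C.xi_W t) (C.z t) = pw C.Z t := (C.exists_z t).choose_spec

theorem bb : resF (inf_le_left : C.V false ⊓ C.V true ≤ C.V false) (C.b false) *
    resF (inf_le_right : C.V false ⊓ C.V true ≤ C.V true) (C.b true) = 1 := by
  have hxi : ⊤ ≤ C.xi ⁻¹ᵁ (C.V false ⊓ C.V true) := fun p hp => ⟨C.xi_V false hp, C.xi_V true hp⟩
  apply C.vl_inj hxi
  rw [map_mul, C.vl_res _ hxi (C.xi_V false), C.vl_res _ hxi (C.xi_V true), vl_b, vl_b, map_one]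
  exact pw_mul_not C.B_ne false

theorem zz : resF (inf_le_left : C.W false ⊓ C.W true ≤ C.W false) (C.z false) *
    resF (inf_le_right : C.W false ⊓ C.W true ≤ C.W true) (C.z true) = 1 := by
  have hxi : ⊤ ≤ C.xi ⁻¹ᵁ (C.W false ⊓ C.W true) := fun p hp => ⟨C.xi_W false hp, C.xi_W true hp⟩
  apply C.vl_inj hxi
  rw [map_mul, C.vl_res _ hxi (C.xi_W false), C.vl_res _ hxi (C.xi_W true), vl_z, vl_z, map_one]
  exact pw_mul_not C.Z_ne false

variable [IsSeparated f]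

theorem basicOpen_b (s : Bool) : X.basicOpen (C.b s) = C.V false ⊓ C.V true := by
  have key : ∀ x : X, x ∈ X.basicOpen (C.b s) → x ∈ C.V s ∧ x ∈ C.V (!s) := by
    intro x hx
    have h1 := X.basicOpen_le (C.b s) hx
    obtain ⟨t, ht⟩ := (C.mem_V_iff s x).mp h1
    exact ⟨h1, C.U_le_V _ t (C.mem_not_B s t (C.xi_V s) (C.b s) (C.vl_b s) x ht hx)⟩
  have key2 : ∀ x : X, x ∈ C.V s → x ∈ C.V (!s) → x ∈ X.basicOpen (C.b s) := by
    intro x h1 h2
    refine C.mem_basicOpen_of_mul (C.xi_V s) (C.xi_V (!s)) (C.b s) (C.b (!s)) ?_ x h1 h2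
    rw [vl_b, vl_b, pw_mul_not C.B_ne]
  apply le_antisymm
  · intro x hx
    obtain ⟨h1, h2⟩ := key x hx
    cases s
    · exact ⟨h1, h2⟩
    · exact ⟨h2, h1⟩
  · rintro x ⟨h1, h2⟩
    cases s
    · exact key2 x h1 h2
    · exact key2 x h2 h1

theorem basicOpen_z (t : Bool) : X.basicOpen (C.z t) = C.W false ⊓ C.W true := by
  have key : ∀ x : X, x ∈ X.basicOpen (C.z t) → x ∈ C.W t ∧ x ∈ C.W (!t) := by
    intro x hx
    have h1 := X.basicOpen_le (C.z t) hx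
    obtain ⟨s, hs⟩ := (C.mem_W_iff t x).mp h1
    exact ⟨h1, C.U_le_W s _ (C.mem_not_Z s t (C.xi_W t) (C.z t) (C.vl_z t) x hs hx)⟩
  have key2 : ∀ x : X, x ∈ C.W t → x ∈ C.W (!t) → x ∈ X.basicOpen (C.z t) := by
    intro x h1 h2
    refine C.mem_basicOpen_of_mul (C.xi_W t) (C.xi_W (!t)) (C.z t) (C.z (!t)) ?_ x h1 h2
    rw [vl_z, vl_z, pw_mul_not C.Z_ne]
  apply le_antisymm
  · intro x hx
    obtain ⟨h1, h2⟩ := key x hx
    cases t
    · exact ⟨h1, h2⟩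
    · exact ⟨h2, h1⟩
  · rintro x ⟨h1, h2⟩
    cases t
    · exact key2 x h1 h2
    · exact key2 x h2 h1

end glue

end FC

end

end M21.S4
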