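import Pool.Agent.H.MP_21b43d_ag.E3.S4.Bip2

/-!
# M21, stage 4: charts in a field, part 3: the morphism of two schemes with charts in the same field
-/

set_option autoImplicit false
set_option linter.all false

open CategoryTheory CategoryTheory.Limits AlgebraicGeometry TopologicalSpace

namespace M21.S4

open M21X M21.XP

noncomputable section

theorem isDominant_of_comp {P X T : Scheme.{0}} (i : P ⟶ X) [IsOpenImmersion i] (l : T ⟶ P)
    [IsDominant (l ≫ i)] : IsDominant l := by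
  constructor
  rw [DenseRange, dense_iff_inter_open]
  intro O hO hne
  have h1 : IsOpen (i '' O) := i.isOpenEmbedding.isOpenMap O hO
  have h2 : (i '' O).Nonempty := hne.image _
  obtain ⟨q, hq⟩ := (l ≫ i).denseRange.exists_mem_open h1 h2
  obtain ⟨o, ho, hoq⟩ := hq
  have h3 : i o = i (l q) := hoq
  have h4 : o = l q := i.isOpenEmbedding.injective h3
  exact ⟨o, ho, q, h4.symm⟩

namespace FC

variable {X : Scheme.{0}} {f : X ⟶ Spec (.of ℂ)} {K : Type} [Field K] [Algebra ℂ K] (C : FC X f K)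

/-- the affine open cover by the four charts -/
def cover : X.AffineOpenCover where
  I₀ := Bool × Bool
  X i := .of (C.R i.1 i.2)
  f i := C.j i.1 i.2
  idx x := ((C.exists_mem_U x).choose, (C.exists_mem_U x).choose_spec.choose)
  covers x := by
    obtain ⟨p, -, hp⟩ := (C.exists_mem_U x).choose_spec.choose_spec
    exact ⟨p, hp⟩

variable {Y : Scheme.{0}} {g : Y ⟶ Spec (.of ℂ)} (D : FC Y g K)
  (hR : ∀ s t, D.R s t ≤ C.R s t)

/-- the morphism on a chart -/
def mor (i : Bool × Bool) : Spec (.of (C.R i.1 i.2)) ⟶ Y :=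
  Spec.map (CommRingCat.ofHom (Subalgebra.inclusion (hR i.1 i.2)).toRingHom) ≫ D.j i.1 i.2

theorem xi_mor (i : Bool × Bool) :
    Spec.map (CommRingCat.ofHom (algebraMap (C.R i.1 i.2) K)) ≫ C.mor D hR i = D.xi := by
  rw [mor, ← Category.assoc, ← Spec.map_comp]
  exact D.hj i.1 i.2

theorem mor_g (i : Bool × Bool) :
    C.mor D hR i ≫ g = Spec.map (CommRingCat.ofHom (algebraMap ℂ (C.R i.1 i.2))) := by
  rw [mor, Category.assoc, D.hf, ← Spec.map_comp]
  rfl

theorem mor_comp [IsReduced X] [IsSeparated g] (i k : Bool × Bool) :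
    pullback.fst (C.j i.1 i.2) (C.j k.1 k.2) ≫ C.mor D hR i =
      pullback.snd (C.j i.1 i.2) (C.j k.1 k.2) ≫ C.mor D hR k := by
  let l : Spec (.of K) ⟶ pullback (C.j i.1 i.2) (C.j k.1 k.2) :=
    pullback.lift (Spec.map (CommRingCat.ofHom (algebraMap (C.R i.1 i.2) K)))
      (Spec.map (CommRingCat.ofHom (algebraMap (C.R k.1 k.2) K)))
      ((C.hj i.1 i.2).trans (C.hj k.1 k.2).symm)
  have h1 : l ≫ pullback.fst (C.j i.1 i.2) (C.j k.1 k.2) =
      Spec.map (CommRingCat.ofHom (algebraMap (C.R i.1 i.2) K)) := pullback.lift_fst _ _ _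
  have h2 : l ≫ pullback.snd (C.j i.1 i.2) (C.j k.1 k.2) =
      Spec.map (CommRingCat.ofHom (algebraMap (C.R k.1 k.2) K)) := pullback.lift_snd _ _ _
  have hred : IsReduced (pullback (C.j i.1 i.2) (C.j k.1 k.2)) :=
    isReduced_of_isOpenImmersion (pullback.fst (C.j i.1 i.2) (C.j k.1 k.2) ≫ C.j i.1 i.2)
  have hd0 : IsDominant (l ≫ (pullback.fst (C.j i.1 i.2) (C.j k.1 k.2) ≫ C.j i.1 i.2)) := by
    rw [← Category.assoc, h1, C.hj]
    infer_instance
  have hd : IsDominant l :=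
    isDominant_of_comp (pullback.fst (C.j i.1 i.2) (C.j k.1 k.2) ≫ C.j i.1 i.2) l
  apply ext_of_isDominant_of_isSeparated g (ι := l)
  · rw [Category.assoc, Category.assoc, mor_g, mor_g, ← C.hf, ← C.hf, ← Category.assoc,
      pullback.condition, Category.assoc]
  · rw [← Category.assoc, ← Category.assoc, h1, h2, xi_mor, xi_mor]

variable [IsReduced X] [IsSeparated g]

/-- **The morphism.** -/
def pi : X ⟶ Y := C.cover.openCover.glueMorphisms (C.mor D hR) (C.mor_comp D hR)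

theorem j_pi (s t : Bool) : C.j s t ≫ C.pi D hR =
    Spec.map (CommRingCat.ofHom (Subalgebra.inclusion (hR s t)).toRingHom) ≫ D.j s t :=
  Scheme.Cover.ι_glueMorphisms C.cover.openCover (C.mor D hR) (C.mor_comp D hR) (s, t)

theorem xi_pi : C.xi ≫ C.pi D hR = D.xi := by
  rw [← C.hj false false, Category.assoc, j_pi]
  exact C.xi_mor D hR (false, false)

theorem pi_g : C.pi D hR ≫ g = f := by
  apply C.cover.openCover.hom_ext
  intro i
  show C.j i.1 i.2 ≫ C.pi D hR ≫ g = C.j i.1 i.2 ≫ f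
  rw [← Category.assoc, j_pi, Category.assoc, D.hf, C.hf, ← Spec.map_comp]
  rfl

/-- values of pulled back functions -/
theorem vl_pi {O : Y.Opens} (h : ⊤ ≤ D.xi ⁻¹ᵁ O) (h' : ⊤ ≤ C.xi ⁻¹ᵁ (C.pi D hR ⁻¹ᵁ O))
    (a : Γ(Y, O)) : C.vl h' ((C.pi D hR).app O a) = D.vl h a := by
  have h1 : ⊤ ≤ (C.xi ≫ C.pi D hR) ⁻¹ᵁ O := h'
  have h2 := secV_app (C.pi D hR) C.xi O h' h1 a
  have h3 := secV_congr O (C.xi_pi D hR) h1 h
  unfold vl
  rw [← h2, h3]

theorem U_le_preimage (s t : Bool) : C.U s t ≤ C.pi D hR ⁻¹ᵁ D.U s t := by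
  intro x hx
  obtain ⟨p, rfl⟩ := (C.mem_U_iff s t x).mp hx
  show C.pi D hR (C.j s t p) ∈ D.U s t
  have h1 := congrArg (fun m : Spec (.of (C.R s t)) ⟶ Y => m p) (C.j_pi D hR s t)
  have h2 : C.pi D hR (C.j s t p) = D.j s t
    (Spec.map (CommRingCat.ofHom (Subalgebra.inclusion (hR s t)).toRingHom) p) := h1
  rw [h2]
  exact ⟨_, trivial, rfl⟩

variable [IsReduced Y] [IsSeparated f] (eB : D.B = C.B) (eZ : D.Z = C.Z)

include eB eZ in
/-- **The preimages of the charts.** -/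
theorem preimage_U (s t : Bool) : C.pi D hR ⁻¹ᵁ D.U s t = C.U s t := by
  apply le_antisymm _ (C.U_le_preimage D hR s t)
  intro x hx
  have hx' : C.pi D hR x ∈ D.U s t := hx
  have hxV : ∀ s' : Bool, ⊤ ≤ C.xi ⁻¹ᵁ (C.pi D hR ⁻¹ᵁ D.V s') := by
    intro s'
    have h1 : ⊤ ≤ (C.xi ≫ C.pi D hR) ⁻¹ᵁ D.V s' := by
      rw [C.xi_pi D hR]
      exact D.xi_V s'
    exact h1
  have hxW : ∀ t' : Bool, ⊤ ≤ C.xi ⁻¹ᵁ (C.pi D hR ⁻¹ᵁ D.W t') := by
    intro t'
    have h1 : ⊤ ≤ (C.xi ≫ C.pi D hR) ⁻¹ᵁ D.W t' := by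
      rw [C.xi_pi D hR]
      exact D.xi_W t'
    exact h1
  have stepB : ∀ s' t', x ∈ C.U s' t' → x ∈ C.U s t' := by
    intro s' t' hst
    by_cases hs : s' = s
    · rwa [hs] at hst
    have hs' : s = !s' := by cases s <;> cases s' <;> simp_all
    have h1 : C.pi D hR x ∈ D.V s' := D.U_le_V s' t' (C.U_le_preimage D hR s' t' hst)
    have h2 : C.pi D hR x ∈ D.V s := D.U_le_V s t hx'
    have h3 : C.pi D hR x ∈ Y.basicOpen (D.b s') := by
      refine D.mem_basicOpen_of_mul (D.xi_V s') (D.xi_V s) (D.b s') (D.b s) ?_ _ h1 h2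
      rw [D.vl_b, D.vl_b, hs', pw_mul_not D.B_ne]
    have h4 : x ∈ X.basicOpen ((C.pi D hR).app _ (D.b s')) := by
      rw [← Scheme.preimage_basicOpen]
      exact h3
    have h5 := C.mem_not_B s' t' (hxV s') _ (by
      rw [C.vl_pi D hR (D.xi_V s') (hxV s'), D.vl_b, eB]) x hst h4
    rwa [← hs'] at h5
  have stepZ : ∀ s' t', x ∈ C.U s' t' → x ∈ C.U s' t := by
    intro s' t' hst
    by_cases ht : t' = t
    · rwa [ht] at hst
    have ht' : t = !t' := by cases t <;> cases t' <;> simp_all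
    have h1 : C.pi D hR x ∈ D.W t' := D.U_le_W s' t' (C.U_le_preimage D hR s' t' hst)
    have h2 : C.pi D hR x ∈ D.W t := D.U_le_W s t hx'
    have h3 : C.pi D hR x ∈ Y.basicOpen (D.z t') := by
      refine D.mem_basicOpen_of_mul (D.xi_W t') (D.xi_W t) (D.z t') (D.z t) ?_ _ h1 h2
      rw [D.vl_z, D.vl_z, ht', pw_mul_not D.Z_ne]
    have h4 : x ∈ X.basicOpen ((C.pi D hR).app _ (D.z t')) := by
      rw [← Scheme.preimage_basicOpen]
      exact h3
    have h5 := C.mem_not_Z s' t' (hxW t') _ (by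
      rw [C.vl_pi D hR (D.xi_W t') (hxW t'), D.vl_z, eZ]) x hst h4
    rwa [← ht'] at h5
  obtain ⟨s', t', hst⟩ := C.exists_mem_U x
  exact stepZ s t' (stepB s' t' hst)

end FC

end

end M21.S4
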