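import Pool.Agent.H.MP_21b43d_ag.E3.S4.Bip3
import Pool.Agent.H.MP_21b43d_ag.E3.G.Geo2
import Pool.Agent.H.MP_21b43d_ag.E3.G.Split

/-!
# M21, stage 4: charts in a field, part 4: the structure `BiP`, the function field in `K`
-/

set_option autoImplicit false
set_option linter.all false

open CategoryTheory CategoryTheory.Limits AlgebraicGeometry TopologicalSpace Opposite

namespace M21.S4

open M21X M21.XP M21.E3

noncomputable section

namespace FC

variable {X : Scheme.{0}} {f : X ⟶ Spec (.of ℂ)} {K : Type} [Field K] [Algebra ℂ K] (C : FC X f K)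

/-- the image of the `K`-point -/
def pt0 : X := C.xi (IsLocalRing.closedPoint K : PrimeSpectrum K)

theorem pt0_mem {O : X.Opens} (h : ⊤ ≤ C.xi ⁻¹ᵁ O) : C.pt0 ∈ O := h (Set.mem_univ _)

/-- **The double cover.** -/
def bip [IsReduced X] [IsSeparated f] : BiP X where
  V := C.V
  W := C.W
  hV := C.V_sup
  hW := C.W_sup
  aff s t := by
    rw [C.V_inf_W]
    exact C.aff_U s t
  b := C.b
  z := C.z
  hb := C.basicOpen_b
  hz := C.basicOpen_z
  bb := C.bb
  zz := C.zz
  pt := C.pt0
  pt_mem := ⟨⟨C.pt0_mem (C.xi_V false), C.pt0_mem (C.xi_V true)⟩,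
    ⟨C.pt0_mem (C.xi_W false), C.pt0_mem (C.xi_W true)⟩⟩

theorem bip_U [IsReduced X] [IsSeparated f] (s t : Bool) : C.bip.U s t = C.U s t := C.V_inf_W s t

section field

variable [IsIntegral X]

/-- the function field in `K` (as a morphism) -/
def kapHom : X.presheaf.stalk (genericPoint X) ⟶ CommRingCat.of K :=
  colimit.desc ((OpenNhds.inclusion (genericPoint X)).op ⋙ X.presheaf)
    { pt := CommRingCat.of K
      ι :=
        { app := fun O => CommRingCat.ofHom (C.vl (C.xi_of_mem O.unop.2))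
          naturality := by
            intro O O' i
            ext a
            exact C.vl_res (leOfHom i.unop) (C.xi_of_mem O'.unop.2) (C.xi_of_mem O.unop.2) a } }

/-- **The function field in `K`.** -/
def kap : X.functionField →+* K := C.kapHom.hom

theorem kap_toK {O : X.Opens} {p : X} (hp : p ∈ O) (h : ⊤ ≤ C.xi ⁻¹ᵁ O) (a : Γ(X, O)) :
    C.kap (toK hp a) = C.vl h a := by
  have hg : genericPoint X ∈ O :=
    ((genericPoint_spec X).mem_open_set_iff O.2).mpr ⟨p, trivial, hp⟩
  have h1 : X.presheaf.germ O (genericPoint X) hg ≫ C.kapHom =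
      CommRingCat.ofHom (C.vl (C.xi_of_mem hg)) :=
    colimit.ι_desc _ _
  exact congrArg (fun φ => CommRingCat.Hom.hom φ a) h1

theorem kap_injective : Function.Injective C.kap := C.kap.injective

theorem toK_mem {O : X.Opens} {p : X} (hp : p ∈ O) {s t : Bool} (hO : O = C.U s t)
    (a : Γ(X, O)) : C.kap (toK hp a) ∈ C.R s t := by
  subst hO
  rw [C.kap_toK hp (C.xi_U s t)]
  exact C.vl_mem s t a

/-- Elements of the chart rings come from the function field. -/
theorem exists_kap (s t : Bool) {g : K} (hg : g ∈ C.R s t) : ∃ x : X.functionField, C.kap x = g := by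
  obtain ⟨a, ha⟩ := C.exists_vl s t hg
  exact ⟨toK (C.pt0_mem (C.xi_U s t)) a, by rw [C.kap_toK _ (C.xi_U s t), ha]⟩

/-- An element of the function field is regular on `U s t` iff it lies in the chart ring. -/
theorem reg_iff (s t : Bool) (x : X.functionField) :
    (∀ p ∈ C.U s t, Reg p x) ↔ C.kap x ∈ C.R s t := by
  constructor
  · intro h
    obtain ⟨a, ha⟩ := exists_of_reg (C.pt0_mem (C.xi_U s t)) x h
    rw [← ha]
    exact C.toK_mem _ rfl a
  · intro h p hp
    obtain ⟨a, ha⟩ := C.exists_vl s t h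
    refine ⟨C.U s t, hp, a, ?_⟩
    apply C.kap_injective
    rw [C.kap_toK hp (C.xi_U s t), ha]

end field

section complex

variable [IsIntegral X] [IsSeparated f]

theorem kap_B : C.kap C.bip.B = C.B := by
  exact (C.kap_toK (O := C.V false) C.bip.pt_mem.1.1 (C.xi_V false) (C.b false)).trans
    (C.vl_b false)

theorem kap_Z : C.kap C.bip.Z = C.Z := by
  exact (C.kap_toK (O := C.W false) C.bip.pt_mem.2.1 (C.xi_W false) (C.z false)).trans
    (C.vl_z false)

end complex

/-- the structure morphism as a class -/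
@[reducible] def cx (f : X ⟶ Spec (.of ℂ)) : CX X := ⟨f⟩

section alg

variable [IsIntegral X]

/-- constants in `K` -/
theorem vl_cmap {O : X.Opens} (h : ⊤ ≤ C.xi ⁻¹ᵁ O) (c : ℂ) :
    letI := cx f
    C.vl h (cr O c) = algebraMap ℂ K c := by
  letI := cx f
  have hxi : C.xi ≫ f = Spec.map (CommRingCat.ofHom (algebraMap ℂ K)) := by
    rw [← C.hj false false, Category.assoc, C.hf, ← Spec.map_comp]
    rfl
  have e0 : C.vl h (cr O c) = C.vl le_top (cmap f c) :=
    C.vl_res le_top h le_top (cmap f c)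
  rw [e0]
  have h1 := secV_app f C.xi ⊤ le_top le_top ((Scheme.ΓSpecIso (.of ℂ)).inv c)
  have h2 := secV_fac (h := 𝟙 (Spec (.of ℂ))) (h' := C.xi ≫ f) ⊤ (algebraMap ℂ K)
    (by rw [hxi, Category.comp_id]) le_top le_top
  rw [h2] at h1
  have h3 : secV ⊤ (𝟙 (Spec (.of ℂ))) le_top ((Scheme.ΓSpecIso (.of ℂ)).inv c) = c := by
    have : (𝟙 (Spec (.of ℂ)) : Spec (.of ℂ) ⟶ Spec (.of ℂ)).appLE ⊤ ⊤ le_top = 𝟙 _ := by
      simp [Scheme.Hom.appLE]
    unfold secV
    rw [this, Category.id_comp]
    exact congrArg (fun φ => CommRingCat.Hom.hom φ c) (Scheme.ΓSpecIso (.of ℂ)).inv_hom_id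
  refine (Eq.trans ?_ h1.symm).trans ?_
  · rfl
  · rw [RingHom.comp_apply, h3]

/-- the function field in `K`, as an algebra homomorphism -/
def kapA : letI := cx f
    X.functionField →ₐ[ℂ] K :=
  letI := cx f
  { C.kap with
    commutes' := by
      intro c
      have h := C.vl_cmap (O := ⊤) le_top c
      exact (C.kap_toK (O := ⊤) (p := genericPoint X) trivial le_top (cr ⊤ c)).trans h }

end alg

end FC

end

end M21.S4
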