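import Pool.Agent.H.MP_21b43d_ag.E3.S4.TwA

/-!
# M21, existence part, S4-F4: the classes `T` and `F` and families of morphisms
-/

open CategoryTheory CategoryTheory.Limits

universe v u

noncomputable section

namespace M21.E3

namespace RDX

variable {𝒟 : Type u} [Category.{v} 𝒟] [Abelian 𝒟] {V : ObjectProperty 𝒟} (q : RDX V)

/-- An object with a jointly epimorphic family of morphisms from an object of `T` is in `T`. -/
theorem Tc_of_family (hV : WSerre V) {κ : Type} {N L : 𝒟} (hN : q.Tc N) (hL : V L)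
    (e : κ → (N ⟶ L)) (he : ∀ Z, V Z → ∀ f : L ⟶ Z, (∀ k, e k ≫ f = 0) → f = 0) : q.Tc L := by
  obtain ⟨S, hS, rfl, h1, h3⟩ := q.exists_ses hV L hL
  have hg : S.g = 0 := he S.X₃ h3.1.1 S.g (fun k => q.Tc_Fc_zero hV hN h3 _)
  have hm := hS.mono_f
  have he : Epi S.f := hS.exact.epi_f hg
  have hi : IsIso S.f := isIso_of_mono_of_epi _
  exact q.Tc_iso hV (asIso S.f) h1

/-- An object with a jointly monomorphic family of morphisms to an object of `F` is in `F`. -/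
theorem Fc_of_family (hV : WSerre V) {κ : Type} {N L : 𝒟} (hN : q.Fc N) (hL : V L)
    (e : κ → (L ⟶ N)) (he : ∀ Z, V Z → ∀ f : Z ⟶ L, (∀ k, f ≫ e k = 0) → f = 0) : q.Fc L := by
  obtain ⟨S, hS, rfl, h1, h3⟩ := q.exists_ses hV L hL
  have hf : S.f = 0 := he S.X₁ h1.1 S.f (fun k => q.Tc_Fc_zero hV h1 hN _)
  have hm := hS.epi_g
  have he : Mono S.g := hS.exact.mono_g hf
  have hi : IsIso S.g := isIso_of_mono_of_epi _
  exact q.Fc_iso hV (asIso S.g).symm h3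

variable {q} {k : ℤ} {e : 𝒟 ≌ 𝒟}

/-- A family `N ⟶ τ L`, jointly epimorphic, `N ∈ T_l`: then `L ∈ T_{l - k}`. -/
theorem Tws.Tc_of_family (hV : WSerre V) (h : q.Tws k e) {κ : Type} {N L : 𝒟} (hL : V L)
    (f : κ → (N ⟶ e.functor.obj L))
    (hf : ∀ Z, V Z → ∀ g : e.functor.obj L ⟶ Z, (∀ x, f x ≫ g = 0) → g = 0) {l : ℤ}
    (hN : (q.sh l).Tc N) : (q.sh (l - k)).Tc L := by
  have h1 := (q.sh l).Tc_of_family hV hN (h.mem L hL) f hf
  rw [← Tws.Tc_iff hV h, sub_add_cancel]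
  exact h1

/-- A family `L ⟶ τ N`, jointly monomorphic, `N ∈ F_l`: then `L ∈ F_{l + k}`. -/
theorem Tws.Fc_of_family (hV : WSerre V) (h : q.Tws k e) {κ : Type} {N L : 𝒟} (hL : V L)
    (f : κ → (L ⟶ e.functor.obj N))
    (hf : ∀ Z, V Z → ∀ g : Z ⟶ L, (∀ x, g ≫ f x = 0) → g = 0) {l : ℤ}
    (hN : (q.sh l).Fc N) : (q.sh (l + k)).Fc L :=
  (q.sh (l + k)).Fc_of_family hV (Tws.Fc hV h hN) hL f hf

end RDX

end M21.E3
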