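import Pool.Agent.H.MP_21b43d_ag.E3.G.Split

/-!
# M21, existence part, S4-F1: sections of `O(c,c)` generating the functions on all charts

`S` a split basis of `O_X`. For `c` large the `B^(tw i (a_l + c)) Z^(tw j (b_l + c)) e_l`
(`l ∈ ι`, `i, j ∈ {0,1}`) are sections of `O(c,c)`, and on every chart they generate the functions
over `ℂ[b_s, z_t]`.
-/

open CategoryTheory CategoryTheory.Limits AlgebraicGeometry TopologicalSpace

noncomputable section

namespace M21.E3

variable {X : Scheme.{0}} [IsIntegral X] [CX X]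

namespace BiP

variable (G : BiP X)

/-- A finite family of sections of `O(c,c)` (given on the charts) generating the functions on every
chart over the constants and the coordinates. -/
structure Gens (c : ℤ) (κ : Type) where
  /-- the values in the function field -/
  g : κ → X.functionField
  /-- the sections on the charts -/
  γ : κ → ∀ s t, Γ(X, G.U s t)
  val : ∀ (k : κ) (s t : Bool) {p : X} (hp : p ∈ G.U s t),
    toK hp (γ k s t) = G.B ^ (-tw s c) * G.Z ^ (-tw t c) * g k
  gen : ∀ (s t : Bool) (R : Subring Γ(X, G.U s t)), (∀ x : ℂ, cr _ x ∈ R) →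
    G.bc s (inf_le_left : G.U s t ≤ G.V s) ∈ R → G.zc t (inf_le_right : G.U s t ≤ G.W t) ∈ R →
    Submodule.span R (Set.range fun k => γ k s t) = ⊤

variable {G} {ι : Type}

theorem tw_Rg_Fg {c a : ℤ} (h : 0 ≤ a + c) (s i : Bool) : Rg s a (-tw s c + tw i (a + c)) := by
  cases s <;> cases i
  · simp [Rg, tw]
  · simpa [Rg, tw] using h
  · simp only [Rg, tw, if_true, Bool.false_eq_true, if_false]
    omega
  · simp only [Rg, tw, if_true]
    omega

theorem tw_self_Fg (s : Bool) (c a : ℤ) : -tw s c + tw s (a + c) = tw s a := by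
  cases s
  · simp [tw]
  · simp only [tw, if_true]
    omega

/-- Every split basis of `O_X` with `-c ≤ a_l, b_l` gives such a family. -/
theorem Split.gens (S : G.Split (FO X) ι) (c : ℤ) (ha : ∀ l, 0 ≤ S.a l + c)
    (hb : ∀ l, 0 ≤ S.b l + c) : Nonempty (G.Gens c (ι × Bool × Bool)) := by
  classical
  let g : ι × Bool × Bool → X.functionField := fun k =>
    G.B ^ tw k.2.1 (S.a k.1 + c) * G.Z ^ tw k.2.2 (S.b k.1 + c) * S.e k.1
  have hmem : ∀ k s t, G.B ^ (-tw s c) * G.Z ^ (-tw t c) * g k ∈ (FO X).secs (G.U s t) := by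
    rintro ⟨l, i, j⟩ s t
    have h1 := mem_secs_of_Split S s t l (-tw s c + tw i (S.a l + c)) (-tw t c + tw j (S.b l + c))
      (tw_Rg_Fg (ha l) s i) (tw_Rg_Fg (hb l) t j)
    rw [zpow_add₀ G.B_ne, zpow_add₀ G.Z_ne] at h1
    convert h1 using 1
    change _ * (G.B ^ tw i (S.a l + c) * G.Z ^ tw j (S.b l + c) * S.e l) = _
    ring
  have hex : ∀ k s t, ∃ x : Γ(X, G.U s t), toK (G.pt_mem_U s t) x =
      G.B ^ (-tw s c) * G.Z ^ (-tw t c) * g k := fun k s t =>
    exists_of_reg (G.pt_mem_U s t) _ (hmem k s t)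
  choose γ hγ using hex
  refine ⟨⟨g, γ, fun k s t p hp => (congrArg (fun f => f (γ k s t))
    (toK_eq hp (G.pt_mem_U s t))).trans (hγ k s t), fun s t R hC hB hZ => ?_⟩⟩
  rw [eq_top_iff]
  intro a _
  have hpt : G.pt ∈ G.U s t := G.pt_mem_U s t
  have key : ∀ v ∈ G.spanR S.e (fun l p q => Rg s (S.a l) p ∧ Rg t (S.b l) q),
      ∃ y ∈ Submodule.span R (Set.range fun k => γ k s t), toK hpt y = v := by
    intro v hv
    induction hv using Submodule.span_induction with
    | mem v hv =>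
      obtain ⟨l, p, q, ⟨h1, h2⟩, rfl⟩ := hv
      obtain ⟨m, rfl⟩ := exists_nat_Split s _ p h1
      obtain ⟨m', rfl⟩ := exists_nat_Split t _ q h2
      refine ⟨(⟨G.bc s (inf_le_left : G.U s t ≤ G.V s) ^ m *
        G.zc t (inf_le_right : G.U s t ≤ G.W t) ^ m', R.mul_mem (R.pow_mem hB m)
          (R.pow_mem hZ m')⟩ : R) • γ (l, s, t) s t,
        Submodule.smul_mem _ _ (Submodule.subset_span ⟨(l, s, t), rfl⟩), ?_⟩
      rw [Subring.smul_def, smul_eq_mul, map_mul, map_mul, map_pow, map_pow, G.toK_bc, G.toK_zc,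
        hγ]
      change _ * (_ * (G.B ^ tw s (S.a l + c) * G.Z ^ tw t (S.b l + c) * S.e l)) = _
      rw [zpow_add₀ G.B_ne, zpow_add₀ G.Z_ne, zpow_mul, zpow_mul, zpow_natCast, zpow_natCast,
        ← tw_self_Fg s c (S.a l), ← tw_self_Fg t c (S.b l), zpow_add₀ G.B_ne, zpow_add₀ G.Z_ne]
      ring
    | zero => exact ⟨0, Submodule.zero_mem _, map_zero _⟩
    | add u v _ _ hu hv =>
      obtain ⟨y, hy, rfl⟩ := hu
      obtain ⟨z, hz, rfl⟩ := hv
      exact ⟨y + z, Submodule.add_mem _ hy hz, map_add _ y z⟩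
    | smul x v _ hv =>
      obtain ⟨y, hy, rfl⟩ := hv
      refine ⟨(⟨cr _ x, hC x⟩ : R) • y, Submodule.smul_mem _ _ hy, ?_⟩
      rw [Subring.smul_def, smul_eq_mul, map_mul, toK_cr, Algebra.smul_def]
  have hx : toK hpt a ∈ (FO X).secs (G.U s t) := fun q hq => ⟨G.U s t, hq, a, rfl⟩
  rw [S.secs s t] at hx
  obtain ⟨y, hy, hyx⟩ := key _ hx
  rw [← toK_inj hpt hyx]
  exact hy

/-- There are such families. -/
theorem Split.exists_gens [Finite ι] (S : G.Split (FO X) ι) :
    ∃ c : ℕ, Nonempty (G.Gens c (ι × Bool × Bool)) := by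
  classical
  have := Fintype.ofFinite ι
  let c : ℕ := ∑ l, ((S.a l).natAbs + (S.b l).natAbs)
  have hc : ∀ l, (S.a l).natAbs + (S.b l).natAbs ≤ c := fun l =>
    Finset.single_le_sum (f := fun l => (S.a l).natAbs + (S.b l).natAbs)
      (fun _ _ => Nat.zero_le _) (Finset.mem_univ l)
  refine ⟨c, S.gens c (fun l => ?_) (fun l => ?_)⟩
  · have := hc l
    omega
  · have := hc l
    omega

end BiP

end M21.E3
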