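import Pool.Agent.H.MP_21b43d_ag.E3.S4.Push2
import Pool.Agent.H.MP_21b43d_ag.E3.G.Geo3

/-!
# M21, existence part, S4-P, file 3: morphisms `O(-m, -n) → F` and push forward
-/

set_option autoImplicit false

open CategoryTheory CategoryTheory.Limits AlgebraicGeometry TopologicalSpace

noncomputable section

namespace M21.E3

variable {X Q : Scheme.{0}} (π : X ⟶ Q)

namespace BiP

variable (G : BiP Q) (haff : ∀ s t, IsAffineOpen (π ⁻¹ᵁ G.U s t)) (pt : X)
    (hpt : π pt ∈ (G.V false ⊓ G.V true) ⊓ (G.W false ⊓ G.W true))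

theorem pull_U (s t : Bool) : (G.pull π haff pt hpt).U s t = π ⁻¹ᵁ G.U s t := rfl

/-- the action on functions on the overlap of the first cover -/
def fV : Γ(Q, G.V01) →* Γ(X, (G.pull π haff pt hpt).V01) :=
  RingHom.toMonoidHom (π.app G.V01).hom

/-- the action on functions on the overlap of the second cover -/
def fW : Γ(Q, G.W01) →* Γ(X, (G.pull π haff pt hpt).W01) :=
  RingHom.toMonoidHom (π.app G.W01).hom

theorem pull_bU : (G.pull π haff pt hpt).bU = Units.map (fV π G haff pt hpt) G.bU := by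
  ext
  exact (app_resF π (G.V01_le false) (G.b false)).symm

theorem pull_zU : (G.pull π haff pt hpt).zU = Units.map (fW π G haff pt hpt) G.zU := by
  ext
  exact (app_resF π (G.W01_le false) (G.z false)).symm

theorem app_bp (m : ℤ) {U : Q.Opens} (h : U ≤ G.V01) :
    π.app U (G.bp m h) = (G.pull π haff pt hpt).bp m (pre_mono π h) := by
  unfold bp
  rw [app_resF, pull_bU, ← map_zpow]
  rfl

theorem app_zp (n : ℤ) {U : Q.Opens} (h : U ≤ G.W01) :
    π.app U (G.zp n h) = (G.pull π haff pt hpt).zp n (pre_mono π h) := by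
  unfold zp
  rw [app_resF, pull_zU, ← map_zpow]
  rfl

end BiP

section C

variable [CX X] [CX Q] (hC : (CX.f : X ⟶ Spec (.of ℂ)) = π ≫ CX.f)

include hC in
theorem app_cr (U : Q.Opens) (c : ℂ) : π.app U (cr U c) = cr (π ⁻¹ᵁ U) c := by
  change π.app U (resF le_top (cmap CX.f c)) = resF le_top (cmap CX.f c)
  rw [app_resF, hC]
  rfl

include hC in
theorem smul_pushC (F : X.Modules) (U : Q.Opens) (c : ℂ) (s : Γ((PP π).obj F, U)) :
    c • s = c • (show Γ(F, π ⁻¹ᵁ U) from s) := by
  rw [smul_eq_cr, smul_eq_cr, push_smul, app_cr π hC]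

variable (G : BiP Q) (haff : ∀ s t, IsAffineOpen (π ⁻¹ᵁ G.U s t)) (pt : X)
    (hpt : π pt ∈ (G.V false ⊓ G.V true) ⊓ (G.W false ⊓ G.W true)) [IsIntegral X] [IsIntegral Q]

/-- families of sections of a push forward -/
def famPush (F : X.Modules) (m n : ℤ) :
    G.Fam ((PP π).obj F) m n ≃ₗ[ℂ] (G.pull π haff pt hpt).Fam F m n where
  toFun a := ⟨a.1, by
    have h := a.2
    refine ⟨fun t => ?_, fun s => ?_⟩
    · have h1 := h.1 t
      rw [push_smul, BiP.app_bp π G haff pt hpt] at h1
      exact h1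
    · have h1 := h.2 s
      rw [push_smul, BiP.app_zp π G haff pt hpt] at h1
      exact h1⟩
  invFun a := ⟨a.1, by
    have h := a.2
    refine ⟨fun t => ?_, fun s => ?_⟩
    · have h1 := h.1 t
      rw [push_smul, BiP.app_bp π G haff pt hpt]
      exact h1
    · have h1 := h.2 s
      rw [push_smul, BiP.app_zp π G haff pt hpt]
      exact h1⟩
  left_inv a := rfl
  right_inv a := rfl
  map_add' a b := rfl
  map_smul' c a := by
    apply Subtype.ext
    funext s t
    exact smul_pushC π hC F (G.U s t) c (a.1 s t)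

/-- **Morphisms `O(-m, -n) → PF` on `Q` are the morphisms `O(-m, -n) → F` on `X`.** -/
def homPush (F : X.Modules) (m n : ℤ) :
    (G.OO (-m) (-n) ⟶ (PP π).obj F) ≃ₗ[ℂ] ((G.pull π haff pt hpt).OO (-m) (-n) ⟶ F) :=
  (G.famEquiv ((PP π).obj F) m n).trans ((famPush π hC G haff pt hpt F m n).trans
    ((G.pull π haff pt hpt).famEquiv F m n).symm)

/-- The values of the corresponding morphism on the generators. -/
theorem homPush_gen (F : X.Modules) (m n : ℤ) (φ : G.OO (-m) (-n) ⟶ (PP π).obj F) (s t : Bool) :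
    (homPush π hC G haff pt hpt F m n φ).app _ ((G.pull π haff pt hpt).gen m n s t) =
      (show Γ(F, π ⁻¹ᵁ G.U s t) from φ.app _ (G.gen m n s t)) := by
  have h1 := (G.pull π haff pt hpt).famEquiv_apply F m n (homPush π hC G haff pt hpt F m n φ) s t
  rw [← h1]
  unfold homPush
  rw [LinearEquiv.trans_apply, LinearEquiv.trans_apply, LinearEquiv.apply_symm_apply]
  rfl

end C

end M21.E3
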