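import Pool.Agent.H.MP_21b43d_ag.E3.S4.Push4
import Pool.Agent.H.MP_21b43d_ag.E3.G.NoethG
import Pool.Agent.H.MP_21b43d_ag.E3.Cmp

/-!
# M21, existence part, S4-P, file 5: the structure `Push` for a finite morphism
-/

set_option autoImplicit false

open CategoryTheory CategoryTheory.Limits CategoryTheory.Pretriangulated AlgebraicGeometry
  TopologicalSpace

noncomputable section

namespace M21.E3

section charts

variable {X : Scheme.{0}} [IsIntegral X] (G : BiP X)

/-- A morphism of quasi-coherent modules which is injective on the charts is a monomorphism. -/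
theorem mono_of_charts {M N : X.Modules} (hM : QC M) (hN : QC N) (φ : M ⟶ N)
    (h : ∀ s t, Function.Injective (φ.app (G.U s t))) : Mono φ := by
  have hS : (ShortComplex.mk (kernel.ι φ) φ (kernel.condition φ)).Exact :=
    ShortComplex.exact_kernel φ
  have hK : QC (kernel φ) := QC.of_left _ hS hM hN
  have h0 : IsZero (kernel φ) := by
    refine isZero_of_charts G hK fun s t x => ?_
    apply injective_of_mono (kernel.ι φ)
    apply h s t
    rw [kernel_ι_app, app_zero, app_zero]
  exact Preadditive.mono_of_kernel_zero (h0.eq_of_src _ _)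

/-- A morphism of quasi-coherent modules which is surjective on the charts is an epimorphism. -/
theorem epi_of_charts {M N : X.Modules} (hN : QC N) (φ : M ⟶ N)
    (h : ∀ s t, Function.Surjective (φ.app (G.U s t))) : Epi φ :=
  epi_of_cover (fun i : Bool × Bool => G.U i.1 i.2) (fun i => G.aff i.1 i.2)
    (fun x => by
      obtain ⟨s, t, h⟩ := G.exists_mem_U x
      exact ⟨(s, t), h⟩) hN φ (fun i => h i.1 i.2)

/-- Surjectivity on the charts (and on all affine opens) of an epimorphism. -/
theorem surj_of_epi {M N : X.Modules} (hM : QC M) (hN : QC N) (φ : M ⟶ N) [Epi φ]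
    {U : X.Opens} (hU : IsAffineOpen U) : Function.Surjective (φ.app U) := by
  have hS : (ShortComplex.mk (kernel.ι φ) φ (kernel.condition φ)).ShortExact :=
    { exact := ShortComplex.exact_kernel φ
      mono_f := inferInstance
      epi_g := inferInstance }
  exact fun n => surj_of_qc _ hS (QC.of_left _ hS.exact hM hN) hU n

/-- A complex of quasi-coherent modules which is short exact on the charts is short exact. -/
theorem shortExact_of_charts (S : ShortComplex X.Modules) (h1 : QC S.X₁) (h2 : QC S.X₂)
    (h3 : QC S.X₃) (hi : ∀ s t, Function.Injective (S.f.app (G.U s t)))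
    (he : ∀ s t (x : Γ(S.X₂, G.U s t)), S.g.app _ x = 0 → ∃ y, S.f.app _ y = x)
    (hs : ∀ s t, Function.Surjective (S.g.app (G.U s t))) : S.ShortExact where
  mono_f := mono_of_charts G h1 h2 S.f hi
  epi_g := epi_of_charts G h3 S.g hs
  exact := by
    rw [S.exact_iff_epi_kernel_lift]
    have hK : QC (kernel S.g) := QC.of_left _ (ShortComplex.exact_kernel S.g) h2 h3
    refine epi_of_charts G hK _ fun s t x => ?_
    obtain ⟨y, hy⟩ := he s t ((kernel.ι S.g).app _ x) (kernel_ι_app S.g x)
    refine ⟨y, injective_of_mono (kernel.ι S.g) _ ?_⟩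
    rw [← comp_app_apply, kernel.lift_ι, hy]

end charts

variable {X Q : Scheme.{0}} (π : X ⟶ Q) (G : BiP Q) (haff : ∀ s t, IsAffineOpen (π ⁻¹ᵁ G.U s t))
    (pt : X) (hpt : π pt ∈ (G.V false ⊓ G.V true) ⊓ (G.W false ⊓ G.W true))
    [IsIntegral X] [IsIntegral Q] [IsLocallyNoetherian X] [IsLocallyNoetherian Q] [IsFinite π]

include G haff pt hpt in
/-- The structure `Push` of the push forward by a finite morphism: only the two statements about
subobjects and quotients are left. -/
theorem push_of (q : RDX (IsCoh : ObjectProperty Q.Modules)) (c : ℤ)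
    (sub : ∀ M : X.Modules, IsCoh M → ∀ (N : Q.Modules) (i : N ⟶ (PP π).obj M), Mono i → IsCoh N →
      ∃ (M' : X.Modules) (j : M' ⟶ M) (k : N ⟶ (PP π).obj M'), Mono j ∧ IsCoh M' ∧
        k ≫ (PP π).map j = i ∧
        ∀ l : ℤ, (q.sh l).Tc N → (q.sh (l - 2 * c)).Tc ((PP π).obj M'))
    (quot : ∀ M : X.Modules, IsCoh M → ∀ (N : Q.Modules) (p : (PP π).obj M ⟶ N), Epi p → IsCoh N →
      ∃ (M'' : X.Modules) (g : M ⟶ M'') (k : (PP π).obj M'' ⟶ N), Epi g ∧ IsCoh M'' ∧
        (PP π).map g ≫ k = p ∧
        ∀ l : ℤ, (q.sh l).Fc N → (q.sh (l + 2 * c)).Fc ((PP π).obj M'')) :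
    Push (IsCoh : ObjectProperty X.Modules) q (PP π) c where
  mem M hM := coh_push π hM
  zero M hM h0 := isZero_of_push π hM.qc h0
  exact S hS h1 h2 h3 := shortExact_push π S hS h1.qc
  noeth M hM f hf := noeth_coh (G.pull π haff pt hpt) M hM f hf
  sub := sub
  quot := quot

end M21.E3
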