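import Pool.Agent.H.MP_21b43d_ag.E3.S4.Tw5
import Pool.Agent.H.MP_21b43d_ag.E3.S4.Push4
import Pool.Agent.H.MP_21b43d_ag.E3.G.Poly

/-!
# M21, S4-T: the numbers of a twist
-/

open CategoryTheory CategoryTheory.Limits CategoryTheory.Pretriangulated AlgebraicGeometry
  TopologicalSpace

noncomputable section

namespace M21.E3

namespace BiP

variable {X : Scheme.{0}} [IsIntegral X] (G : BiP X)

/-- The twist by `O(m, n)` as an autoequivalence; the functor is `twFunctor (G.twc m n)`, on objects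
`G.Twi m n`. -/
def twe (m n : ℤ) : X.Modules ≌ X.Modules := twEquivalence (G.twc m n) G.cov_Tw

theorem twe_functor (m n : ℤ) : (G.twe m n).functor = twFunctor (G.twc m n) := rfl

theorem twe_obj (m n : ℤ) (F : X.Modules) : (G.twe m n).functor.obj F = G.Twi m n F := rfl

theorem twe_inv_obj (m n : ℤ) (F : X.Modules) :
    (G.twe m n).inverse.obj F = TwObj (G.twc m n).inv F := rfl

theorem qc_Twi (m n : ℤ) {F : X.Modules} (hF : QC F) : QC (G.Twi m n F) :=
  qc_tw _ G.aff_Tw G.cov_Tw hF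

theorem isCoh_Twi (m n : ℤ) {F : X.Modules} (hF : IsCoh F) : IsCoh (G.Twi m n F) :=
  isCoh_tw _ G.aff_Tw G.cov_Tw hF

variable {G} [CX X] [IsLocallyNoetherian X] {ι : Type} [Fintype ι] (S : G.Split (FO X) ι)

include S in
/-- The four numbers of a twist. -/
theorem numbers_Twi (c d : ℤ) {F : X.Modules} (hF : IsCoh F) :
    G.nr (SS (G.Twi c d F)) = G.nr (SS F) ∧
      G.nd1 (SS (G.Twi c d F)) = G.nd1 (SS F) + d * G.nr (SS F) ∧
      G.nd2 (SS (G.Twi c d F)) = G.nd2 (SS F) + c * G.nr (SS F) ∧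
      G.nx (SS (G.Twi c d F)) = G.nr (SS F) * c * d + G.nd1 (SS F) * c + G.nd2 (SS F) * d +
        G.nx (SS F) := by
  have hF' := G.isCoh_Twi c d hF
  obtain ⟨k, hk⟩ := BiP.eulF_eq_finrank S hF
  obtain ⟨k', hk'⟩ := BiP.eulF_eq_finrank S hF'
  apply poly_eq (k := max k' (max (k - c) (k - d)))
  intro m n hm hn
  have h1 : k ≤ m + c := by
    have := (le_max_left _ _).trans ((le_max_right _ _).trans hm)
    omega
  have h2 : k ≤ n + d := by
    have := (le_max_right _ _).trans ((le_max_right _ _).trans hn)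
    omega
  have e1 := BiP.eulF_eq (G := G) _ (fun m n => BiP.homFin_coh S hF m n) (m + c) (n + d)
  rw [(hk (m + c) (n + d) h1 h2).1] at e1
  rw [← BiP.eulF_eq _ _ (fun m n => BiP.homFin_coh S hF' m n),
    (hk' m n ((le_max_left _ _).trans hm) ((le_max_left _ _).trans hn)).1,
    (G.homTwi c d F m n).finrank_eq]
  linear_combination e1

include S in
/-- The Euler forms of a twist. -/
theorem eulF_Twi (c d : ℤ) {F : X.Modules} (hF : IsCoh F) (m n : ℤ) :
    M21.eulF ℂ (G.LL m n) (SS (G.Twi c d F)) = M21.eulF ℂ (G.LL (m + c) (n + d)) (SS F) := by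
  have hF' := G.isCoh_Twi c d hF
  obtain ⟨e1, e2, e3, e4⟩ := numbers_Twi S c d hF
  rw [BiP.eulF_eq _ _ (fun m n => BiP.homFin_coh S hF m n),
    BiP.eulF_eq _ _ (fun m n => BiP.homFin_coh S hF' m n), e1, e2, e3, e4]
  ring

/-- The twist by `O(c, c)` preserves coherence and the rank and changes the degree by `2 c r`. -/
theorem tws (c : ℤ) : (rdx S).Tws (2 * c) (G.twe c c) where
  mem M hM := G.isCoh_Twi c c hM
  mem' M hM := isCoh_tw _ G.aff_Tw G.cov_Tw hM
  r M hM := (numbers_Twi S c c hM).1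
  D M hM := by
    obtain ⟨-, e2, e3, -⟩ := numbers_Twi S c c hM
    show G.nd1 (SS (G.Twi c c M)) + G.nd2 (SS (G.Twi c c M)) =
      G.nd1 (SS M) + G.nd2 (SS M) + 2 * c * G.nr (SS M)
    rw [e2, e3]
    ring

/-- the same for the rank, degree and Euler characteristic with the degree shifted -/
theorem tws_sh (c l : ℤ) : ((rdx S).sh l).Tws (2 * c) (G.twe c c) where
  mem := (tws S c).mem
  mem' := (tws S c).mem'
  r := (tws S c).r
  D M hM := by
    have h1 := (tws S c).D M hM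
    have h2 := (tws S c).r M hM
    rw [RDX.sh_D, RDX.sh_D, h1, h2, RDX.sh_r]
    ring

theorem Tc_Twi (c l : ℤ) {F : X.Modules} :
    ((rdx S).sh (l + 2 * c)).Tc (G.Twi c c F) ↔ ((rdx S).sh l).Tc F :=
  RDX.Tws.Tc_iff (wserre_isCoh X) (tws S c)

theorem Fc_Twi (c l : ℤ) {F : X.Modules} :
    ((rdx S).sh (l + 2 * c)).Fc (G.Twi c c F) ↔ ((rdx S).sh l).Fc F :=
  RDX.Tws.Fc_iff (wserre_isCoh X) (tws S c)

end BiP

end M21.E3
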