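import Pool.Agent.H.MP_21b43d_ag.E3.S4.SQ
import Pool.Agent.H.MP_21b43d_ag.E3.S4.Fg
import Pool.Agent.H.MP_21b43d_ag.E3.S4.Push5
import Pool.Agent.H.MP_21b43d_ag.E3.S4.Tw6

/-!
# M21, existence part, S4-F6: the structure `Push` of a split finite cover of `ℙ¹ × ℙ¹`
-/

open CategoryTheory CategoryTheory.Limits AlgebraicGeometry TopologicalSpace

noncomputable section

namespace M21.E3

variable {X Q : Scheme.{0}} (π : X ⟶ Q) (G : BiP Q)
  (haff : ∀ s t, IsAffineOpen (π ⁻¹ᵁ G.U s t)) (pt : X)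
  (hpt : π pt ∈ (G.V false ⊓ G.V true) ⊓ (G.W false ⊓ G.W true))

namespace BiP

theorem toK_ub {X : Scheme.{0}} [IsIntegral X] (G : BiP X) (m : ℤ) (s s' : Bool) {O : X.Opens}
    (h1 : O ≤ G.V s) (h2 : O ≤ G.V s') {p : X} (hp : p ∈ O) :
    toK hp (G.ub m s s' h1 h2) = G.B ^ (tw s' m - tw s m) := by
  by_cases h : s = s'
  · subst h
    rw [G.ub_self, map_one, sub_self, zpow_zero]
  · rw [G.ub_ne m h, G.toK_bp]
    congr 1
    cases s <;> cases s'
    · exact absurd rfl h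
    · simp [sg, tw]
    · simp [sg, tw]
    · exact absurd rfl h

theorem toK_uz {X : Scheme.{0}} [IsIntegral X] (G : BiP X) (n : ℤ) (t t' : Bool) {O : X.Opens}
    (h1 : O ≤ G.W t) (h2 : O ≤ G.W t') {p : X} (hp : p ∈ O) :
    toK hp (G.uz n t t' h1 h2) = G.Z ^ (tw t' n - tw t n) := by
  by_cases h : t = t'
  · subst h
    rw [G.uz_self, map_one, sub_self, zpow_zero]
  · rw [G.uz_ne n h, G.toK_zp]
    congr 1
    cases t <;> cases t'
    · exact absurd rfl h
    · simp [sg, tw]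
    · simp [sg, tw]
    · exact absurd rfl h

theorem pull_leV {s : Bool} {O : Q.Opens} (h : O ≤ G.V s) :
    π ⁻¹ᵁ O ≤ (G.pull π haff pt hpt).V s := pre_mono π h

theorem pull_leW {t : Bool} {O : Q.Opens} (h : O ≤ G.W t) :
    π ⁻¹ᵁ O ≤ (G.pull π haff pt hpt).W t := pre_mono π h

theorem pull_leU {s t : Bool} {O : Q.Opens} (h : O ≤ G.U s t) :
    π ⁻¹ᵁ O ≤ (G.pull π haff pt hpt).U s t := pre_mono π h

theorem pf_ub (m : ℤ) (s s' : Bool) {O : Q.Opens} (h1 : O ≤ G.V s) (h2 : O ≤ G.V s') :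
    pf π (G.ub m s s' h1 h2) =
      (G.pull π haff pt hpt).ub m s s' (pull_leV π G haff pt hpt h1)
        (pull_leV π G haff pt hpt h2) := by
  by_cases h : s = s'
  · subst h
    rw [G.ub_self, BiP.ub_self]
    exact map_one _
  · rw [G.ub_ne m h, BiP.ub_ne _ m h]
    exact app_bp π G haff pt hpt _ _

theorem pf_uz (n : ℤ) (t t' : Bool) {O : Q.Opens} (h1 : O ≤ G.W t) (h2 : O ≤ G.W t') :
    pf π (G.uz n t t' h1 h2) =
      (G.pull π haff pt hpt).uz n t t' (pull_leW π G haff pt hpt h1)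
        (pull_leW π G haff pt hpt h2) := by
  by_cases h : t = t'
  · subst h
    rw [G.uz_self, BiP.uz_self]
    exact map_one _
  · rw [G.uz_ne n h, BiP.uz_ne _ n h]
    exact app_zp π G haff pt hpt _ _

variable [IsIntegral X] [CX X]

/-- The members of a generating family are sections of the pull back of `O(c, c)`. -/
theorem Gens.rel {c : ℤ} {κ : Type} (E : (G.pull π haff pt hpt).Gens c κ) (k : κ)
    (i j : Bool × Bool) (W : Q.Opens) (hi : W ≤ G.U i.1 i.2) (hj : W ≤ G.U j.1 j.2)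
    (h : W ≤ G.U i.1 i.2 ⊓ G.U j.1 j.2) :
    resF (pre_mono π hi) (E.γ k i.1 i.2) =
      pf π (resF h ((G.twc c c).u i j)) * resF (pre_mono π hj) (E.γ k j.1 j.2) := by
  by_cases hne : ∃ p : X, p ∈ π ⁻¹ᵁ W
  · obtain ⟨p, hp⟩ := hne
    apply toK_inj hp
    have hB := (G.pull π haff pt hpt).B_ne
    have hZ := (G.pull π haff pt hpt).Z_ne
    have h1 : pf π (resF h ((G.twc c c).u i j)) =
        (G.pull π haff pt hpt).ub c i.1 j.1 (pull_leV π G haff pt hpt (hi.trans inf_le_left))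
          (pull_leV π G haff pt hpt (hj.trans inf_le_left)) *
        (G.pull π haff pt hpt).uz c i.2 j.2 (pull_leW π G haff pt hpt (hi.trans inf_le_right))
          (pull_leW π G haff pt hpt (hj.trans inf_le_right)) := by
      rw [G.twc_u_res]
      have h2 : ∀ a b : Γ(Q, W), pf π (a * b) = pf π a * pf π b := fun a b => map_mul _ a b
      rw [h2, pf_ub π G haff pt hpt, pf_uz π G haff pt hpt]
    have e1 : toK hp (resF (pre_mono π hi) (E.γ k i.1 i.2)) =
        (G.pull π haff pt hpt).B ^ (-tw i.1 c) * (G.pull π haff pt hpt).Z ^ (-tw i.2 c) * E.g k :=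
      (toK_res _ _ _).trans (E.val k i.1 i.2 (pull_leU π G haff pt hpt hi hp))
    have e2 : toK hp (resF (pre_mono π hj) (E.γ k j.1 j.2)) =
        (G.pull π haff pt hpt).B ^ (-tw j.1 c) * (G.pull π haff pt hpt).Z ^ (-tw j.2 c) * E.g k :=
      (toK_res _ _ _).trans (E.val k j.1 j.2 (pull_leU π G haff pt hpt hj hp))
    rw [h1, map_mul, map_mul, toK_ub, toK_uz, e1, e2,
      sub_eq_add_neg (tw j.1 c), sub_eq_add_neg (tw j.2 c), zpow_add₀ hB, zpow_add₀ hZ,
      zpow_neg _ (tw j.1 c), zpow_neg _ (tw j.2 c)]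
    have e3 : (G.pull π haff pt hpt).B ^ tw j.1 c ≠ 0 := zpow_ne_zero _ hB
    have e4 : (G.pull π haff pt hpt).Z ^ tw j.2 c ≠ 0 := zpow_ne_zero _ hZ
    field_simp
  · have h0 : π ⁻¹ᵁ W = ⊥ := by
      ext p
      exact ⟨fun hp => absurd ⟨p, hp⟩ hne, fun hp => absurd hp (by simp)⟩
    have : Subsingleton Γ(X, π ⁻¹ᵁ W) := by
      rw [h0]
      infer_instance
    exact Subsingleton.elim _ _

variable [CX Q] (hC : (CX.f : X ⟶ Spec (.of ℂ)) = π ≫ CX.f)

include hC in
/-- A generating family in the function field gives generating sections of the pull back of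
`O(c, c)`. -/
theorem Gens.genF {c : ℤ} {κ : Type} (E : (G.pull π haff pt hpt).Gens c κ) :
    Nonempty (GenF π (G.twc c c) κ) := by
  refine ⟨⟨fun k => ⟨fun i => E.γ k i.1 i.2, E.rel π G haff pt hpt k⟩, fun i a => ?_⟩⟩
  let _ := (π.app (G.U i.1 i.2)).hom.toAlgebra
  let R : Subring Γ(X, π ⁻¹ᵁ G.U i.1 i.2) := (π.app (G.U i.1 i.2)).hom.range
  let v : κ → Γ(X, π ⁻¹ᵁ G.U i.1 i.2) := fun k => E.γ k i.1 i.2
  have h1 : Submodule.span R (Set.range v) = ⊤ :=
    E.gen i.1 i.2 R (fun x => ⟨cr _ x, app_cr π hC _ x⟩) ⟨G.bc i.1 inf_le_left, app_resF π _ _⟩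
      ⟨G.zc i.2 inf_le_right, app_resF π _ _⟩
  have h2 : a ∈ Submodule.span R (Set.range v) := by rw [h1]; trivial
  have h3 : a ∈ Submodule.span Γ(Q, G.U i.1 i.2) (Set.range v) := by
    clear h1
    induction h2 using Submodule.span_induction with
    | mem x hx => exact Submodule.subset_span hx
    | zero => exact Submodule.zero_mem _
    | add x y _ _ hx hy => exact Submodule.add_mem _ hx hy
    | smul b x _ hx =>
      obtain ⟨b, b', rfl⟩ := b
      exact Submodule.smul_mem _ b' hx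
  obtain ⟨r, hr⟩ := Finsupp.mem_span_range_iff_exists_finsupp.mp h3
  exact ⟨r, hr.symm⟩

end BiP

section push

variable [IsIntegral X] [CX X] [IsIntegral Q] [CX Q]
  (hC : (CX.f : X ⟶ Spec (.of ℂ)) = π ≫ CX.f) [IsLocallyNoetherian X] [IsLocallyNoetherian Q] [IsFinite π] {ι ι' : Type} [Fintype ι]
  (S : G.Split (FO Q) ι)

omit [CX X] in
include haff pt hpt in
/-- The structure `Push` from generating sections of the pull back of `O(c, c)`. -/
theorem push_of_genF {c : ℤ} {κ : Type} (g : GenF π (G.twc c c) κ) (l : ℤ) :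
    Push (IsCoh : ObjectProperty X.Modules) ((BiP.rdx S).sh l) (PP π) c :=
  push_of π G haff pt hpt _ c
    (fun M hM N i _ hN => push_sub (π := π) G.aff_Tw G.cov_Tw g (BiP.tws_sh S c l) M hM N i hN)
    (fun M hM N p _ hN => push_quot (π := π) G.aff_Tw G.cov_Tw g (BiP.tws_sh S c l) M hM N p hN)

include hC in
/-- The structure `Push` of a split finite cover. -/
theorem exists_push [Finite ι'] (T : (G.pull π haff pt hpt).Split (FO X) ι') :
    ∃ c : ℕ, ∀ l : ℤ, Push (IsCoh : ObjectProperty X.Modules) ((BiP.rdx S).sh l) (PP π) c := by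
  obtain ⟨c, ⟨E⟩⟩ := T.exists_gens
  obtain ⟨g⟩ := E.genF π G haff pt hpt hC
  exact ⟨c, fun l => push_of_genF π G haff pt hpt S g l⟩

end push

end M21.E3
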