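import Pool.Agent.H.MP_21b43d_ag.E3.S4.Sub1

/-!
# M21, existence part, S4-F3: the largest submodule in the kernel of a map from a direct image

`π : X ⟶ Q`, `p : π_* M ⟶ N`: the largest `𝒪_X`-submodule `M₀` of `M` with `π_* M₀ ⊆ ker p`. If `N`
and `M` are quasi-coherent and `π` is finite, its sections over `π⁻¹(V)`, `V` affine, are the `m`
with `p (a m) = 0` for all functions `a` on `π⁻¹(V)`, and `p` factors through `π_* (M / M₀)`.
-/

open CategoryTheory CategoryTheory.Limits AlgebraicGeometry TopologicalSpace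

noncomputable section

namespace M21.E3

variable {X Q : Scheme.{0}} {π : X ⟶ Q} {M : X.Modules} {N : Q.Modules}
  (p : (Scheme.Modules.pushforward π).obj M ⟶ N)

/-- the value of `p : π_* M ⟶ N` on a section of `M` -/
def qv {W : Q.Opens} (m : Γ(M, π ⁻¹ᵁ W)) : Γ(N, W) :=
  p.app W (show Γ((Scheme.Modules.pushforward π).obj M, W) from m)

theorem qv_add {W : Q.Opens} (m m' : Γ(M, π ⁻¹ᵁ W)) : qv p (m + m') = qv p m + qv p m' :=
  map_add (p.app W).hom m m'

theorem qv_zero {W : Q.Opens} : qv p (0 : Γ(M, π ⁻¹ᵁ W)) = 0 := map_zero (p.app W).hom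

theorem qv_smul {W : Q.Opens} (a : Γ(Q, W)) (m : Γ(M, π ⁻¹ᵁ W)) :
    qv p (pf π a • m) = a • qv p m :=
  Scheme.Modules.Hom.app_smul p a (show Γ((Scheme.Modules.pushforward π).obj M, W) from m)

theorem qv_res {W W' : Q.Opens} (h : W' ≤ W) (m : Γ(M, π ⁻¹ᵁ W)) :
    qv p (res M (pre_mono π h) m) = res N h (qv p m) :=
  app_res p h (show Γ((Scheme.Modules.pushforward π).obj M, W) from m)

/-- the sections of `π_* M` all whose multiples are killed by `p` -/
def ksub : LocSub ((Scheme.Modules.pushforward π).obj M) where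
  mem {W} m := ∀ (W' : Q.Opens) (h : W' ≤ W) (a : Γ(X, π ⁻¹ᵁ W')),
    qv p (a • res M (pre_mono π h) (show Γ(M, π ⁻¹ᵁ W) from m)) = 0
  zero' W := fun W' h a => by
    rw [show res M (pre_mono π h) (show Γ(M, π ⁻¹ᵁ W) from
      (0 : Γ((Scheme.Modules.pushforward π).obj M, W))) = 0 from res_zero _, smul_zero, qv_zero]
  add' {W s t} hs ht := fun W' h a => by
    rw [show res M (pre_mono π h) (show Γ(M, π ⁻¹ᵁ W) from s + t) =
      res M (pre_mono π h) s + res M (pre_mono π h) t from res_add _ _ _, smul_add, qv_add, hs W' h a,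
      ht W' h a, add_zero]
  smul' {W} r s hs := fun W' h a => by
    have h1 : res M (pre_mono π h) (show Γ(M, π ⁻¹ᵁ W) from r • s) =
        resF (pre_mono π h) (pf π r) • res M (pre_mono π h) (show Γ(M, π ⁻¹ᵁ W) from s) :=
      res_smul _ _ _
    rw [h1, smul_smul]
    exact hs W' h _
  res' {W W1} h s hs := fun W' h' a => by
    have h1 : res M (pre_mono π h') (show Γ(M, π ⁻¹ᵁ W1) from
        res ((Scheme.Modules.pushforward π).obj M) h s) =
        res M (pre_mono π (h'.trans h)) (show Γ(M, π ⁻¹ᵁ W) from s) := res_res _ _ _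
    rw [h1]
    exact hs W' (h'.trans h) a
  loc' {W} s hs := fun W' h a => by
    refine sec_ext N fun y hy => ?_
    obtain ⟨V, hV, hyV, h1⟩ := hs y (h hy)
    refine ⟨W' ⊓ V, inf_le_left, ⟨hy, hyV⟩, ?_⟩
    have h2 := h1 (W' ⊓ V) inf_le_right (resF (pre_mono π inf_le_left) a)
    have e1 : res M (pre_mono π (inf_le_right : W' ⊓ V ≤ V)) (show Γ(M, π ⁻¹ᵁ V) from
        res ((Scheme.Modules.pushforward π).obj M) hV s) =
        res M (pre_mono π ((inf_le_right : W' ⊓ V ≤ V).trans hV)) (show Γ(M, π ⁻¹ᵁ W) from s) :=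
      res_res _ _ _
    rw [e1] at h2
    rw [← qv_res, res_zero, res_smul, res_res]
    exact h2

/-- Over an affine `V` with affine preimage the condition is on the functions on `π⁻¹(V)` only. -/
theorem mem_ksub_iff {V : Q.Opens} (hV : IsAffineOpen V) (hU : IsAffineOpen (π ⁻¹ᵁ V))
    (m : Γ(M, π ⁻¹ᵁ V)) :
    (ksub p).mem (U := V) m ↔ ∀ a : Γ(X, π ⁻¹ᵁ V), qv p (a • m) = 0 := by
  constructor
  · intro h a
    have h1 := h V le_rfl a
    rwa [show res M (pre_mono π (le_refl V)) (show Γ(M, π ⁻¹ᵁ V) from m) = m from res_self _ _]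
      at h1
  · intro h W' hW' a
    refine sec_ext N fun y hy => ?_
    obtain ⟨g, hg, hyg⟩ := hV.exists_basicOpen_le (V := W') ⟨y, hy⟩ (hW' hy)
    refine ⟨Q.basicOpen g, hg, hyg, ?_⟩
    rw [← qv_res, res_zero, res_smul, res_res]
    change qv p (resF (pre_mono π hg) a • _) = 0
    obtain ⟨n, a', ha'⟩ := (isCoh_unit X).qc.ext' hU (pf π g) (pre_mono π (Q.basicOpen_le g))
      (Scheme.preimage_basicOpen π g) (resF (pre_mono π hg) a)
    have ha1 : resF (pre_mono π (Q.basicOpen_le g)) (show Γ(X, π ⁻¹ᵁ V) from a') =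
        resF (pre_mono π (Q.basicOpen_le g)) (pf π g) ^ n * resF (pre_mono π hg) a := ha'
    have hu : IsUnit (resF (Q.basicOpen_le g) g ^ n) :=
      (Q.toRingedSpace.isUnit_res_basicOpen g).pow n
    have h2 : resF (Q.basicOpen_le g) g ^ n • qv p (resF (pre_mono π hg) a •
        res M ((pre_mono π hg).trans (pre_mono π hW')) (show Γ(M, π ⁻¹ᵁ V) from m)) = 0 := by
      rw [← qv_smul, smul_smul, pf_pow, pf_res, ← ha1]
      have h3 := h (show Γ(X, π ⁻¹ᵁ V) from a')
      have h4 := qv_res p (Q.basicOpen_le g) ((show Γ(X, π ⁻¹ᵁ V) from a') • m)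
      rw [h3, res_zero, res_smul] at h4
      exact h4
    obtain ⟨u, hu⟩ := hu
    rw [← hu] at h2
    have h5 := congrArg (fun z => ((u⁻¹ : (Γ(Q, Q.basicOpen g))ˣ) : Γ(Q, Q.basicOpen g)) • z) h2
    simp only [smul_smul, Units.inv_mul, one_smul, smul_zero] at h5
    exact h5

/-- The sheaf of these sections is quasi-coherent. -/
theorem qc_ksub {J : Type} (V : J → Q.Opens) (hV : ∀ j, IsAffineOpen (V j))
    (hU : ∀ j, IsAffineOpen (π ⁻¹ᵁ V j)) (hc : ∀ y : Q, ∃ j, y ∈ V j)
    (hfin : ∀ j, (π.app (V j)).hom.Finite) (hN : QC N) (hM : QC M) : QC (ksub p).sheaf := by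
  classical
  refine qc_of_cover V hV hc _ (fun j g s => ?_) fun j g t ht => ?_
  · -- the value of `s`
    let s' : Γ(M, π ⁻¹ᵁ (Q.basicOpen g)) := (ksub p).incl.app _ s
    have hs' : (ksub p).mem (U := Q.basicOpen g) s' := (ksub p).mem_incl s
    obtain ⟨n, m, hm⟩ := hM.ext' (hU j) (pf π g) (pre_mono π (Q.basicOpen_le g))
      (Scheme.preimage_basicOpen π g) s'
    -- generators of the functions on `π⁻¹(V j)`
    let _ := (π.app (V j)).hom.toAlgebra
    have : Module.Finite Γ(Q, V j) Γ(X, π ⁻¹ᵁ V j) := hfin j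
    obtain ⟨T, hT⟩ := (Module.finite_def (R := Γ(Q, V j)) (M := Γ(X, π ⁻¹ᵁ V j))).mp inferInstance
    have h1 : ∀ a : Γ(X, π ⁻¹ᵁ V j), res N (Q.basicOpen_le g) (qv p (a • m)) = 0 := by
      intro a
      rw [← qv_res, res_smul, hm]
      change qv p (resF _ a • _) = 0
      have h2 := hs' (Q.basicOpen g) le_rfl (resF (pre_mono π (Q.basicOpen_le g)) a *
        resF (pre_mono π (Q.basicOpen_le g)) (pf π g) ^ n)
      rw [show res M (pre_mono π (le_refl (Q.basicOpen g))) (show Γ(M, π ⁻¹ᵁ (Q.basicOpen g)) from s')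
        = s' from res_self _ _] at h2
      rw [smul_smul]
      exact h2
    choose k hk using fun a : Γ(X, π ⁻¹ᵁ V j) => hN.tors _ (hV j) g _ (h1 a)
    let K : ℕ := ∑ a ∈ T, k a
    have hK : ∀ a ∈ T, g ^ K • qv p (a • m) = 0 := by
      intro a ha
      have h3 : k a ≤ K := Finset.single_le_sum (fun _ _ => Nat.zero_le _) ha
      obtain ⟨d, hd⟩ := Nat.exists_eq_add_of_le h3
      rw [hd, add_comm, pow_add, mul_smul, hk, smul_zero]
    have hK' : ∀ a : Γ(X, π ⁻¹ᵁ V j), qv p (a • (pf π g ^ K • m)) = 0 := by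
      intro a
      have ha : a ∈ Submodule.span Γ(Q, V j) (T : Set Γ(X, π ⁻¹ᵁ V j)) := by rw [hT]; trivial
      have h4 : qv p (a • (pf π g ^ K • m)) = g ^ K • qv p (a • m) := by
        rw [← qv_smul, smul_smul, smul_smul, mul_comm, pf_pow]
      rw [h4]
      induction ha using Submodule.span_induction with
      | mem x hx => exact hK x hx
      | zero => rw [zero_smul, qv_zero, smul_zero]
      | add x y _ _ hx hy =>
        have hx' := hx (by rw [← qv_smul, smul_smul, smul_smul, mul_comm, pf_pow])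
        have hy' := hy (by rw [← qv_smul, smul_smul, smul_smul, mul_comm, pf_pow])
        rw [add_smul, qv_add, smul_add, hx', hy', add_zero]
      | smul c x _ hx =>
        have hx' := hx (by rw [← qv_smul, smul_smul, smul_smul, mul_comm, pf_pow])
        have h5 : c • x = pf π c * x := rfl
        rw [h5, mul_smul, qv_smul, smul_comm, hx', smul_zero]
    let t : Γ((Scheme.Modules.pushforward π).obj M, V j) := pf π g ^ K • m
    have ht : (ksub p).mem t := (mem_ksub_iff p (hV j) (hU j) (pf π g ^ K • m)).mpr hK'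
    refine ⟨K + n, (ksub p).sec t ht, (ksub p).incl_injective _ ?_⟩
    rw [app_res, LocSub.incl_sec, Scheme.Modules.Hom.app_smul]
    have h6 : res M (pre_mono π (Q.basicOpen_le g)) (pf π g ^ K • m) =
        pf π (resF (Q.basicOpen_le g) g ^ (K + n)) • s' := by
      rw [res_smul]
      change resF _ (pf π g ^ K) • _ = _
      rw [hm, resF_pow_S4, smul_smul, ← pow_add, pf_pow, pf_res]
    exact h6
  · obtain ⟨n, hn⟩ := hM.tors' (hU j) (pf π g) (pre_mono π (Q.basicOpen_le g))
      (Scheme.preimage_basicOpen π g) ((ksub p).incl.app _ t) (by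
        have h1 : res ((Scheme.Modules.pushforward π).obj M) (Q.basicOpen_le g)
            ((ksub p).incl.app _ t) = 0 := by rw [← app_res, ht, app_zero]
        exact h1)
    refine ⟨n, (ksub p).incl_injective _ ?_⟩
    rw [Scheme.Modules.Hom.app_smul, app_zero]
    have h2 : pf π (g ^ n) • (show Γ(M, π ⁻¹ᵁ V j) from (ksub p).incl.app _ t) = 0 := by
      rw [pf_pow]
      exact hn
    exact h2

/-- (B): the quotient of `M` by the largest submodule in the kernel of `p`. -/
theorem exists_ksub [IsLocallyNoetherian X] {J : Type} (V : J → Q.Opens)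
    (hV : ∀ j, IsAffineOpen (V j)) (hU : ∀ j, IsAffineOpen (π ⁻¹ᵁ V j))
    (hc : ∀ y : Q, ∃ j, y ∈ V j) (hfin : ∀ j, (π.app (V j)).hom.Finite) (hN : QC N)
    (hM : IsCoh M) :
    ∃ (M'' : X.Modules) (g : M ⟶ M'') (k : (Scheme.Modules.pushforward π).obj M'' ⟶ N),
      Epi g ∧ IsCoh M'' ∧ (Scheme.Modules.pushforward π).map g ≫ k = p ∧
      (∀ j, Function.Surjective (g.app (π ⁻¹ᵁ V j))) ∧
      ∀ j (m : Γ(M, π ⁻¹ᵁ V j)), g.app _ m = 0 ↔ ∀ a : Γ(X, π ⁻¹ᵁ V j), qv p (a • m) = 0 := by
  have hL : QC (ksub p).sheaf := qc_ksub p V hV hU hc hfin hN hM.qc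
  let i : (ksub p).sheaf ⟶ (Scheme.Modules.pushforward π).obj M := (ksub p).incl
  have hM0 : QC (gsub i).sheaf := qc_gsub V hV hU hc hL hM.qc
  have hmono : Mono (gsub i).incl := mono_of_injective _ (gsub i).incl_injective
  have hM0' : IsCoh (gsub i).sheaf := isCoh_of_mono (gsub i).incl hM0 hM
  have hM'' : IsCoh (cokernel (gsub i).incl) :=
    (weakSerre_isCoh X).cokernel _ hM0' hM
  let S : ShortComplex X.Modules := ShortComplex.mk (gsub i).incl (cokernel.π (gsub i).incl)
    (cokernel.condition _)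
  have hS : S.ShortExact :=
    { exact := ShortComplex.exact_of_g_is_cokernel _ (cokernelIsCokernel _)
      mono_f := hmono
      epi_g := inferInstance }
  have hker : ∀ (U : X.Opens) (m : Γ(M, U)), (cokernel.π (gsub i).incl).app U m = 0 →
      (gsub i).mem m := by
    intro U m hm
    obtain ⟨t, ht⟩ := exists_of_app_eq_zero S hS.exact m hm
    change (gsub i).incl.app U t = m at ht
    rw [← ht]
    exact (gsub i).mem_incl t
  have hker' : ∀ (U : X.Opens) (m : Γ(M, U)), (gsub i).mem m →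
      (cokernel.π (gsub i).incl).app U m = 0 := by
    intro U m hm
    have h1 := zero_app_apply S ((gsub i).sec m hm)
    exact h1
  have hsurj : ∀ U : X.Opens, IsAffineOpen U →
      Function.Surjective ((cokernel.π (gsub i).incl).app U) := fun U hU1 =>
    surj_of_qc S hS hM0 hU1
  -- small affine opens of `Q`
  have hsmall : ∀ (W : Q.Opens), ∀ y ∈ W, ∃ W' : Q.Opens, W' ≤ W ∧ y ∈ W' ∧ IsAffineOpen W' ∧
      IsAffineOpen (π ⁻¹ᵁ W') := by
    intro W y hy
    obtain ⟨j, hj⟩ := hc y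
    obtain ⟨f, hf, hyf⟩ := (hV j).exists_basicOpen_le (V := W) ⟨y, hy⟩ hj
    refine ⟨Q.basicOpen f, hf, hyf, (hV j).basicOpen f, ?_⟩
    rw [Scheme.preimage_basicOpen]
    exact (hU j).basicOpen _
  have hepi : Epi ((Scheme.Modules.pushforward π).map (cokernel.π (gsub i).incl)) := by
    apply epi_of_locSurj
    intro W s y hy
    obtain ⟨W', hW', hy', -, ha⟩ := hsmall W y hy
    obtain ⟨t, ht⟩ := hsurj _ ha (res (cokernel (gsub i).incl) (pre_mono π hW') s)
    exact ⟨W', hW', hy', t, ht⟩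
  have hspan : ∀ (W : Q.Opens) (_ : IsAffineOpen W) (_ : IsAffineOpen (π ⁻¹ᵁ W))
      (m : Γ(M, π ⁻¹ᵁ W)), (cokernel.π (gsub i).incl).app _ m = 0 → ∀ a : Γ(X, π ⁻¹ᵁ W),
      qv p (a • m) = 0 := by
    intro W hW hW' m hm
    have h1 := (mem_gsub_iff hL hM.qc hW hW' le_rfl m).mp (hker _ m hm)
    have h2 : ∀ y ∈ gspan i W (π ⁻¹ᵁ W) le_rfl, ∀ a : Γ(X, π ⁻¹ᵁ W), qv p (a • y) = 0 := by
      intro y hy
      unfold gspan at hy
      induction hy using Submodule.span_induction with
      | mem x hx =>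
        obtain ⟨n, rfl⟩ := hx
        intro a
        exact (ksub p).mem_incl n W le_rfl a
      | zero => intro a; rw [smul_zero, qv_zero]
      | add x y _ _ hx hy =>
        intro a
        rw [smul_add, qv_add, hx a, hy a, add_zero]
      | smul c x _ hx =>
        intro a
        rw [smul_smul]
        exact hx _
    exact h2 m h1
  have hdesc : kernel.ι ((Scheme.Modules.pushforward π).map (cokernel.π (gsub i).incl)) ≫ p = 0 := by
    refine hom_ext_app fun W x => ?_
    let z : Γ(M, π ⁻¹ᵁ W) :=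
      (kernel.ι ((Scheme.Modules.pushforward π).map (cokernel.π (gsub i).incl))).app W x
    have hz : (cokernel.π (gsub i).incl).app (π ⁻¹ᵁ W) z = 0 :=
      kernel_ι_app ((Scheme.Modules.pushforward π).map (cokernel.π (gsub i).incl)) x
    have h1 : qv p z = 0 := by
      refine sec_ext N fun y hy => ?_
      obtain ⟨W', hW', hy', ha', ha⟩ := hsmall W y hy
      refine ⟨W', hW', hy', ?_⟩
      rw [← qv_res, res_zero]
      have h2 := hspan W' ha' ha (res M (pre_mono π hW') z) (by rw [app_res, hz, res_zero]) 1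
      rwa [one_smul] at h2
    exact h1
  refine ⟨cokernel (gsub i).incl, cokernel.π (gsub i).incl,
    Abelian.epiDesc ((Scheme.Modules.pushforward π).map (cokernel.π (gsub i).incl)) p hdesc,
    inferInstance, hM'', Abelian.comp_epiDesc _ _ _, fun j => hsurj _ (hU j),
    fun j m => ⟨hspan (V j) (hV j) (hU j) m, fun h => ?_⟩⟩
  have hm : (ksub p).mem (U := V j) m := (mem_ksub_iff p (hV j) (hU j) m).mpr h
  exact hker' _ m (mem_gsub_sv i ((ksub p).sec (U := V j) m hm))

end M21.E3
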