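import Pool.Agent.H.MP_21b43d_ag.E3.S4.Tw3
import Pool.Agent.H.MP_21b43d_ag.E3.G.QCf

/-!
# M21, S4-T: the twist functor preserves quasi-coherence and coherence; morphisms out of a twist
-/

open CategoryTheory CategoryTheory.Limits AlgebraicGeometry TopologicalSpace

noncomputable section

namespace M21

variable {X : Scheme.{0}} {ι : Type} {U : ι → X.Opens} (c : UCocycle U)
  (hA : ∀ i, IsAffineOpen (U i)) (hU : ∀ x : X, ∃ i, x ∈ U i)

include hA hU

theorem qc_tw {M : X.Modules} (hM : QC M) : QC (TwObj c M) := by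
  refine E3.qc_of_cover U hA hU _ (fun i f s => ?_) (fun i f t ht => ?_)
  · have hi : X.basicOpen f ≤ U i := X.basicOpen_le f
    obtain ⟨n, t, ht⟩ := hM.ext (U i) (hA i) f (twVal c i hi s)
    refine ⟨n, twLoc c i le_rfl t, ?_⟩
    rw [twLoc_res c i le_rfl (X.basicOpen_le f)]
    apply twVal_inj c (i0 := i) (hV := hi)
    rw [twVal_loc, twVal_smul, ht]
  · have hi : X.basicOpen f ≤ U i := X.basicOpen_le f
    obtain ⟨n, hn⟩ := hM.tors (U i) (hA i) f (twVal c i le_rfl t) (by
      rw [← twVal_res c i le_rfl (X.basicOpen_le f), ht, twVal_zero])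
    refine ⟨n, twVal_inj c (i0 := i) (hV := le_rfl) ?_⟩
    rw [twVal_smul, hn, twVal_zero]

theorem isCoh_tw {M : X.Modules} (hM : IsCoh M) : IsCoh (TwObj c M) := by
  refine E3.isCoh_of_cover U hA hU _ (qc_tw c hA hU hM.qc) fun i => ?_
  have := (isCoh_iff.mp hM).2 (U i) (hA i)
  exact Module.Finite.equiv (twEquiv c M i le_rfl).symm

theorem isCoh_tw_iff [IsLocallyNoetherian X] {M : X.Modules} : IsCoh (TwObj c M) ↔ IsCoh M := by
  refine ⟨fun h => ?_, isCoh_tw c hA hU⟩
  have := twUnit_isIso c hU M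
  exact IsCoh.of_iso (asIso (twUnit c M)) (isCoh_tw c.inv hA hU h)

end M21
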