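import Pool.Agent.H.MP_21b43d_ag.E3.S4.Fam
import Pool.Agent.H.MP_21b43d_ag.E3.S4.Sub2
import Pool.Agent.H.MP_21b43d_ag.E3.S4.Tw4
import Pool.Agent.H.MP_21b43d_ag.E3.S4.Push2

/-!
# M21, existence part, S4-F5: subobjects and quotients of direct images

`π : X ⟶ Q` finite, `c` a cocycle of units on an affine cover of `Q`, `g_x` (`x ∈ κ`) sections of the
pull back of its line bundle which generate the functions on all charts of `X` over those of `Q`. Then
subobjects and quotients of `π_* M` extend to direct images of subobjects and quotients of `M` up to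
the change of the slopes by the twist.
-/

open CategoryTheory CategoryTheory.Limits AlgebraicGeometry TopologicalSpace

noncomputable section

namespace M21.E3

variable {X Q : Scheme.{0}} {ι κ : Type} {U : ι → Q.Opens}

/-- sections of the pull back of the line bundle of `c` -/
structure PSec (π : X ⟶ Q) (c : UCocycle U) where
  /-- the components -/
  g : ∀ i, Γ(X, π ⁻¹ᵁ U i)
  rel : ∀ (i j : ι) (W : Q.Opens) (hi : W ≤ U i) (hj : W ≤ U j) (h : W ≤ U i ⊓ U j),
    resF (pre_mono π hi) (g i) = pf π (resF h (c.u i j)) * resF (pre_mono π hj) (g j)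

/-- A finite family of sections of the pull back of the line bundle of `c` which generate the
functions on the charts of `X` over the functions on the charts of `Q`. -/
structure GenF (π : X ⟶ Q) (c : UCocycle U) (κ : Type) where
  /-- the sections -/
  g : κ → PSec π c
  span : ∀ (i : ι) (a : Γ(X, π ⁻¹ᵁ U i)), ∃ r : κ →₀ Γ(Q, U i),
    a = r.sum fun x b => pf π b * (g x).g i

variable {π : X ⟶ Q} {c : UCocycle U}

theorem resF_self_SQ {V : X.Opens} (h : V ≤ V) (a : Γ(X, V)) : resF h a = a := by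
  have : (homOfLE h).op = 𝟙 (Opposite.op V) := rfl
  change X.presheaf.map (homOfLE h).op a = a
  rw [this, X.presheaf.map_id]
  rfl

theorem pf_zero_mul {W : Q.Opens} (y : Γ(X, π ⁻¹ᵁ W)) : pf π (0 : Γ(Q, W)) * y = 0 := by
  have h1 : pf π (0 : Γ(Q, W)) = 0 := map_zero _
  rw [h1, zero_mul]

theorem pf_add_mul {W : Q.Opens} (a b : Γ(Q, W)) (y : Γ(X, π ⁻¹ᵁ W)) :
    pf π (a + b) * y = pf π a * y + pf π b * y := by
  have h1 : pf π (a + b) = pf π a + pf π b := map_add _ _ _
  rw [h1, add_mul]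

/-- combinations of the components on a chart -/
def GenF.cmb (G : GenF π c κ) (i : ι) (r : κ →₀ Γ(Q, U i)) : Γ(X, π ⁻¹ᵁ U i) :=
  r.sum fun x b => pf π b * (G.g x).g i

theorem GenF.cmb_zero (G : GenF π c κ) (i : ι) : G.cmb i 0 = 0 := Finsupp.sum_zero_index

theorem GenF.cmb_add (G : GenF π c κ) (i : ι) (r r' : κ →₀ Γ(Q, U i)) :
    G.cmb i (r + r') = G.cmb i r + G.cmb i r' :=
  Finsupp.sum_add_index' (h := fun x b => pf π b * (G.g x).g i) (fun _ => pf_zero_mul _)
    (fun _ _ _ => pf_add_mul _ _ _)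

theorem GenF.cmb_single (G : GenF π c κ) (i : ι) (x : κ) (b : Γ(Q, U i)) :
    G.cmb i (Finsupp.single x b) = pf π b * (G.g x).g i :=
  Finsupp.sum_single_index (h := fun x b => pf π b * (G.g x).g i) (pf_zero_mul _)

/-- the component on `V ∩ U_i` -/
def PSec.gv (g : PSec π c) (V : Q.Opens) (i : ι) : Γ(X, π ⁻¹ᵁ (V ⊓ U i)) :=
  resF (pre_mono π (inf_le_right : V ⊓ U i ≤ U i)) (g.g i)

theorem PSec.gv_res (g : PSec π c) (V : Q.Opens) (i : ι) {W : Q.Opens} (h : W ≤ V ⊓ U i) :
    resF (pre_mono π h) (g.gv V i) = resF (pre_mono π (h.trans inf_le_right)) (g.g i) :=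
  resF_resF _ _ _

/-- the component of `g φ(n)` -/
def mL (g : PSec π c) {N : Q.Modules} {M : X.Modules} (φ : N ⟶ (PP π).obj M) (V : Q.Opens)
    (n : Γ(N, V)) (i : ι) : Γ(M, π ⁻¹ᵁ (V ⊓ U i)) :=
  g.gv V i • sv φ (res N (inf_le_left : V ⊓ U i ≤ V) n)

theorem mL_res (g : PSec π c) {N : Q.Modules} {M : X.Modules} (φ : N ⟶ (PP π).obj M)
    (V : Q.Opens) (n : Γ(N, V)) (i : ι) {W : Q.Opens} (h : W ≤ V ⊓ U i) :
    res M (pre_mono π h) (mL g φ V n i) =
      resF (pre_mono π (h.trans inf_le_right)) (g.g i) • sv φ (res N (h.trans inf_le_left) n) := by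
  unfold mL
  rw [res_smul]
  change resF (pre_mono π h) (g.gv V i) • _ = _
  rw [g.gv_res V i h, ← sv_res φ h, res_res]

/-- `N ⟶ (π_* M)^c`, `n ↦ (g_i φ(n))`. -/
def mulL (g : PSec π c) {N : Q.Modules} {M : X.Modules} (φ : N ⟶ (PP π).obj M) :
    N ⟶ TwObj c ((PP π).obj M) :=
  mkHom (fun V n => twMk c (fun i => (show Γ((PP π).obj M, V ⊓ U i) from mL g φ V n i)) (by
    intro i j W hi hj h
    have h1 : res M (pre_mono π hi) (mL g φ V n i) =
        pf π (resF h (c.u i j)) • res M (pre_mono π hj) (mL g φ V n j) := by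
      rw [mL_res g φ V n i hi, mL_res g φ V n j hj, smul_smul, g.rel i j W (hi.trans inf_le_right) (hj.trans inf_le_right) h]
    exact h1))
    (fun V s t => tw_ext fun i => by
      have h1 : mL g φ V (s + t) i = mL g φ V s i + mL g φ V t i := by
        unfold mL
        rw [res_add, sv_add, smul_add]
      exact h1)
    (fun V r s => tw_ext fun i => by
      have h1 : mL g φ V (r • s) i =
          pf π (resF (inf_le_left : V ⊓ U i ≤ V) r) • mL g φ V s i := by
        unfold mL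
        rw [res_smul, sv_smul, smul_comm]
      exact h1)
    (fun {V W} h s => tw_ext fun i => by
      have h1 : mL g φ W (res N h s) i =
          res M (pre_mono π (inf_le_inf_right (U i) h)) (mL g φ V s i) := by
        rw [mL_res g φ V s i (inf_le_inf_right (U i) h)]
        unfold mL
        rw [res_res]
        rfl
      exact h1)

theorem twVal_mulL (g : PSec π c) {N : Q.Modules} {M : X.Modules} (φ : N ⟶ (PP π).obj M) (i : ι)
    (n : Γ(N, U i)) : twVal c i le_rfl ((mulL g φ).app (U i) n) =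
      (show Γ((PP π).obj M, U i) from g.g i • sv φ n) := by
  have h1 : res M (pre_mono π (le_inf le_rfl le_rfl : U i ≤ U i ⊓ U i)) (mL g φ (U i) n i) =
      g.g i • sv φ n := by
    rw [mL_res g φ (U i) n i (le_inf le_rfl le_rfl), res_self, resF_self_SQ]
  exact h1

/-- the component of `φ(g m)` -/
def mR (g : PSec π c) {N : Q.Modules} {M : X.Modules} (φ : (PP π).obj M ⟶ N) (V : Q.Opens)
    (m : Γ(M, π ⁻¹ᵁ V)) (i : ι) : Γ(N, V ⊓ U i) :=
  qv φ (g.gv V i • res M (pre_mono π (inf_le_left : V ⊓ U i ≤ V)) m)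

theorem mR_res (g : PSec π c) {N : Q.Modules} {M : X.Modules} (φ : (PP π).obj M ⟶ N)
    (V : Q.Opens) (m : Γ(M, π ⁻¹ᵁ V)) (i : ι) {W : Q.Opens} (h : W ≤ V ⊓ U i) :
    res N h (mR g φ V m i) = qv φ (resF (pre_mono π (h.trans inf_le_right)) (g.g i) •
      res M (pre_mono π (h.trans inf_le_left)) m) := by
  unfold mR
  rw [← qv_res, res_smul]
  change qv φ (resF (pre_mono π h) (g.gv V i) • _) = _
  rw [g.gv_res V i h, res_res]

/-- `π_* M ⟶ N^c`, `m ↦ (φ(g_i m))`. -/
def mulR (g : PSec π c) {N : Q.Modules} {M : X.Modules} (φ : (PP π).obj M ⟶ N) :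
    (PP π).obj M ⟶ TwObj c N :=
  mkHom (fun V m => twMk c (fun i => mR g φ V m i) (by
    intro i j W hi hj h
    rw [mR_res g φ V m i hi, mR_res g φ V m j hj, ← qv_smul, smul_smul,
      g.rel i j W (hi.trans inf_le_right) (hj.trans inf_le_right) h]))
    (fun V s t => tw_ext fun i => by
      have h1 : mR g φ V ((show Γ(M, π ⁻¹ᵁ V) from s) + (show Γ(M, π ⁻¹ᵁ V) from t)) i =
          mR g φ V s i + mR g φ V t i := by
        unfold mR
        rw [res_add, smul_add, qv_add]
      exact h1)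
    (fun V r s => tw_ext fun i => by
      have h1 : mR g φ V (pf π r • (show Γ(M, π ⁻¹ᵁ V) from s)) i =
          resF (inf_le_left : V ⊓ U i ≤ V) r • mR g φ V s i := by
        unfold mR
        rw [res_smul, ← qv_smul, pf_res]
        change qv φ (_ • resF (pre_mono π (inf_le_left : V ⊓ U i ≤ V)) (pf π r) • _) = _
        rw [smul_comm]
      exact h1)
    (fun {V W} h s => tw_ext fun i => by
      have h1 : mR g φ W (res M (pre_mono π h) (show Γ(M, π ⁻¹ᵁ V) from s)) i =
          res N (inf_le_inf_right (U i) h) (mR g φ V s i) := by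
        rw [mR_res g φ V s i (inf_le_inf_right (U i) h)]
        unfold mR
        rw [res_res]
        rfl
      exact h1)

theorem twVal_mulR (g : PSec π c) {N : Q.Modules} {M : X.Modules} (φ : (PP π).obj M ⟶ N) (i : ι)
    (m : Γ(M, π ⁻¹ᵁ U i)) : twVal c i le_rfl ((mulR g φ).app (U i)
      (show Γ((PP π).obj M, U i) from m)) = qv φ (g.g i • m) := by
  have h1 : res N (le_inf le_rfl le_rfl : U i ≤ U i ⊓ U i) (mR g φ (U i) m i) =
      qv φ (g.g i • m) := by
    rw [mR_res g φ (U i) m i (le_inf le_rfl le_rfl), res_self, resF_self_SQ]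
  exact h1

/-- A morphism from a quasi-coherent module which is zero on the charts is zero. -/
theorem eq_zero_of_cover (hA : ∀ i, IsAffineOpen (U i)) (hU : ∀ x : Q, ∃ i, x ∈ U i)
    {M N : Q.Modules} (hM : QC M) (f : M ⟶ N) (h : ∀ i (s : Γ(M, U i)), f.app (U i) s = 0) :
    f = 0 := by
  refine hom_ext_app fun V s => sec_ext N fun y hy => ?_
  obtain ⟨i, hi⟩ := hU y
  obtain ⟨g, hg, hyg⟩ := (hA i).exists_basicOpen_le (V := V) ⟨y, hy⟩ hi
  refine ⟨Q.basicOpen g, hg, hyg, ?_⟩
  obtain ⟨n, t, ht⟩ := hM.ext (U i) (hA i) g (res M hg s)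
  have hu : IsUnit (resF (Q.basicOpen_le g) g ^ n) :=
    (Q.toRingedSpace.isUnit_res_basicOpen g).pow n
  have h2 : resF (Q.basicOpen_le g) g ^ n • f.app _ (res M hg s) = 0 := by
    rw [← Scheme.Modules.Hom.app_smul, ← ht, app_res, h i t, res_zero]
  obtain ⟨u, hu⟩ := hu
  rw [← hu] at h2
  have h5 := congrArg (fun z => ((u⁻¹ : (Γ(Q, Q.basicOpen g))ˣ) : Γ(Q, Q.basicOpen g)) • z) h2
  simp only [smul_smul, Units.inv_mul, one_smul, smul_zero] at h5
  rw [← app_res, h5]
  change (0 : Γ(N, Q.basicOpen g)) = res N hg 0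
  rw [res_zero]

/-- The maps `n ↦ g n`, `N ⟶ (π_* M')^c`, are jointly epimorphic if the image of `N` generates
`M'`. -/
theorem joint_epi (hA : ∀ i, IsAffineOpen (U i)) (hU : ∀ x : Q, ∃ i, x ∈ U i) (G : GenF π c κ)
    {M' : X.Modules} {N : Q.Modules} (k : N ⟶ (PP π).obj M') (hM' : QC ((PP π).obj M'))
    (hs : ∀ i, Submodule.span Γ(X, π ⁻¹ᵁ U i) (Set.range fun n : Γ(N, U i) => sv k n) = ⊤)
    {Z : Q.Modules} (f : TwObj c ((PP π).obj M') ⟶ Z) (h : ∀ x, mulL (G.g x) k ≫ f = 0) :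
    f = 0 := by
  refine eq_zero_of_cover hA hU (qc_tw c hA hU hM') f fun i p => ?_
  -- the morphism on the chart as a function on `Γ(M', π⁻¹ U i)`
  let F : Γ(M', π ⁻¹ᵁ U i) → Γ(Z, U i) := fun m =>
    f.app (U i) (twLoc c i le_rfl (show Γ((PP π).obj M', U i) from m))
  have Fadd : ∀ m m', F (m + m') = F m + F m' := by
    intro m m'
    change f.app (U i) (twLoc c i le_rfl ((show Γ((PP π).obj M', U i) from m) +
      (show Γ((PP π).obj M', U i) from m'))) = _
    rw [twLoc_add, app_add]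
  have Fzero : F 0 = 0 := by
    have := Fadd 0 0
    rw [add_zero] at this
    simpa using this
  have Fsmul : ∀ (b : Γ(Q, U i)) m, F (pf π b • m) = b • F m := by
    intro b m
    change f.app (U i) (twLoc c i le_rfl (b • (show Γ((PP π).obj M', U i) from m))) = _
    rw [twLoc_smul, Scheme.Modules.Hom.app_smul]
  have Fg : ∀ (x : κ) (n : Γ(N, U i)), F ((G.g x).g i • sv k n) = 0 := by
    intro x n
    have h1 := congrArg (fun φ => φ.app (U i) n) (h x)
    change f.app (U i) ((mulL (G.g x) k).app (U i) n) = 0 at h1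
    rw [← twLoc_val c i le_rfl ((mulL (G.g x) k).app (U i) n), twVal_mulL] at h1
    exact h1
  have key : ∀ m : Γ(M', π ⁻¹ᵁ U i), ∀ a : Γ(X, π ⁻¹ᵁ U i), F (a • m) = 0 := by
    intro m
    have hm : m ∈ Submodule.span Γ(X, π ⁻¹ᵁ U i) (Set.range fun n : Γ(N, U i) => sv k n) := by
      rw [hs i]; trivial
    induction hm using Submodule.span_induction with
    | mem y hy =>
      obtain ⟨n, rfl⟩ := hy
      intro a
      obtain ⟨r, hr⟩ := G.span i a
      change a = G.cmb i r at hr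
      rw [hr]
      clear hr
      induction r using Finsupp.induction_linear with
      | zero => rw [G.cmb_zero, zero_smul, Fzero]
      | add r1 r2 h1 h2 => rw [G.cmb_add, add_smul, Fadd, h1, h2, add_zero]
      | single x b => rw [G.cmb_single, mul_smul, Fsmul, Fg, smul_zero]
    | zero => intro a; rw [smul_zero, Fzero]
    | add y z _ _ hy hz => intro a; rw [smul_add, Fadd, hy, hz, add_zero]
    | smul b y _ hy => intro a; rw [smul_smul]; exact hy _
  let m0 : Γ(M', π ⁻¹ᵁ U i) := twVal c i le_rfl p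
  have h1 := key m0 1
  rw [one_smul] at h1
  change f.app (U i) (twLoc c i le_rfl (twVal c i le_rfl p)) = 0 at h1
  rwa [twLoc_val] at h1

/-- The maps `m ↦ k(g m)`, `π_* M'' ⟶ N^c`, are jointly monomorphic if `M''` has no submodules in the
kernel of `k`. -/
theorem joint_mono (hA : ∀ i, IsAffineOpen (U i)) (hU : ∀ x : Q, ∃ i, x ∈ U i) (G : GenF π c κ)
    {M'' : X.Modules} {N : Q.Modules} (k : (PP π).obj M'' ⟶ N)
    (hi : ∀ i (m : Γ(M'', π ⁻¹ᵁ U i)), (∀ a : Γ(X, π ⁻¹ᵁ U i), qv k (a • m) = 0) → m = 0)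
    {Z : Q.Modules} (hZ : QC Z) (f : Z ⟶ (PP π).obj M'') (h : ∀ x, f ≫ mulR (G.g x) k = 0) :
    f = 0 := by
  refine eq_zero_of_cover hA hU hZ f fun i s => ?_
  have Fg : ∀ (x : κ), qv k ((G.g x).g i • sv f s) = 0 := by
    intro x
    have h1 := congrArg (fun φ => twVal c i le_rfl (φ.app (U i) s)) (h x)
    change twVal c i le_rfl ((mulR (G.g x) k).app (U i) (f.app (U i) s)) =
      twVal c i le_rfl 0 at h1
    rw [twVal_zero] at h1
    rw [← twVal_mulR]
    exact h1
  refine hi i (sv f s) fun a => ?_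
  obtain ⟨r, hr⟩ := G.span i a
  change a = G.cmb i r at hr
  rw [hr]
  clear hr
  induction r using Finsupp.induction_linear with
  | zero => rw [G.cmb_zero, zero_smul, qv_zero]
  | add r1 r2 h1 h2 => rw [G.cmb_add, add_smul, qv_add, h1, h2, add_zero]
  | single x b => rw [G.cmb_single, mul_smul, qv_smul, Fg, smul_zero]

section push

variable [IsLocallyNoetherian X] [IsLocallyNoetherian Q] [IsFinite π]
  (hA : ∀ i, IsAffineOpen (U i)) (hU : ∀ x : Q, ∃ i, x ∈ U i) (G : GenF π c κ)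
  {q : RDX (IsCoh : ObjectProperty Q.Modules)} {d : ℤ} (t : q.Tws d (twEquivalence c hU))

include hA G t

/-- The field `sub` of `Push`. -/
theorem push_sub (M : X.Modules) (hM : IsCoh M) (N : Q.Modules) (i : N ⟶ (PP π).obj M)
    (hN : IsCoh N) :
    ∃ (M' : X.Modules) (j : M' ⟶ M) (k : N ⟶ (PP π).obj M'), Mono j ∧ IsCoh M' ∧
      k ≫ (PP π).map j = i ∧ ∀ l : ℤ, (q.sh l).Tc N → (q.sh (l - d)).Tc ((PP π).obj M') := by
  obtain ⟨M', j, k, hj, hM', hk, hs⟩ := exists_gsub (i := i) U hA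
    (fun j => (hA j).preimage π) hU hN.qc hM
  have hP := coh_push π hM'
  exact ⟨M', j, k, hj, hM', hk, fun l hl =>
    RDX.Tws.Tc_of_family (wserre_isCoh Q) t hP (fun x => mulL (G.g x) k)
      (fun Z _ f hf => joint_epi hA hU G k hP.qc hs f hf) hl⟩

/-- The field `quot` of `Push`. -/
theorem push_quot (M : X.Modules) (hM : IsCoh M) (N : Q.Modules) (p : (PP π).obj M ⟶ N)
    (hN : IsCoh N) :
    ∃ (M'' : X.Modules) (g : M ⟶ M'') (k : (PP π).obj M'' ⟶ N), Epi g ∧ IsCoh M'' ∧
      (PP π).map g ≫ k = p ∧ ∀ l : ℤ, (q.sh l).Fc N → (q.sh (l + d)).Fc ((PP π).obj M'') := by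
  obtain ⟨M'', g, k, hg, hM'', hk, hsurj, hker⟩ := exists_ksub p U hA
    (fun j => (hA j).preimage π) hU (fun j => IsFinite.finite_app (f := π) (U j) (hA j)) hN.qc hM
  have hP := coh_push π hM''
  refine ⟨M'', g, k, hg, hM'', hk, fun l hl =>
    RDX.Tws.Fc_of_family (wserre_isCoh Q) t hP (fun x => mulR (G.g x) k)
      (fun Z hZ f hf => joint_mono hA hU G k (fun i m hm => ?_) hZ.qc f hf) hl⟩
  obtain ⟨m', rfl⟩ := hsurj i m
  rw [hker]
  intro a
  have h1 := hm a
  rw [← Scheme.Modules.Hom.app_smul] at h1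
  rw [← hk]
  exact h1

end push

end M21.E3
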