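import Pool.Agent.H.MP_21b43d_ag.E3.G.QCf
import Pool.Agent.H.MP_21b43d_ag.E3.S4.Push1

/-!
# M21, existence part, S4-F2: the submodule generated by a subsheaf of a direct image

`π : X ⟶ Q`, `i : N ⟶ π_* M`: the `𝒪_X`-submodule `gsub i` of `M` generated by the image of `N`. If
`N` and `M` are quasi-coherent, its sections over an affine `U ⊆ π⁻¹(V)`, `V` affine, are the
combinations of the sections of `N` over `V`.
-/

open CategoryTheory CategoryTheory.Limits AlgebraicGeometry TopologicalSpace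

noncomputable section

namespace M21.E3

variable {X Q : Scheme.{0}} {π : X ⟶ Q} {M : X.Modules} {N : Q.Modules}

/-- the value of `i : N ⟶ π_* M` as a section of `M` -/
def sv (i : N ⟶ (Scheme.Modules.pushforward π).obj M) {W : Q.Opens} (n : Γ(N, W)) :
    Γ(M, π ⁻¹ᵁ W) := i.app W n

/-- the pull back of functions -/
abbrev pf (π : X ⟶ Q) {W : Q.Opens} (a : Γ(Q, W)) : Γ(X, π ⁻¹ᵁ W) := (π.app W).hom a

theorem resF_mul_S4 {U V : X.Opens} (h : V ≤ U) (a b : Γ(X, U)) :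
    resF h (a * b) = resF h a * resF h b := map_mul _ _ _

theorem resF_pow_S4 {U V : X.Opens} (h : V ≤ U) (a : Γ(X, U)) (n : ℕ) :
    resF h (a ^ n) = resF h a ^ n := map_pow _ _ _

theorem pf_pow {W : Q.Opens} (a : Γ(Q, W)) (n : ℕ) : pf π (a ^ n) = pf π a ^ n := map_pow _ _ _

variable (i : N ⟶ (Scheme.Modules.pushforward π).obj M)

theorem sv_add {W : Q.Opens} (n n' : Γ(N, W)) : sv i (n + n') = sv i n + sv i n' :=
  map_add (i.app W).hom n n'

theorem sv_zero {W : Q.Opens} : sv i (0 : Γ(N, W)) = 0 := map_zero (i.app W).hom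

theorem sv_smul {W : Q.Opens} (a : Γ(Q, W)) (n : Γ(N, W)) :
    sv i (a • n) = pf π a • sv i n :=
  Scheme.Modules.Hom.app_smul i a n

theorem sv_res {W W' : Q.Opens} (h : W' ≤ W) (n : Γ(N, W)) :
    sv i (res N h n) = res M (pre_mono π h) (sv i n) :=
  app_res i h n

theorem pf_res {W W' : Q.Opens} (h : W' ≤ W) (a : Γ(Q, W)) :
    pf π (resF h a) = resF (pre_mono π h) (pf π a) := by
  have h1 := π.naturality (homOfLE h).op
  exact congrArg (fun φ => CommRingCat.Hom.hom φ a) h1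

/-- the combinations over `V ⊆ π⁻¹(W)` of the sections of `N` over `W` -/
def gspan (W : Q.Opens) (V : X.Opens) (hV : V ≤ π ⁻¹ᵁ W) : Submodule Γ(X, V) Γ(M, V) :=
  Submodule.span _ (Set.range fun n : Γ(N, W) => res M hV (sv i n))

theorem mem_gspan {W : Q.Opens} {V : X.Opens} (hV : V ≤ π ⁻¹ᵁ W) (n : Γ(N, W)) :
    res M hV (sv i n) ∈ gspan i W V hV := Submodule.subset_span ⟨n, rfl⟩

theorem gspan_res {W : Q.Opens} {V V' : X.Opens} (hV : V ≤ π ⁻¹ᵁ W) (h : V' ≤ V) {m : Γ(M, V)}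
    (hm : m ∈ gspan i W V hV) : res M h m ∈ gspan i W V' (h.trans hV) := by
  unfold gspan at hm
  induction hm using Submodule.span_induction with
  | mem x hx =>
    obtain ⟨n, rfl⟩ := hx
    change res M h (res M hV (sv i n)) ∈ _
    rw [res_res]
    exact mem_gspan i _ n
  | zero => rw [res_zero]; exact Submodule.zero_mem _
  | add x y _ _ hx hy => rw [res_add]; exact Submodule.add_mem _ hx hy
  | smul a x _ hx => rw [res_smul]; exact Submodule.smul_mem _ _ hx

theorem gspan_le {W W' : Q.Opens} {V : X.Opens} (hV : V ≤ π ⁻¹ᵁ W) (h : W' ≤ W)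
    (hV' : V ≤ π ⁻¹ᵁ W') : gspan i W V hV ≤ gspan i W' V hV' := by
  refine Submodule.span_le.mpr ?_
  rintro _ ⟨n, rfl⟩
  have := mem_gspan i hV' (res N h n)
  rwa [sv_res, res_res] at this

/-- The `𝒪_X`-submodule of `M` generated by the image of `N`. -/
def gsub : LocSub M where
  mem {U} m := ∀ x ∈ U, ∃ (V : X.Opens) (hV : V ≤ U) (W : Q.Opens) (hW : V ≤ π ⁻¹ᵁ W),
    x ∈ V ∧ res M hV m ∈ gspan i W V hW
  zero' U := fun x hx => ⟨U, le_rfl, ⊤, fun _ _ => trivial, hx, by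
    rw [res_zero]; exact Submodule.zero_mem _⟩
  add' {U s t} hs ht := by
    intro x hx
    obtain ⟨V, hV, W, hW, hxV, h1⟩ := hs x hx
    obtain ⟨V', hV', W', hW', hxV', h2⟩ := ht x hx
    have h3 : V ⊓ V' ≤ π ⁻¹ᵁ (W ⊓ W') := fun y hy => ⟨hW hy.1, hW' hy.2⟩
    refine ⟨V ⊓ V', inf_le_left.trans hV, W ⊓ W', h3, ⟨hxV, hxV'⟩, ?_⟩
    have h4 := gspan_le i _ inf_le_left h3 (gspan_res i hW (inf_le_left : V ⊓ V' ≤ V) h1)
    have h5 := gspan_le i _ inf_le_right h3 (gspan_res i hW' (inf_le_right : V ⊓ V' ≤ V') h2)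
    rw [res_res] at h4 h5
    rw [res_add]
    exact Submodule.add_mem _ h4 h5
  smul' {U} r s hs := by
    intro x hx
    obtain ⟨V, hV, W, hW, hxV, h1⟩ := hs x hx
    exact ⟨V, hV, W, hW, hxV, by rw [res_smul]; exact Submodule.smul_mem _ _ h1⟩
  res' {U U'} h s hs := by
    intro x hx
    obtain ⟨V, hV, W, hW, hxV, h1⟩ := hs x (h hx)
    refine ⟨V ⊓ U', inf_le_right, W, inf_le_left.trans hW, ⟨hxV, hx⟩, ?_⟩
    have h2 := gspan_res i hW (inf_le_left : V ⊓ U' ≤ V) h1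
    rwa [res_res] at h2 ⊢
  loc' {U} s hs := by
    intro x hx
    obtain ⟨V, hV, hxV, h1⟩ := hs x hx
    obtain ⟨V', hV', W, hW, hxV', h2⟩ := h1 x hxV
    exact ⟨V', hV'.trans hV, W, hW, hxV', by rwa [res_res] at h2⟩

theorem mem_gsub_of_gspan {W : Q.Opens} {V : X.Opens} (hV : V ≤ π ⁻¹ᵁ W) {m : Γ(M, V)}
    (hm : m ∈ gspan i W V hV) : (gsub i).mem m :=
  fun _ hx => ⟨V, le_rfl, W, hV, hx, by rwa [res_self]⟩

theorem mem_gsub_sv {W : Q.Opens} (n : Γ(N, W)) : (gsub i).mem (sv i n) := by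
  apply mem_gsub_of_gspan i (le_refl (π ⁻¹ᵁ W))
  have := mem_gspan i (le_refl (π ⁻¹ᵁ W)) n
  rwa [res_self] at this

/-- the map from `N` to the direct image of the submodule -/
def gsubK : N ⟶ (Scheme.Modules.pushforward π).obj (gsub i).sheaf :=
  mkHom (fun _ n => (show Γ((Scheme.Modules.pushforward π).obj (gsub i).sheaf, _) from
      (gsub i).sec (sv i n) (mem_gsub_sv i n)))
    (fun W s t => (gsub i).incl_injective (π ⁻¹ᵁ W) (sv_add i s t))
    (fun W a s => (gsub i).incl_injective (π ⁻¹ᵁ W) (sv_smul i a s))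
    (fun {W W'} h s => (gsub i).incl_injective (π ⁻¹ᵁ W') (sv_res i h s))

theorem gsubK_comp : gsubK i ≫ (Scheme.Modules.pushforward π).map (gsub i).incl = i :=
  hom_ext_app fun _ _ => rfl

theorem sv_gsubK {W : Q.Opens} (n : Γ(N, W)) :
    sv (gsubK i) n = (gsub i).sec (sv i n) (mem_gsub_sv i n) := rfl

section affine

variable {i}

/-- Sections in the span over `D(f)` extend after multiplication by a power. -/
theorem ext_gspan (hN : QC N) {V : Q.Opens} (hV : IsAffineOpen V) {U : X.Opens}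
    (hU : IsAffineOpen U) (hUV : U ≤ π ⁻¹ᵁ V) (g : Γ(Q, V)) (f : Γ(X, U))
    (hfg : X.basicOpen f ≤ π ⁻¹ᵁ (Q.basicOpen g)) {m : Γ(M, X.basicOpen f)}
    (hm : m ∈ gspan i (Q.basicOpen g) (X.basicOpen f) hfg) :
    ∃ (e : ℕ) (t : Γ(M, U)), t ∈ gspan i V U hUV ∧ res M (X.basicOpen_le f) t =
      resF (X.basicOpen_le f) (f * resF hUV (pf π g)) ^ e • m := by
  unfold gspan at hm
  induction hm using Submodule.span_induction with
  | mem x hx =>
    obtain ⟨n', rfl⟩ := hx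
    obtain ⟨k, n, hn⟩ := hN.ext V hV g n'
    refine ⟨k, f ^ k • res M hUV (sv i n), Submodule.smul_mem _ _ (mem_gspan i hUV n), ?_⟩
    have h1 : res M hfg (sv i (res N (Q.basicOpen_le g) n)) =
        resF (hfg) (pf π (resF (Q.basicOpen_le g) g)) ^ k • res M hfg (sv i n') := by
      rw [hn, sv_smul, res_smul]
      change resF hfg _ • _ = _
      rw [pf_pow, resF_pow_S4]
    rw [sv_res, res_res] at h1
    rw [res_smul, res_res]
    change resF (X.basicOpen_le f) (f ^ k) • res M ((X.basicOpen_le f).trans hUV) (sv i n) = _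
    rw [show res M ((X.basicOpen_le f).trans hUV) (sv i n) =
      res M (hfg.trans (pre_mono π (Q.basicOpen_le g))) (sv i n) from rfl, h1, smul_smul, resF_pow_S4,
      ← mul_pow, resF_mul_S4, pf_res, resF_resF, resF_resF]
  | zero => exact ⟨0, 0, Submodule.zero_mem _, by rw [res_zero, smul_zero]⟩
  | add x y _ _ hx hy =>
    obtain ⟨e1, t1, h1, h1'⟩ := hx
    obtain ⟨e2, t2, h2, h2'⟩ := hy
    refine ⟨e1 + e2, (f * resF hUV (pf π g)) ^ e2 • t1 + (f * resF hUV (pf π g)) ^ e1 • t2,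
      Submodule.add_mem _ (Submodule.smul_mem _ _ h1) (Submodule.smul_mem _ _ h2), ?_⟩
    rw [res_add, res_smul, res_smul, h1', h2', smul_add]
    change resF _ _ • _ + resF _ _ • _ = _
    rw [resF_pow_S4, resF_pow_S4, smul_smul, smul_smul, ← pow_add, ← pow_add, add_comm e2 e1]
  | smul a x _ hx =>
    obtain ⟨e, t, h, h'⟩ := hx
    obtain ⟨k, a', ha⟩ := (isCoh_unit X).qc.ext U hU f a
    have ha' : resF (X.basicOpen_le f) (show Γ(X, U) from a') =
        resF (X.basicOpen_le f) f ^ k * a := ha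
    refine ⟨k + e, (resF hUV (pf π g) ^ k * (show Γ(X, U) from a')) • t,
      Submodule.smul_mem _ _ h, ?_⟩
    rw [res_smul, h']
    change resF (X.basicOpen_le f) _ • _ = _
    rw [smul_smul, smul_smul]
    congr 1
    rw [resF_mul_S4, resF_pow_S4, ha', resF_mul_S4, pow_add, mul_pow]
    ring

/-- Over an affine `U ⊆ π⁻¹(V)`, `V` affine, the sections of the submodule generated by `N` are the
combinations of sections of `N` over `V`. -/
theorem mem_gsub_iff (hN : QC N) (hM : QC M) {V : Q.Opens} (hV : IsAffineOpen V) {U : X.Opens}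
    (hU : IsAffineOpen U) (hUV : U ≤ π ⁻¹ᵁ V) (m : Γ(M, U)) :
    (gsub i).mem m ↔ m ∈ gspan i V U hUV := by
  refine ⟨fun hm => ?_, mem_gsub_of_gspan i hUV⟩
  let I : Ideal Γ(X, U) :=
    (gspan i V U hUV).comap (LinearMap.toSpanSingleton Γ(X, U) Γ(M, U) m)
  have hI : ∀ a : Γ(X, U), a ∈ I ↔ a • m ∈ gspan i V U hUV := fun a => Iff.rfl
  have key : U ≤ ⨆ f : (I : Set Γ(X, U)), X.basicOpen (f : Γ(X, U)) := by
    intro x hx
    obtain ⟨V1, hV1, W1, hW1, hx1, h1⟩ := hm x hx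
    obtain ⟨g, hg, hxg⟩ := hV.exists_basicOpen_le (V := W1 ⊓ V) ⟨π x, ⟨hW1 hx1, hUV hx⟩⟩ (hUV hx)
    obtain ⟨f, hf, hxf⟩ := hU.exists_basicOpen_le (V := V1 ⊓ π ⁻¹ᵁ (Q.basicOpen g))
      ⟨x, ⟨hx1, hxg⟩⟩ hx
    have hfg : X.basicOpen f ≤ π ⁻¹ᵁ (Q.basicOpen g) := hf.trans inf_le_right
    have h2 := gspan_le i _ (hg.trans inf_le_left) hfg
      (gspan_res i hW1 (hf.trans inf_le_left : X.basicOpen f ≤ V1) h1)
    obtain ⟨e, t, ht, ht'⟩ := ext_gspan hN hV hU hUV g f hfg h2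
    rw [res_res] at ht'
    obtain ⟨n, hn⟩ := hM.tors U hU f (t - (f * resF hUV (pf π g)) ^ e • m) (by
      rw [res_sub, ht', res_smul, map_pow, sub_self])
    rw [smul_sub, sub_eq_zero] at hn
    rw [Opens.mem_iSup]
    refine ⟨⟨f ^ n * (f * resF hUV (pf π g)) ^ e, ?_⟩, ?_⟩
    · change _ ∈ I
      rw [hI, mul_smul, ← hn]
      exact Submodule.smul_mem _ _ ht
    · change x ∈ X.basicOpen (f ^ n * (f * resF hUV (pf π g)) ^ e)
      have hxg' : x ∈ X.basicOpen (resF hUV (pf π g)) := by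
        have h4 : X.basicOpen (resF hUV (pf π g)) = U ⊓ X.basicOpen (pf π g) :=
          X.basicOpen_res _ _
        rw [h4]
        refine ⟨hx, ?_⟩
        have h5 : π ⁻¹ᵁ (Q.basicOpen g) = X.basicOpen (pf π g) := Scheme.preimage_basicOpen π g
        rw [← h5]
        exact hxg
      rw [X.basicOpen_mul]
      refine ⟨?_, ?_⟩
      · rcases Nat.eq_zero_or_pos n with h0 | h0
        · subst h0
          rw [pow_zero]
          exact (X.basicOpen_of_isUnit isUnit_one).ge hx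
        · rw [X.basicOpen_pow _ h0]
          exact hxf
      · rcases Nat.eq_zero_or_pos e with h0 | h0
        · subst h0
          rw [pow_zero]
          exact (X.basicOpen_of_isUnit isUnit_one).ge hx
        · rw [X.basicOpen_pow _ h0, X.basicOpen_mul]
          exact ⟨hxf, hxg'⟩
  have htop : I = ⊤ := by
    rw [hU.self_le_iSup_basicOpen_iff] at key
    rwa [Ideal.span_eq] at key
  have h1 : (1 : Γ(X, U)) ∈ I := by rw [htop]; trivial
  rw [hI, one_smul] at h1
  exact h1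

/-- The submodule generated by `N` is quasi-coherent. -/
theorem qc_gsub {J : Type} (V : J → Q.Opens) (hV : ∀ j, IsAffineOpen (V j))
    (hU : ∀ j, IsAffineOpen (π ⁻¹ᵁ V j)) (hc : ∀ y : Q, ∃ j, y ∈ V j) (hN : QC N) (hM : QC M) :
    QC (gsub i).sheaf := by
  refine qc_of_cover (fun j => π ⁻¹ᵁ V j) hU (fun x => hc (π x)) _ (fun j f s => ?_)
    fun j f t ht => ?_
  · have h1 := (mem_gsub_iff hN hM (hV j) ((hU j).basicOpen f) (X.basicOpen_le f)
      ((gsub i).incl.app _ s)).mp ((gsub i).mem_incl s)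
    have h1' : X.basicOpen f ≤ π ⁻¹ᵁ (Q.basicOpen (1 : Γ(Q, V j))) := by
      intro x hx
      exact (Q.basicOpen_of_isUnit isUnit_one).ge (X.basicOpen_le f hx)
    obtain ⟨e, t, ht, ht'⟩ := ext_gspan hN (hV j) (hU j) le_rfl 1 f h1'
      (gspan_le i _ (Q.basicOpen_le _) h1' h1)
    refine ⟨e, (gsub i).sec t (mem_gsub_of_gspan i _ ht), (gsub i).incl_injective _ ?_⟩
    rw [app_res, LocSub.incl_sec, ht', Scheme.Modules.Hom.app_smul]
    have e1 : f * resF (le_refl (π ⁻¹ᵁ V j)) (pf π (1 : Γ(Q, V j))) = f := by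
      have e2 : pf π (1 : Γ(Q, V j)) = 1 := map_one _
      have e3 : resF (le_refl (π ⁻¹ᵁ V j)) (1 : Γ(X, π ⁻¹ᵁ V j)) = 1 := map_one _
      rw [e2, e3, mul_one]
    rw [e1]
  · obtain ⟨n, hn⟩ := hM.tors _ (hU j) f ((gsub i).incl.app _ t) (by
      rw [← app_res, ht, app_zero])
    refine ⟨n, (gsub i).incl_injective _ ?_⟩
    rw [Scheme.Modules.Hom.app_smul, hn, app_zero]

end affine

/-- A quasi-coherent submodule of a coherent module is coherent (noetherian case). -/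
theorem isCoh_of_mono [IsLocallyNoetherian X] {M' : X.Modules} (j : M' ⟶ M) [Mono j]
    (h' : QC M') (hM : IsCoh M) : IsCoh M' := by
  refine isCoh_iff.mpr ⟨h', fun U hU => ?_⟩
  have : Module.Finite Γ(X, U) Γ(M, U) := (isCoh_iff.mp hM).2 U hU
  have : IsNoetherianRing Γ(X, U) := IsLocallyNoetherian.component_noetherian ⟨U, hU⟩
  have : IsNoetherian Γ(X, U) Γ(M, U) := isNoetherian_of_isNoetherianRing_of_finite _ _
  exact Module.Finite.of_injective (appL j U) (injective_of_mono j U)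

/-- (A): the submodule generated by `N`. -/
theorem exists_gsub [IsLocallyNoetherian X] {J : Type} (V : J → Q.Opens)
    (hV : ∀ j, IsAffineOpen (V j)) (hU : ∀ j, IsAffineOpen (π ⁻¹ᵁ V j))
    (hc : ∀ y : Q, ∃ j, y ∈ V j) (hN : QC N) (hM : IsCoh M) :
    ∃ (M' : X.Modules) (j : M' ⟶ M) (k : N ⟶ (Scheme.Modules.pushforward π).obj M'),
      Mono j ∧ IsCoh M' ∧ k ≫ (Scheme.Modules.pushforward π).map j = i ∧
      ∀ a, Submodule.span Γ(X, π ⁻¹ᵁ V a) (Set.range fun n : Γ(N, V a) => sv k n) = ⊤ := by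
  have hmono : Mono (gsub i).incl := mono_of_injective _ (gsub i).incl_injective
  have hqc : QC (gsub i).sheaf := qc_gsub V hV hU hc hN hM.qc
  refine ⟨(gsub i).sheaf, (gsub i).incl, gsubK i, hmono, isCoh_of_mono (gsub i).incl hqc hM,
    gsubK_comp i, fun a => ?_⟩
  rw [eq_top_iff]
  intro m _
  have h1 := (mem_gsub_iff hN hM.qc (hV a) (hU a) le_rfl ((gsub i).incl.app _ m)).mp
    ((gsub i).mem_incl m)
  have h2 : ∀ y ∈ gspan i (V a) (π ⁻¹ᵁ V a) le_rfl, ∃ z ∈ Submodule.span Γ(X, π ⁻¹ᵁ V a)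
      (Set.range fun n : Γ(N, V a) => sv (gsubK i) n), (gsub i).incl.app _ z = y := by
    intro y hy
    unfold gspan at hy
    induction hy using Submodule.span_induction with
    | mem x hx =>
      obtain ⟨n, rfl⟩ := hx
      refine ⟨sv (gsubK i) n, Submodule.subset_span ⟨n, rfl⟩, ?_⟩
      change sv i n = res M le_rfl (sv i n)
      rw [res_self]
    | zero => exact ⟨0, Submodule.zero_mem _, app_zero _⟩
    | add x y _ _ hx hy =>
      obtain ⟨z, hz, rfl⟩ := hx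
      obtain ⟨z', hz', rfl⟩ := hy
      exact ⟨z + z', Submodule.add_mem _ hz hz', app_add _ _ _⟩
    | smul c x _ hx =>
      obtain ⟨z, hz, rfl⟩ := hx
      exact ⟨c • z, Submodule.smul_mem _ _ hz, Scheme.Modules.Hom.app_smul _ _ _⟩
  obtain ⟨z, hz, hz'⟩ := h2 _ h1
  rw [← (gsub i).incl_injective _ hz']
  exact hz

end M21.E3
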