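import Pool.Agent.H.MP_21b43d_ag.Mk

/-!
# M21, S4-T: the twist `M^u` of a sheaf of modules by a cocycle of units (definition)
`M^u (V) = {(a_i) : a_i ∈ M(V ∩ U_i), a_i = u_ij a_j}`.
-/

open CategoryTheory CategoryTheory.Limits AlgebraicGeometry TopologicalSpace

noncomputable section

namespace M21

variable {X : Scheme.{0}} {ι : Type}

/-- A cocycle of units for a family of opens. -/
structure UCocycle (U : ι → X.Opens) where
  /-- the values -/
  u : ∀ i j, Γ(X, U i ⊓ U j)
  self : ∀ i, u i i = 1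
  mul : ∀ (i j k : ι) (V : X.Opens) (h1 : V ≤ U i ⊓ U j) (h2 : V ≤ U j ⊓ U k)
    (h3 : V ≤ U i ⊓ U k), resF h1 (u i j) * resF h2 (u j k) = resF h3 (u i k)

variable {U : ι → X.Opens}

namespace UCocycle

variable (c : UCocycle U)

theorem resF_self (i : ι) {V : X.Opens} (h : V ≤ U i ⊓ U i) : resF h (c.u i i) = 1 := by
  rw [c.self]
  exact map_one _

theorem mul_symm (i j : ι) (V : X.Opens) (h : V ≤ U i ⊓ U j) (h' : V ≤ U j ⊓ U i) :
    resF h (c.u i j) * resF h' (c.u j i) = 1 := by
  rw [c.mul i j i V h h' (le_inf (h.trans inf_le_left) (h.trans inf_le_left)), c.resF_self]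

/-- the inverse cocycle -/
def inv : UCocycle U where
  u i j := resF (inf_comm (U i) (U j)).le (c.u j i)
  self i := by
    rw [c.resF_self]
  mul i j k V h1 h2 h3 := by
    rw [resF_resF, resF_resF, resF_resF, mul_comm]
    exact c.mul k j i V _ _ _

theorem resF_inv (i j : ι) {V : X.Opens} (h : V ≤ U i ⊓ U j) (h' : V ≤ U j ⊓ U i) :
    resF h (c.inv.u i j) = resF h' (c.u j i) := resF_resF _ _ _

end UCocycle

/-- sections of `M^u` -/
def TwSec (c : UCocycle U) (M : X.Modules) (V : X.Opens) : AddSubgroup (∀ i, Γ(M, V ⊓ U i)) where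
  carrier := {p | ∀ (i j : ι) (W : X.Opens) (hi : W ≤ V ⊓ U i) (hj : W ≤ V ⊓ U j)
    (h : W ≤ U i ⊓ U j), res M hi (p i) = resF h (c.u i j) • res M hj (p j)}
  zero_mem' := by
    intro i j W hi hj h
    simp only [Pi.zero_apply, res_zero, smul_zero]
  add_mem' := by
    intro a b ha hb i j W hi hj h
    have h1 := ha i j W hi hj h
    have h2 := hb i j W hi hj h
    simp only [Pi.add_apply, res_add, smul_add] at *
    rw [← h1, ← h2]
  neg_mem' := by
    intro a ha i j W hi hj h
    have h1 := ha i j W hi hj h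
    have h2 : ∀ {V W : X.Opens} (h : W ≤ V) (s : Γ(M, V)), res M h (-s) = - res M h s :=
      fun h s => map_neg _ _
    simp only [Pi.neg_apply, h2, smul_neg] at *
    rw [← h1]

instance (c : UCocycle U) (M : X.Modules) (V : X.Opens) : SMul Γ(X, V) (TwSec c M V) where
  smul a p := ⟨fun i => resF (inf_le_left : V ⊓ U i ≤ V) a • p.1 i, by
    intro i j W hi hj h
    have h1 := p.2 i j W hi hj h
    simp only [res_smul, resF_resF]
    rw [h1, smul_comm]⟩

instance (c : UCocycle U) (M : X.Modules) (V : X.Opens) : Module Γ(X, V) (TwSec c M V) where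
  one_smul p := by
    apply Subtype.ext
    refine funext fun i => ?_
    change resF _ (1 : Γ(X, V)) • p.1 i = _
    simp [resF]
  mul_smul a b p := by
    apply Subtype.ext
    refine funext fun i => ?_
    change resF _ (a * b) • p.1 i = resF _ a • resF _ b • p.1 i
    simp [resF, mul_smul]
  smul_zero a := by
    apply Subtype.ext
    refine funext fun i => ?_
    exact smul_zero _
  smul_add a p q := by
    apply Subtype.ext
    refine funext fun i => ?_
    exact smul_add _ _ _
  add_smul a b p := by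
    apply Subtype.ext
    refine funext fun i => ?_
    change resF (inf_le_left : V ⊓ U i ≤ V) (a + b) • p.1 i =
      resF (inf_le_left : V ⊓ U i ≤ V) a • p.1 i + resF (inf_le_left : V ⊓ U i ≤ V) b • p.1 i
    simp [resF, add_smul]
  zero_smul p := by
    apply Subtype.ext
    refine funext fun i => ?_
    change resF (inf_le_left : V ⊓ U i ≤ V) (0 : Γ(X, V)) • p.1 i = 0
    simp [resF]

/-- restriction of sections of `M^u` -/
def TwRes (c : UCocycle U) (M : X.Modules) {V W : X.Opens} (h : W ≤ V) (p : TwSec c M V) :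
    TwSec c M W :=
  ⟨fun i => res M (inf_le_inf_right (U i) h) (p.1 i), by
    intro i j W' hi hj h'
    have h1 := p.2 i j W' (hi.trans (inf_le_inf_right _ h)) (hj.trans (inf_le_inf_right _ h)) h'
    simp only [res_res]
    exact h1⟩

theorem tw_loc (c : UCocycle U) (M : X.Modules) {V : X.Opens} (p q : TwSec c M V)
    (h : ∀ x ∈ V, ∃ (W : X.Opens) (h : W ≤ V), x ∈ W ∧ TwRes c M h p = TwRes c M h q) :
    p = q := by
  apply Subtype.ext
  refine funext fun i => sec_ext M fun x hx => ?_
  obtain ⟨W, hW, hxW, e⟩ := h x hx.1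
  exact ⟨W ⊓ U i, inf_le_inf_right _ hW, ⟨hxW, hx.2⟩, congrFun (congrArg (fun t => t.1) e) i⟩

theorem tw_glue (c : UCocycle U) (M : X.Modules) {κ : Type} (V : κ → X.Opens) (W : X.Opens)
    (hV : ∀ k, V k ≤ W) (hW : ∀ x ∈ W, ∃ k, x ∈ V k) (s : ∀ k, TwSec c M (V k))
    (h : ∀ k l, TwRes c M (inf_le_left : V k ⊓ V l ≤ V k) (s k) = TwRes c M inf_le_right (s l)) :
    ∃ t : TwSec c M W, ∀ k, TwRes c M (hV k) t = s k := by
  have key : ∀ i, ∃ n : Γ(M, W ⊓ U i), ∀ k,
      res M (inf_le_inf_right (U i) (hV k)) n = (s k).1 i := by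
    intro i
    refine exists_glue M (fun k => V k ⊓ U i) (fun k => inf_le_inf_right _ (hV k)) ?_
      (fun k => (s k).1 i) ?_
    · intro x hx
      obtain ⟨k, hk⟩ := hW x hx.1
      exact Opens.mem_iSup.2 ⟨k, hk, hx.2⟩
    · intro k l
      have h1 := congrFun (congrArg (fun t => t.1) (h k l)) i
      have hle : (V k ⊓ U i) ⊓ (V l ⊓ U i) ≤ (V k ⊓ V l) ⊓ U i :=
        le_inf (le_inf (inf_le_left.trans inf_le_left) (inf_le_right.trans inf_le_left))
          (inf_le_left.trans inf_le_right)
      have h2 := congrArg (res M hle) h1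
      exact ((res_res _ hle _).symm.trans h2).trans (res_res _ hle _)
  choose n hn using key
  refine ⟨⟨n, ?_⟩, fun k => ?_⟩
  · intro i j W' hi hj h'
    refine sec_ext M fun x hx => ?_
    obtain ⟨k, hk⟩ := hW x (hi hx).1
    refine ⟨W' ⊓ V k, inf_le_left, ⟨hx, hk⟩, ?_⟩
    have h1 := (s k).2 i j (W' ⊓ V k)
      (le_inf inf_le_right (inf_le_left.trans (hi.trans inf_le_right)))
      (le_inf inf_le_right (inf_le_left.trans (hj.trans inf_le_right))) (inf_le_left.trans h')
    rw [← hn i k, ← hn j k, res_res, res_res] at h1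
    show res M _ (res M hi (n i)) = res M _ (resF h' (c.u i j) • res M hj (n j))
    rw [res_smul, res_res, res_res, h1]
    exact congrArg (· • res M _ (n j)) (resF_resF h' inf_le_left (c.u i j)).symm
  · apply Subtype.ext
    exact funext fun i => hn i k

/-- The data of the sheaf `M^u`. -/
def TwData (c : UCocycle U) (M : X.Modules) : SecData X where
  S V := TwSec c M V
  grp _ := inferInstance
  mod _ := inferInstance
  r h p := TwRes c M h p
  r_self V h p := by
    apply Subtype.ext
    exact funext fun i => res_self _ _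
  r_r h h' p := by
    apply Subtype.ext
    exact funext fun i => res_res _ _ _
  r_add h p q := by
    apply Subtype.ext
    exact funext fun i => map_add _ _ _
  r_smul h a p := by
    apply Subtype.ext
    refine funext fun i => ?_
    refine (res_smul (inf_le_inf_right (U i) h) _ _).trans ?_
    exact congrArg (· • res M (inf_le_inf_right (U i) h) (p.1 i))
      ((resF_resF _ _ a).trans (resF_resF h inf_le_left a).symm)
  loc p q h := tw_loc c M p q h
  glue V W hV hW s h := tw_glue c M V W hV hW s h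

/-- The sheaf `M^u`. -/
def TwObj (c : UCocycle U) (M : X.Modules) : X.Modules := (TwData c M).toMod

section sections

variable {c : UCocycle U} {M N : X.Modules}

/-- components of a section of `M^u` -/
def twC {V : X.Opens} (p : Γ(TwObj c M, V)) (i : ι) : Γ(M, V ⊓ U i) :=
  (show TwSec c M V from p).1 i

theorem tw_rel {V : X.Opens} (p : Γ(TwObj c M, V)) (i j : ι) (W : X.Opens) (hi : W ≤ V ⊓ U i)
    (hj : W ≤ V ⊓ U j) (h : W ≤ U i ⊓ U j) :
    res M hi (twC p i) = resF h (c.u i j) • res M hj (twC p j) :=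
  (show TwSec c M V from p).2 i j W hi hj h

/-- construct a section of `M^u` -/
def twMk (c : UCocycle U) {V : X.Opens} (n : ∀ i, Γ(M, V ⊓ U i))
    (h : ∀ (i j : ι) (W : X.Opens) (hi : W ≤ V ⊓ U i) (hj : W ≤ V ⊓ U j) (h : W ≤ U i ⊓ U j),
      res M hi (n i) = resF h (c.u i j) • res M hj (n j)) :
    Γ(TwObj c M, V) :=
  show TwSec c M V from ⟨n, h⟩

theorem twC_mk {V : X.Opens} (n : ∀ i, Γ(M, V ⊓ U i)) (h) (i : ι) :
    twC (twMk c n h) i = n i := rfl

theorem tw_ext {V : X.Opens} {p q : Γ(TwObj c M, V)} (h : ∀ i, twC p i = twC q i) : p = q :=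
  Subtype.ext (funext h)

theorem twC_add {V : X.Opens} (p q : Γ(TwObj c M, V)) (i : ι) :
    twC (p + q) i = twC p i + twC q i := rfl

theorem twC_zero {V : X.Opens} (i : ι) : twC (0 : Γ(TwObj c M, V)) i = 0 := rfl

theorem twC_smul {V : X.Opens} (a : Γ(X, V)) (p : Γ(TwObj c M, V)) (i : ι) :
    twC (a • p) i = resF (inf_le_left : V ⊓ U i ≤ V) a • twC p i := rfl

theorem twC_res {V W : X.Opens} (h : W ≤ V) (p : Γ(TwObj c M, V)) (i : ι) :
    twC (res (TwObj c M) h p) i = res M (inf_le_inf_right (U i) h) (twC p i) := rfl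

end sections

end M21
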