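import Pool.Agent.H.MP_21b43d_ag.E3.S4.Tw1

/-!
# M21, S4-T: the twist functor, its values on small opens, exactness, the inverse twist
-/

open CategoryTheory CategoryTheory.Limits AlgebraicGeometry TopologicalSpace

noncomputable section

namespace M21

variable {X : Scheme.{0}} {ι : Type} {U : ι → X.Opens} (c : UCocycle U)

private theorem sm {M N : X.Modules} (φ : M ⟶ N) {V : X.Opens} (a : Γ(X, V)) (s : Γ(M, V)) :
    φ.app V (a • s) = a • φ.app V s := Scheme.Modules.Hom.app_smul φ a s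

/-- the map on sections of the twist -/
def twMapSec {M N : X.Modules} (φ : M ⟶ N) (V : X.Opens) (p : Γ(TwObj c M, V)) :
    Γ(TwObj c N, V) :=
  twMk c (fun i => φ.app _ (twC p i)) (by
    intro i j W hi hj h
    rw [← app_res, ← app_res, tw_rel p i j W hi hj h, sm])

/-- the twist on morphisms -/
def twMap {M N : X.Modules} (φ : M ⟶ N) : TwObj c M ⟶ TwObj c N :=
  mkHom (twMapSec c φ)
    (fun V s t => tw_ext fun i => app_add φ _ _)
    (fun V r s => tw_ext fun i => sm φ _ _)
    (fun {V W} h s => tw_ext fun i => app_res φ _ _)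

theorem twMap_app {M N : X.Modules} (φ : M ⟶ N) (V : X.Opens) (p : Γ(TwObj c M, V)) :
    (twMap c φ).app V p = twMapSec c φ V p := rfl

theorem twC_map {M N : X.Modules} (φ : M ⟶ N) (V : X.Opens) (p : Γ(TwObj c M, V)) (i : ι) :
    twC ((twMap c φ).app V p) i = φ.app _ (twC p i) := rfl

/-- the twist functor -/
def twFunctor : X.Modules ⥤ X.Modules where
  obj M := TwObj c M
  map φ := twMap c φ
  map_id M := hom_ext_app fun V p => tw_ext fun i => rfl
  map_comp φ ψ := hom_ext_app fun V p => tw_ext fun i => rfl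

instance : (twFunctor c).Additive where
  map_add {M N φ ψ} := hom_ext_app fun V p => tw_ext fun i => rfl

@[simp] theorem twFunctor_obj (M : X.Modules) : (twFunctor c).obj M = TwObj c M := rfl

@[simp] theorem twFunctor_map {M N : X.Modules} (φ : M ⟶ N) : (twFunctor c).map φ = twMap c φ := rfl

/-- the value on an open contained in `U i0` -/
def twVal {M : X.Modules} {V : X.Opens} (i0 : ι) (hV : V ≤ U i0) (p : Γ(TwObj c M, V)) : Γ(M, V) :=
  res M (le_inf le_rfl hV) (twC p i0)

/-- the section with a given value on an open contained in `U i0` -/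
def twLoc {M : X.Modules} {V : X.Opens} (i0 : ι) (hV : V ≤ U i0) (m : Γ(M, V)) :
    Γ(TwObj c M, V) :=
  twMk c (fun i => resF (le_inf inf_le_right (inf_le_left.trans hV) : V ⊓ U i ≤ U i ⊓ U i0)
      (c.u i i0) • res M (inf_le_left : V ⊓ U i ≤ V) m) (by
    intro i j W hi hj h
    have hij := c.mul i j i0 W h (le_inf (hj.trans inf_le_right) (hj.trans (inf_le_left.trans hV)))
      (le_inf (hi.trans inf_le_right) (hi.trans (inf_le_left.trans hV)))
    rw [res_smul, res_smul]
    simp only [res_res]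
    have e1 : X.presheaf.map (homOfLE hi).op
        (resF (le_inf inf_le_right (inf_le_left.trans hV) : V ⊓ U i ≤ U i ⊓ U i0) (c.u i i0)) =
        resF (le_inf (hi.trans inf_le_right) (hi.trans (inf_le_left.trans hV))) (c.u i i0) :=
      resF_resF _ _ _
    have e2 : X.presheaf.map (homOfLE hj).op
        (resF (le_inf inf_le_right (inf_le_left.trans hV) : V ⊓ U j ≤ U j ⊓ U i0) (c.u j i0)) =
        resF (le_inf (hj.trans inf_le_right) (hj.trans (inf_le_left.trans hV))) (c.u j i0) :=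
      resF_resF _ _ _
    rw [e1, e2, ← hij, mul_smul])

section val

variable {M N : X.Modules} {V W : X.Opens} (i0 : ι) (hV : V ≤ U i0)

theorem twVal_loc (m : Γ(M, V)) : twVal c i0 hV (twLoc c i0 hV m) = m := by
  show res M (le_inf le_rfl hV) (resF (le_inf inf_le_right (inf_le_left.trans hV) :
    V ⊓ U i0 ≤ U i0 ⊓ U i0) (c.u i0 i0) • res M (inf_le_left : V ⊓ U i0 ≤ V) m) = m
  rw [c.resF_self, one_smul, res_res, res_self]

theorem twLoc_val (p : Γ(TwObj c M, V)) : twLoc c i0 hV (twVal c i0 hV p) = p := by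
  refine tw_ext fun i => ?_
  have h := tw_rel p i i0 (V ⊓ U i) le_rfl (le_inf inf_le_left (inf_le_left.trans hV))
    (le_inf inf_le_right (inf_le_left.trans hV))
  show resF (le_inf inf_le_right (inf_le_left.trans hV) : V ⊓ U i ≤ U i ⊓ U i0) (c.u i i0) •
    res M inf_le_left (res M (le_inf le_rfl hV) (twC p i0)) = twC p i
  rw [res_self] at h
  rw [h, res_res]

theorem twVal_add (p q : Γ(TwObj c M, V)) :
    twVal c i0 hV (p + q) = twVal c i0 hV p + twVal c i0 hV q :=
  res_add _ _ _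

theorem twVal_zero : twVal c i0 hV (0 : Γ(TwObj c M, V)) = 0 := res_zero _

theorem twVal_smul (a : Γ(X, V)) (p : Γ(TwObj c M, V)) :
    twVal c i0 hV (a • p) = a • twVal c i0 hV p := by
  show res M (le_inf le_rfl hV) (resF (inf_le_left : V ⊓ U i0 ≤ V) a • twC p i0) = _
  rw [res_smul]
  have e : X.presheaf.map (homOfLE (le_inf le_rfl hV)).op (resF (inf_le_left : V ⊓ U i0 ≤ V) a) =
      a := by
    refine (resF_resF _ _ _).trans ?_
    exact congrArg (fun f => f.hom a) (X.presheaf.map_id (Opposite.op V))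
  rw [e]
  rfl

theorem twVal_res (h : W ≤ V) (p : Γ(TwObj c M, V)) :
    twVal c i0 (h.trans hV) (res _ h p) = res M h (twVal c i0 hV p) := by
  show res M _ (res M (inf_le_inf_right (U i0) h) (twC p i0)) = res M h (res M _ (twC p i0))
  rw [res_res, res_res]

theorem twVal_map (φ : M ⟶ N) (p : Γ(TwObj c M, V)) :
    twVal c i0 hV ((twMap c φ).app V p) = φ.app V (twVal c i0 hV p) := by
  show res N _ (φ.app _ (twC p i0)) = φ.app V (res M _ (twC p i0))
  rw [app_res]

theorem twVal_trans (j0 : ι) (hV' : V ≤ U j0) (p : Γ(TwObj c M, V)) :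
    twVal c i0 hV p = resF (le_inf hV hV') (c.u i0 j0) • twVal c j0 hV' p :=
  tw_rel p i0 j0 V (le_inf le_rfl hV) (le_inf le_rfl hV') (le_inf hV hV')

variable {i0} {hV} in
theorem twVal_inj {p q : Γ(TwObj c M, V)} (h : twVal c i0 hV p = twVal c i0 hV q) : p = q := by
  rw [← twLoc_val c i0 hV p, h, twLoc_val]

theorem twLoc_add (m n : Γ(M, V)) : twLoc c i0 hV (m + n) = twLoc c i0 hV m + twLoc c i0 hV n := by
  apply twVal_inj c (i0 := i0) (hV := hV)
  rw [twVal_add, twVal_loc, twVal_loc, twVal_loc]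

theorem twLoc_smul (a : Γ(X, V)) (m : Γ(M, V)) :
    twLoc c i0 hV (a • m) = a • twLoc c i0 hV m := by
  apply twVal_inj c (i0 := i0) (hV := hV)
  rw [twVal_smul, twVal_loc, twVal_loc]

theorem twLoc_res (h : W ≤ V) (m : Γ(M, V)) :
    res _ h (twLoc c i0 hV m) = twLoc c i0 (h.trans hV) (res M h m) := by
  apply twVal_inj c (i0 := i0) (hV := h.trans hV)
  rw [twVal_res c i0 hV, twVal_loc, twVal_loc]

theorem twMap_loc (φ : M ⟶ N) (m : Γ(M, V)) :
    (twMap c φ).app V (twLoc c i0 hV m) = twLoc c i0 hV (φ.app V m) := by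
  apply twVal_inj c (i0 := i0) (hV := hV)
  rw [twVal_map, twVal_loc, twVal_loc]

/-- `Γ(M^u, V) = Γ(M, V)` for `V ≤ U i0`. -/
def twEquiv (M : X.Modules) {V : X.Opens} (i0 : ι) (hV : V ≤ U i0) :
    Γ(TwObj c M, V) ≃ₗ[Γ(X, V)] Γ(M, V) where
  toFun := twVal c i0 hV
  map_add' := twVal_add c i0 hV
  map_smul' := twVal_smul c i0 hV
  invFun := twLoc c i0 hV
  left_inv := twLoc_val c i0 hV
  right_inv := twVal_loc c i0 hV

theorem twEquiv_apply (p : Γ(TwObj c M, V)) : twEquiv c M i0 hV p = twVal c i0 hV p := rfl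

end val

/-- Sections of the twist agree if their values on the members of a cover agree. -/
theorem tw_ext_val (hU : ∀ x : X, ∃ i, x ∈ U i) {M : X.Modules} {V : X.Opens}
    {p q : Γ(TwObj c M, V)}
    (h : ∀ (i : ι) (W : X.Opens) (hW : W ≤ V) (hi : W ≤ U i),
      twVal c i hi (res _ hW p) = twVal c i hi (res _ hW q)) : p = q := by
  refine sec_ext _ fun x hx => ?_
  obtain ⟨i, hi⟩ := hU x
  exact ⟨V ⊓ U i, inf_le_left, ⟨hx, hi⟩, twVal_inj c (h i _ _ inf_le_right)⟩

section exact

variable (hU : ∀ x : X, ∃ i, x ∈ U i)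

include hU

theorem tw_preservesHomology : (twFunctor c).PreservesHomology := by
  refine ((twFunctor c).exact_tfae.out 1 2).1 fun S hS => ?_
  rw [exact_iff_lift] at hS ⊢
  intro V p hp x hx
  have hp2 : ∀ i, S.g.app _ (twC p i) = 0 := fun i => congrArg (fun q => twC q i) hp
  obtain ⟨i0, hi0⟩ := hU x
  obtain ⟨V2, hV2, hx2, n, hn⟩ := hS _ (twC p i0) (hp2 i0) x ⟨hx, hi0⟩
  have h0 : V2 ≤ U i0 := hV2.trans inf_le_right
  refine ⟨V2, hV2.trans inf_le_left, hx2, twLoc c i0 h0 n, ?_⟩
  refine (twMap_loc c i0 h0 S.f n).trans ?_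
  rw [hn]
  refine twVal_inj c (i0 := i0) (hV := h0) ?_
  rw [twVal_loc]
  show _ = res S.X₂ _ (res S.X₂ _ (twC p i0))
  rw [res_res]

end exact

end M21
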