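import Pool.Agent.H.MP_21b43d_ag.E3.S4.Tw2

/-!
# M21, S4-T: the twist functor is an equivalence
-/

open CategoryTheory CategoryTheory.Limits AlgebraicGeometry TopologicalSpace

noncomputable section

namespace M21

variable {X : Scheme.{0}} {ι : Type} {U : ι → X.Opens} (c : UCocycle U)

theorem UCocycle.inv_inv : c.inv.inv = c := by
  cases c with
  | mk u self mul =>
    unfold UCocycle.inv
    congr 1
    funext i j
    rw [resF_resF]
    exact congrArg (fun f => f.hom (u i j)) (X.presheaf.map_id (Opposite.op (U i ⊓ U j)))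

/-- `s ↦ (u_ik s)_i`, as a section of `(M^u)^(1/u)` -/
def twUnitSec {M : X.Modules} {V : X.Opens} (s : Γ(M, V)) : Γ(TwObj c.inv (TwObj c M), V) :=
  twMk c.inv (fun k => twLoc c k (inf_le_right : V ⊓ U k ≤ U k) (res M inf_le_left s)) (by
    intro k l W hk hl h
    rw [twLoc_res c k inf_le_right hk, twLoc_res c l inf_le_right hl]
    apply twVal_inj c (i0 := k) (hV := hk.trans inf_le_right)
    rw [twVal_smul, twVal_loc, twVal_trans c k _ l (hl.trans inf_le_right), twVal_loc,
      smul_smul, res_res, res_res]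
    have e : resF h (c.inv.u k l) * resF (le_inf (hk.trans inf_le_right) (hl.trans inf_le_right))
        (c.u k l) = 1 := by
      rw [c.resF_inv k l h (le_inf (h.trans inf_le_right) (h.trans inf_le_left)), mul_comm]
      exact c.mul_symm k l W _ _
    rw [e, one_smul])

theorem twC_unitSec {M : X.Modules} {V : X.Opens} (s : Γ(M, V)) (k : ι) :
    twC (twUnitSec c s) k =
      twLoc c k (inf_le_right : V ⊓ U k ≤ U k) (res M (inf_le_left : V ⊓ U k ≤ V) s) := rfl

theorem twVal_unitSec {M : X.Modules} {V W : X.Opens} (s : Γ(M, V)) (h : W ≤ V) (k : ι)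
    (hk : W ≤ U k) :
    twVal c k hk (twVal c.inv k hk (res _ h (twUnitSec c s))) = res M h s := by
  show twVal c k hk (res (TwObj c M) (le_inf le_rfl hk) (res (TwObj c M) (inf_le_inf_right (U k) h)
    (twLoc c k (inf_le_right : V ⊓ U k ≤ U k) (res M inf_le_left s)))) = _
  rw [res_res, twLoc_res c k inf_le_right, twVal_loc, res_res]

theorem twVal_unitSec' {M : X.Modules} {V : X.Opens} (s : Γ(M, V)) (k : ι) (hk : V ≤ U k) :
    twVal c k hk (twVal c.inv k hk (twUnitSec c s)) = s := by
  have h := twVal_unitSec c s le_rfl k hk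
  rwa [res_self, res_self] at h

/-- the map `M → (M^u)^(1/u)` -/
def twUnit (M : X.Modules) : M ⟶ TwObj c.inv (TwObj c M) :=
  mkHom (fun V s => twUnitSec c s)
    (fun V s t => tw_ext fun k => by
      rw [twC_add, twC_unitSec, twC_unitSec, twC_unitSec, res_add, twLoc_add])
    (fun V r s => tw_ext fun k => by
      rw [twC_smul, twC_unitSec, twC_unitSec, res_smul, twLoc_smul])
    (fun {V W} h s => tw_ext fun k => by
      rw [twC_res, twC_unitSec, twC_unitSec, twLoc_res c k inf_le_right, res_res, res_res])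

theorem twUnit_app (M : X.Modules) {V : X.Opens} (s : Γ(M, V)) :
    (twUnit c M).app V s = twUnitSec c s := rfl

theorem twUnit_naturality {M N : X.Modules} (φ : M ⟶ N) :
    φ ≫ twUnit c N = twUnit c M ≫ twMap c.inv (twMap c φ) :=
  hom_ext_app fun V s => tw_ext fun k => by
    show twLoc c k (inf_le_right : V ⊓ U k ≤ U k) (res N (inf_le_left : V ⊓ U k ≤ V) (φ.app V s)) =
      (twMap c φ).app _ (twLoc c k (inf_le_right : V ⊓ U k ≤ U k)
        (res M (inf_le_left : V ⊓ U k ≤ V) s))
    rw [twMap_loc, app_res]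

section

variable (hU : ∀ x : X, ∃ i, x ∈ U i)

include hU

theorem twUnit_isIso (M : X.Modules) : IsIso (twUnit c M) := by
  have h1 : Mono (twUnit c M) := by
    refine mono_of_injective _ fun V s t hst => sec_ext M fun x hx => ?_
    obtain ⟨k, hk⟩ := hU x
    refine ⟨V ⊓ U k, inf_le_left, ⟨hx, hk⟩, ?_⟩
    have hst' : twUnitSec c s = twUnitSec c t := hst
    rw [← twVal_unitSec c s inf_le_left k inf_le_right, hst',
      twVal_unitSec c t inf_le_left k inf_le_right]
  have h2 : Epi (twUnit c M) := by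
    refine epi_of_locSurj _ fun V b x hx => ?_
    obtain ⟨k, hk⟩ := hU x
    refine ⟨V ⊓ U k, inf_le_left, ⟨hx, hk⟩,
      twVal c k inf_le_right (twVal c.inv k inf_le_right (res _ inf_le_left b)), ?_⟩
    rw [twUnit_app]
    apply twVal_inj c.inv (i0 := k) (hV := inf_le_right)
    apply twVal_inj c (i0 := k) (hV := inf_le_right)
    rw [twVal_unitSec']
  exact isIso_of_mono_of_epi _

/-- `M ≅ (M^u)^(1/u)` -/
def twUnitIso : 𝟭 X.Modules ≅ twFunctor c ⋙ twFunctor c.inv :=
  NatIso.ofComponents (fun M => @asIso _ _ _ _ (twUnit c M) (twUnit_isIso c hU M))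
    (fun {M N} φ => twUnit_naturality c φ)

/-- the twist is an equivalence -/
def twEquivalence : X.Modules ≌ X.Modules :=
  CategoryTheory.Equivalence.mk (twFunctor c) (twFunctor c.inv) (twUnitIso c hU)
    ((eqToIso (by rw [c.inv_inv])).trans (twUnitIso c.inv hU).symm)

end

end M21
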