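import Pool.Agent.H.MP_21b43d_ag.E3.Cmp

/-!
# M21, existence part, S4-T: rank, degree and torsion pairs under an autoequivalence
-/

open CategoryTheory CategoryTheory.Limits

universe v u

noncomputable section

namespace M21.E3

namespace RDX

variable {𝒟 : Type u} [Category.{v} 𝒟] [Abelian 𝒟] {V : ObjectProperty 𝒟}

/-- An autoequivalence which preserves `V` and the rank and changes the degree by `k` times the
rank. -/
structure Tws (q : RDX V) (k : ℤ) (e : 𝒟 ≌ 𝒟) : Prop where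
  mem : ∀ M, V M → V (e.functor.obj M)
  mem' : ∀ M, V M → V (e.inverse.obj M)
  r : ∀ M, V M → q.r (e.functor.obj M) = q.r M
  D : ∀ M, V M → q.D (e.functor.obj M) = q.D M + k * q.r M

variable {q : RDX V} {k : ℤ} {e : 𝒟 ≌ 𝒟} (hV : WSerre V) (h : q.Tws k e)

include hV h

theorem Tws.inv : q.Tws (-k) e.symm where
  mem := h.mem'
  mem' := h.mem
  r M hM := by
    have h1 := h.r _ (h.mem' M hM)
    have h2 := (q.inv_iso hV (e.counitIso.app M) (h.mem _ (h.mem' M hM))).1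
    exact h1.symm.trans h2
  D M hM := by
    have h1 := h.r _ (h.mem' M hM)
    have h3 := h.D _ (h.mem' M hM)
    have h2 := q.inv_iso hV (e.counitIso.app M) (h.mem _ (h.mem' M hM))
    have h4 : q.r (e.functor.obj (e.inverse.obj M)) = q.r M := h2.1
    have h5 : q.D (e.functor.obj (e.inverse.obj M)) = q.D M := h2.2.1
    have h6 : q.r (e.inverse.obj M) = q.r M := h1.symm.trans h4
    show q.D (e.inverse.obj M) = _
    rw [h5, h6] at h3
    linarith

theorem Tws.Tf {M : 𝒟} (hM : q.Tf M) : q.Tf (e.functor.obj M) := by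
  refine ⟨h.mem M hM.1, fun N i hi hN hr => ?_⟩
  have h1 : IsZero (e.inverse.obj N) := by
    refine hM.2 _ (e.inverse.map i ≫ (e.unitIso.app M).inv) (mono_comp _ _) (h.mem' N hN) ?_
    exact ((Tws.inv hV h).r N hN).trans hr
  exact (e.functor.map_isZero h1).of_iso (e.counitIso.app N).symm

theorem Tws.Fc {l : ℤ} {M : 𝒟} (hM : (q.sh l).Fc M) : (q.sh (l + k)).Fc (e.functor.obj M) := by
  refine ⟨Tws.Tf hV h hM.1, fun N i hi hN => ?_⟩
  have h1 := hM.2 _ (e.inverse.map i ≫ (e.unitIso.app M).inv) (mono_comp _ _) (h.mem' N hN)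
  have h2 : q.r (e.inverse.obj N) = q.r N := (Tws.inv hV h).r N hN
  have h3 : q.D (e.inverse.obj N) = q.D N + -k * q.r N := (Tws.inv hV h).D N hN
  rw [sh_D] at h1 ⊢
  rw [h2, h3] at h1
  linarith

theorem Tws.Tc {l : ℤ} {M : 𝒟} (hM : (q.sh l).Tc M) : (q.sh (l + k)).Tc (e.functor.obj M) := by
  refine ⟨h.mem M hM.1, fun N p hp hN hz => ?_⟩
  have hN' : q.Tf N := hN
  have h0 : ¬ IsZero (e.inverse.obj N) := fun h1 =>
    hz ((e.functor.map_isZero h1).of_iso (e.counitIso.app N).symm)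
  have h1 := hM.2 _ ((e.unitIso.app M).hom ≫ e.inverse.map p) (epi_comp _ _)
    (Tws.Tf hV (Tws.inv hV h) hN') h0
  have h2 : q.r (e.inverse.obj N) = q.r N := (Tws.inv hV h).r N hN.1
  have h3 : q.D (e.inverse.obj N) = q.D N + -k * q.r N := (Tws.inv hV h).D N hN.1
  rw [sh_D] at h1 ⊢
  rw [h2, h3] at h1
  linarith

theorem Tws.Fc_iff {l : ℤ} {M : 𝒟} : (q.sh (l + k)).Fc (e.functor.obj M) ↔ (q.sh l).Fc M := by
  refine ⟨fun hM => ?_, Tws.Fc hV h⟩
  have h1 := Tws.Fc hV (Tws.inv hV h) hM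
  have h2 : l + k + -k = l := by ring
  rw [h2] at h1
  exact (q.sh l).Fc_iso hV (e.unitIso.app M).symm h1

theorem Tws.Tc_iff {l : ℤ} {M : 𝒟} : (q.sh (l + k)).Tc (e.functor.obj M) ↔ (q.sh l).Tc M := by
  refine ⟨fun hM => ?_, Tws.Tc hV h⟩
  have h1 := Tws.Tc hV (Tws.inv hV h) hM
  have h2 : l + k + -k = l := by ring
  rw [h2] at h1
  exact (q.sh l).Tc_iso hV (e.unitIso.app M).symm h1

end RDX

end M21.E3
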