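import Pool.Agent.H.MP_21b43d_ag.E3.S4.Tw4
import Pool.Agent.H.MP_21b43d_ag.E3.S4.TwA
import Pool.Agent.H.MP_21b43d_ag.E3.G.Geo3

/-!
# M21, S4-T: the twists `F(m, n)` on a scheme with a `BiP` structure
-/

open CategoryTheory CategoryTheory.Limits AlgebraicGeometry TopologicalSpace

noncomputable section

namespace M21.E3

variable {X : Scheme.{0}}

namespace BiP

variable (G : BiP X)

theorem le_V01_Tw {s s' : Bool} (h : s ≠ s') {O : X.Opens} (h1 : O ≤ G.V s) (h2 : O ≤ G.V s') :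
    O ≤ G.V01 := by
  cases s <;> cases s'
  · exact absurd rfl h
  · exact le_inf h1 h2
  · exact le_inf h2 h1
  · exact absurd rfl h

theorem le_W01_Tw {t t' : Bool} (h : t ≠ t') {O : X.Opens} (h1 : O ≤ G.W t) (h2 : O ≤ G.W t') :
    O ≤ G.W01 := by
  cases t <;> cases t'
  · exact absurd rfl h
  · exact le_inf h1 h2
  · exact le_inf h2 h1
  · exact absurd rfl h

/-- transition function `B^(tw s' m - tw s m)` between `V s` and `V s'` -/
def ub (m : ℤ) (s s' : Bool) {O : X.Opens} (h1 : O ≤ G.V s) (h2 : O ≤ G.V s') : Γ(X, O) :=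
  if h : s = s' then 1 else G.bp (sg s * m) (G.le_V01_Tw h h1 h2)

/-- transition function `Z^(tw t' n - tw t n)` between `W t` and `W t'` -/
def uz (n : ℤ) (t t' : Bool) {O : X.Opens} (h1 : O ≤ G.W t) (h2 : O ≤ G.W t') : Γ(X, O) :=
  if h : t = t' then 1 else G.zp (sg t * n) (G.le_W01_Tw h h1 h2)

theorem ub_self (m : ℤ) (s : Bool) {O : X.Opens} (h1 h2 : O ≤ G.V s) : G.ub m s s h1 h2 = 1 :=
  dif_pos rfl

theorem uz_self (n : ℤ) (t : Bool) {O : X.Opens} (h1 h2 : O ≤ G.W t) : G.uz n t t h1 h2 = 1 :=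
  dif_pos rfl

theorem ub_ne (m : ℤ) {s s' : Bool} (h : s ≠ s') {O : X.Opens} (h1 : O ≤ G.V s) (h2 : O ≤ G.V s') :
    G.ub m s s' h1 h2 = G.bp (sg s * m) (G.le_V01_Tw h h1 h2) :=
  dif_neg h

theorem uz_ne (n : ℤ) {t t' : Bool} (h : t ≠ t') {O : X.Opens} (h1 : O ≤ G.W t) (h2 : O ≤ G.W t') :
    G.uz n t t' h1 h2 = G.zp (sg t * n) (G.le_W01_Tw h h1 h2) :=
  dif_neg h

theorem ub_res (m : ℤ) (s s' : Bool) {O O' : X.Opens} (h1 : O ≤ G.V s) (h2 : O ≤ G.V s')
    (h' : O' ≤ O) : resF h' (G.ub m s s' h1 h2) = G.ub m s s' (h'.trans h1) (h'.trans h2) := by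
  by_cases h : s = s'
  · subst h
    rw [G.ub_self, G.ub_self]
    exact map_one _
  · rw [G.ub_ne m h, G.ub_ne m h, G.bp_res]

theorem uz_res (n : ℤ) (t t' : Bool) {O O' : X.Opens} (h1 : O ≤ G.W t) (h2 : O ≤ G.W t')
    (h' : O' ≤ O) : resF h' (G.uz n t t' h1 h2) = G.uz n t t' (h'.trans h1) (h'.trans h2) := by
  by_cases h : t = t'
  · subst h
    rw [G.uz_self, G.uz_self]
    exact map_one _
  · rw [G.uz_ne n h, G.uz_ne n h, G.zp_res]

theorem sg_add_Tw {s s' : Bool} (h : s ≠ s') (m : ℤ) : sg s * m + sg s' * m = 0 := by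
  cases s <;> cases s'
  · exact absurd rfl h
  · simp [sg]
  · simp [sg]
  · exact absurd rfl h

theorem ub_mul (m : ℤ) (s s' s'' : Bool) {O : X.Opens} (h1 : O ≤ G.V s) (h2 : O ≤ G.V s')
    (h3 : O ≤ G.V s'') : G.ub m s s' h1 h2 * G.ub m s' s'' h2 h3 = G.ub m s s'' h1 h3 := by
  by_cases h : s = s'
  · subst h
    rw [G.ub_self, one_mul]
  · by_cases h' : s' = s''
    · subst h'
      rw [G.ub_self, mul_one]
    · have h4 : s = s'' := by
        cases s <;> cases s' <;> cases s'' <;> simp_all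
      subst h4
      rw [G.ub_self, G.ub_ne m h, G.ub_ne m h', ← G.bp_add, sg_add_Tw h, G.bp_zero]

theorem uz_mul (n : ℤ) (t t' t'' : Bool) {O : X.Opens} (h1 : O ≤ G.W t) (h2 : O ≤ G.W t')
    (h3 : O ≤ G.W t'') : G.uz n t t' h1 h2 * G.uz n t' t'' h2 h3 = G.uz n t t'' h1 h3 := by
  by_cases h : t = t'
  · subst h
    rw [G.uz_self, one_mul]
  · by_cases h' : t' = t''
    · subst h'
      rw [G.uz_self, mul_one]
    · have h4 : t = t'' := by
        cases t <;> cases t' <;> cases t'' <;> simp_all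
      subst h4
      rw [G.uz_self, G.uz_ne n h, G.uz_ne n h', ← G.zp_add, sg_add_Tw h, G.zp_zero]

theorem uu_res_Tw (m n : ℤ) (i j : Bool × Bool) {O O' : X.Opens} (h1 : O ≤ G.V i.1)
    (h2 : O ≤ G.V j.1) (h3 : O ≤ G.W i.2) (h4 : O ≤ G.W j.2) (h : O' ≤ O) :
    resF h (G.ub m i.1 j.1 h1 h2 * G.uz n i.2 j.2 h3 h4) =
      G.ub m i.1 j.1 (h.trans h1) (h.trans h2) * G.uz n i.2 j.2 (h.trans h3) (h.trans h4) := by
  rw [← G.ub_res m i.1 j.1 h1 h2 h, ← G.uz_res n i.2 j.2 h3 h4 h]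
  exact map_mul _ _ _

/-- The cocycle of `O(m, n)`: `a_0t = B^m a_1t`, `a_s0 = Z^n a_s1`. -/
def twc (m n : ℤ) : UCocycle (fun i : Bool × Bool => G.U i.1 i.2) where
  u i j := G.ub m i.1 j.1 (inf_le_left.trans inf_le_left) (inf_le_right.trans inf_le_left) *
    G.uz n i.2 j.2 (inf_le_left.trans inf_le_right) (inf_le_right.trans inf_le_right)
  self i := by rw [G.ub_self, G.uz_self, one_mul]
  mul i j k V h1 h2 h3 := by
    rw [G.uu_res_Tw, G.uu_res_Tw, G.uu_res_Tw, mul_mul_mul_comm, G.ub_mul, G.uz_mul]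

theorem twc_u_res (m n : ℤ) (i j : Bool × Bool) {O : X.Opens}
    (h : O ≤ G.U i.1 i.2 ⊓ G.U j.1 j.2) :
    resF h ((G.twc m n).u i j) =
      G.ub m i.1 j.1 (h.trans (inf_le_left.trans inf_le_left))
        (h.trans (inf_le_right.trans inf_le_left)) *
      G.uz n i.2 j.2 (h.trans (inf_le_left.trans inf_le_right))
        (h.trans (inf_le_right.trans inf_le_right)) :=
  G.uu_res_Tw m n i j _ _ _ _ h

theorem aff_Tw (i : Bool × Bool) : IsAffineOpen (G.U i.1 i.2) := G.aff i.1 i.2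

theorem cov_Tw (x : X) : ∃ i : Bool × Bool, x ∈ G.U i.1 i.2 := by
  obtain ⟨s, t, h⟩ := G.exists_mem_U x
  exact ⟨(s, t), h⟩

/-- The twist `F(m, n)`. -/
abbrev Twi (m n : ℤ) (F : X.Modules) : X.Modules := TwObj (G.twc m n) F

section tv

variable (m n : ℤ) {F F' : X.Modules} (s t : Bool) {O O' : X.Opens}

/-- the value of a section of `F(m, n)` over an open contained in `U s t` -/
def tv (h : O ≤ G.U s t) (p : Γ(G.Twi m n F, O)) : Γ(F, O) :=
  twVal (G.twc m n) (s, t) h p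

/-- the section of `F(m, n)` over an open contained in `U s t` with a given value -/
def tl (h : O ≤ G.U s t) (p : Γ(F, O)) : Γ(G.Twi m n F, O) :=
  twLoc (G.twc m n) (s, t) h p

variable (h : O ≤ G.U s t)

theorem tv_tl (x : Γ(F, O)) : G.tv m n s t h (G.tl m n s t h x) = x := twVal_loc _ _ _ _

theorem tl_tv (x : Γ(G.Twi m n F, O)) : G.tl m n s t h (G.tv m n s t h x) = x := twLoc_val _ _ _ _

theorem tv_add (x y : Γ(G.Twi m n F, O)) :
    G.tv m n s t h (x + y) = G.tv m n s t h x + G.tv m n s t h y := twVal_add _ _ _ _ _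

theorem tv_zero : G.tv m n s t h (0 : Γ(G.Twi m n F, O)) = 0 := twVal_zero _ _ _

theorem tv_smul (a : Γ(X, O)) (x : Γ(G.Twi m n F, O)) :
    G.tv m n s t h (a • x) = a • G.tv m n s t h x := twVal_smul _ _ _ _ _

theorem tv_res (h' : O' ≤ O) (x : Γ(G.Twi m n F, O)) :
    G.tv m n s t (h'.trans h) (res _ h' x) = res F h' (G.tv m n s t h x) := twVal_res _ _ _ _ _

theorem tv_map (φ : F ⟶ F') (x : Γ(G.Twi m n F, O)) :
    G.tv m n s t h ((twMap (G.twc m n) φ).app O x) = φ.app O (G.tv m n s t h x) :=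
  twVal_map _ _ _ _ _

theorem tl_add (x y : Γ(F, O)) :
    G.tl m n s t h (x + y) = G.tl m n s t h x + G.tl m n s t h y := twLoc_add _ _ _ _ _

theorem tl_smul (a : Γ(X, O)) (x : Γ(F, O)) :
    G.tl m n s t h (a • x) = a • G.tl m n s t h x := twLoc_smul _ _ _ _ _

theorem tl_res (h' : O' ≤ O) (x : Γ(F, O)) :
    res _ h' (G.tl m n s t h x) = G.tl m n s t (h'.trans h) (res F h' x) := twLoc_res _ _ _ _ _

theorem tl_map (φ : F ⟶ F') (x : Γ(F, O)) :
    (twMap (G.twc m n) φ).app O (G.tl m n s t h x) = G.tl m n s t h (φ.app O x) :=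
  twMap_loc _ _ _ _ _

variable {m n s t h} in
theorem tv_inj {x y : Γ(G.Twi m n F, O)} (e : G.tv m n s t h x = G.tv m n s t h y) : x = y :=
  twVal_inj _ e

theorem tv_B (h0 : O ≤ G.U false t) (h1 : O ≤ G.U true t) (h : O ≤ G.V01)
    (p : Γ(G.Twi m n F, O)) :
    G.tv m n false t h0 p = G.bp m h • G.tv m n true t h1 p := by
  have e := twVal_trans (G.twc m n) (false, t) h0 (true, t) h1 p
  rw [G.twc_u_res, G.uz_self, mul_one, G.ub_ne m Bool.false_ne_true] at e
  have e2 : sg false * m = m := one_mul m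
  simp only [e2] at e
  exact e

theorem tv_Z (h0 : O ≤ G.U s false) (h1 : O ≤ G.U s true) (h : O ≤ G.W01)
    (p : Γ(G.Twi m n F, O)) :
    G.tv m n s false h0 p = G.zp n h • G.tv m n s true h1 p := by
  have e := twVal_trans (G.twc m n) (s, false) h0 (s, true) h1 p
  rw [G.twc_u_res, G.ub_self, one_mul, G.uz_ne n Bool.false_ne_true] at e
  have e2 : sg false * n = n := one_mul n
  simp only [e2] at e
  exact e

end tv

variable [CX X] [IsIntegral X]

theorem tv_smulC (m n : ℤ) {F : X.Modules} (s t : Bool) {O : X.Opens} (h : O ≤ G.U s t) (a : ℂ)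
    (x : Γ(G.Twi m n F, O)) : G.tv m n s t h (a • x) = a • G.tv m n s t h x :=
  G.tv_smul m n s t h (cr O a) x

theorem famTwi_B (c d m : ℤ) {F : X.Modules} (t : Bool)
    (x : Γ(G.Twi c d F, G.U false t)) (y : Γ(G.Twi c d F, G.U true t)) :
    res _ (G.UB_le false t) x = G.bp m (inf_le_left : G.UB t ≤ G.V01) • res _ (G.UB_le true t) y ↔
      res F (G.UB_le false t) (G.tv c d false t le_rfl x) =
        G.bp (m + c) (inf_le_left : G.UB t ≤ G.V01) •
          res F (G.UB_le true t) (G.tv c d true t le_rfl y) := by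
  rw [← G.tv_res c d false t le_rfl (G.UB_le false t), ← G.tv_res c d true t le_rfl (G.UB_le true t),
    G.bp_add, mul_smul]
  constructor
  · intro e
    rw [e, G.tv_smul, ← G.tv_B]
  · intro e
    rw [← G.tv_B c d t ((G.UB_le false t).trans le_rfl), ← G.tv_smul] at e
    exact G.tv_inj e

theorem famTwi_Z (c d n : ℤ) {F : X.Modules} (s : Bool)
    (x : Γ(G.Twi c d F, G.U s false)) (y : Γ(G.Twi c d F, G.U s true)) :
    res _ (G.UZ_le s false) x = G.zp n (inf_le_right : G.UZ s ≤ G.W01) • res _ (G.UZ_le s true) y ↔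
      res F (G.UZ_le s false) (G.tv c d s false le_rfl x) =
        G.zp (n + d) (inf_le_right : G.UZ s ≤ G.W01) •
          res F (G.UZ_le s true) (G.tv c d s true le_rfl y) := by
  rw [← G.tv_res c d s false le_rfl (G.UZ_le s false), ← G.tv_res c d s true le_rfl (G.UZ_le s true),
    G.zp_add, mul_smul]
  constructor
  · intro e
    rw [e, G.tv_smul, ← G.tv_Z]
  · intro e
    rw [← G.tv_Z c d s ((G.UZ_le s false).trans le_rfl), ← G.tv_smul] at e
    exact G.tv_inj e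

/-- **Families of sections of a twist.** -/
def famTwi (c d : ℤ) (F : X.Modules) (m n : ℤ) :
    G.Fam (G.Twi c d F) m n ≃ₗ[ℂ] G.Fam F (m + c) (n + d) where
  toFun a := ⟨fun s t => G.tv c d s t le_rfl (a.1 s t),
    ⟨fun t => (G.famTwi_B c d m t _ _).1 (a.2.1 t), fun s => (G.famTwi_Z c d n s _ _).1 (a.2.2 s)⟩⟩
  invFun a := ⟨fun s t => G.tl c d s t le_rfl (a.1 s t),
    ⟨fun t => (G.famTwi_B c d m t _ _).2 (by rw [G.tv_tl, G.tv_tl]; exact a.2.1 t),
      fun s => (G.famTwi_Z c d n s _ _).2 (by rw [G.tv_tl, G.tv_tl]; exact a.2.2 s)⟩⟩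
  left_inv a := Subtype.ext (funext fun s => funext fun t => G.tl_tv c d s t le_rfl _)
  right_inv a := Subtype.ext (funext fun s => funext fun t => G.tv_tl c d s t le_rfl _)
  map_add' a b := Subtype.ext (funext fun s => funext fun t => G.tv_add c d s t le_rfl _ _)
  map_smul' x a := Subtype.ext (funext fun s => funext fun t => G.tv_smulC c d s t le_rfl _ _)

/-- **Morphisms `O(-m, -n) → F(c, d)` are the morphisms `O(-(m + c), -(n + d)) → F`.** -/
def homTwi (c d : ℤ) (F : X.Modules) (m n : ℤ) :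
    (G.OO (-m) (-n) ⟶ G.Twi c d F) ≃ₗ[ℂ] (G.OO (-(m + c)) (-(n + d)) ⟶ F) :=
  (G.famEquiv (G.Twi c d F) m n).trans ((G.famTwi c d F m n).trans
    (G.famEquiv F (m + c) (n + d)).symm)

end BiP

end M21.E3
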