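import Pool.Agent.H.MP_21b43d_ag.E3.S4.Tw5

/-!
# M21, S4-T: the cocycle of `O(m, n)` in the function field
-/

open CategoryTheory CategoryTheory.Limits AlgebraicGeometry TopologicalSpace

noncomputable section

namespace M21.E3

namespace BiP

variable {X : Scheme.{0}} [IsIntegral X] (G : BiP X)

theorem tw_sub_Tw {s s' : Bool} (h : s ≠ s') (m : ℤ) : tw s' m - tw s m = sg s * m := by
  cases s <;> cases s'
  · exact absurd rfl h
  · simp [tw, sg]
  · simp [tw, sg]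
  · exact absurd rfl h

theorem toK_ubT (m : ℤ) (s s' : Bool) {O : X.Opens} (h1 : O ≤ G.V s) (h2 : O ≤ G.V s') {p : X}
    (hp : p ∈ O) : toK hp (G.ub m s s' h1 h2) = G.B ^ (tw s' m - tw s m) := by
  by_cases h : s = s'
  · subst h
    rw [G.ub_self, map_one, sub_self, zpow_zero]
  · rw [G.ub_ne m h, G.toK_bp, tw_sub_Tw h]

theorem toK_uzT (n : ℤ) (t t' : Bool) {O : X.Opens} (h1 : O ≤ G.W t) (h2 : O ≤ G.W t') {p : X}
    (hp : p ∈ O) : toK hp (G.uz n t t' h1 h2) = G.Z ^ (tw t' n - tw t n) := by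
  by_cases h : t = t'
  · subst h
    rw [G.uz_self, map_one, sub_self, zpow_zero]
  · rw [G.uz_ne n h, G.toK_zp, tw_sub_Tw h]

/-- The functions of the cocycle of `O(m, n)` in the function field. -/
theorem toK_twc (m n : ℤ) (x y : Bool × Bool) {p : X} (hp : p ∈ G.U x.1 x.2 ⊓ G.U y.1 y.2) :
    toK hp ((G.twc m n).u x y) =
      G.B ^ (tw y.1 m - tw x.1 m) * G.Z ^ (tw y.2 n - tw x.2 n) := by
  show toK hp (G.ub m x.1 y.1 _ _ * G.uz n x.2 y.2 _ _) = _
  rw [map_mul, G.toK_ubT, G.toK_uzT]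

end BiP

end M21.E3
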