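import Pool.Agent.H.MP_21b43d_ag.E3.Cmp

/-!
# M21, existence part, S4-T: slopes and equivalences; jointly epimorphic and monomorphic families
-/

open CategoryTheory CategoryTheory.Limits

universe v u

noncomputable section

namespace M21.E3

namespace RDX

variable {𝒟 : Type u} [Category.{v} 𝒟] [Abelian 𝒟] {V : ObjectProperty 𝒟} (q : RDX V)

/-- (aux) the inverse image of an object of `V` is in `V`, with the same rank. -/
theorem inv_equiv_TwC (hV : WSerre V) (e : 𝒟 ≌ 𝒟) (hmem : ∀ M, V (e.functor.obj M) ↔ V M)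
    (hr : ∀ M, V M → q.r (e.functor.obj M) = q.r M) {N : 𝒟} (hN : V N) :
    V (e.inverse.obj N) ∧ q.r (e.inverse.obj N) = q.r N := by
  have h1 : V (e.functor.obj (e.inverse.obj N)) := hV.iso (e.counitIso.app N).symm hN
  have h2 : V (e.inverse.obj N) := (hmem _).1 h1
  refine ⟨h2, ?_⟩
  rw [← hr _ h2]
  exact (q.inv_iso hV (e.counitIso.app N) h1).1

/-- (aux) the degree of the inverse image. -/
theorem inv_equivD_TwC (hV : WSerre V) (e : 𝒟 ≌ 𝒟) (k : ℤ)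
    (hmem : ∀ M, V (e.functor.obj M) ↔ V M)
    (hr : ∀ M, V M → q.r (e.functor.obj M) = q.r M)
    (hD : ∀ M, V M → q.D (e.functor.obj M) = q.D M + k * q.r M) {N : 𝒟} (hN : V N) :
    q.D (e.inverse.obj N) = q.D N - k * q.r N := by
  have h1 : V (e.functor.obj (e.inverse.obj N)) := hV.iso (e.counitIso.app N).symm hN
  obtain ⟨h2, h3⟩ := q.inv_equiv_TwC hV e hmem hr hN
  have h4 := hD _ h2
  have h5 := (q.inv_iso hV (e.counitIso.app N) h1).2.1
  have h6 : q.D (e.functor.obj (e.inverse.obj N)) = q.D N := h5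
  rw [h6, h3] at h4
  linarith

/-- (aux) zero objects and inverse images. -/
theorem isZero_inv_TwC (e : 𝒟 ≌ 𝒟) {N : 𝒟} (h : IsZero (e.inverse.obj N)) : IsZero N :=
  (e.functor.map_isZero h).of_iso (e.counitIso.app N).symm

/-- (aux) zero objects and images. -/
theorem isZero_fun_TwC (e : 𝒟 ≌ 𝒟) {N : 𝒟} (h : IsZero (e.functor.obj N)) : IsZero N :=
  (e.inverse.map_isZero h).of_iso (e.unitIso.app N)

/-- An equivalence which preserves `V`, `r` and changes `D` to `D + k r` shifts the slopes by `k`. -/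
theorem Tf_equiv (hV : WSerre V) (e : 𝒟 ≌ 𝒟) (k : ℤ)
    (hmem : ∀ M, V (e.functor.obj M) ↔ V M)
    (hr : ∀ M, V M → q.r (e.functor.obj M) = q.r M) {M : 𝒟} (h : q.Tf M) :
    q.Tf (e.functor.obj M) := by
  have _ := k
  refine ⟨(hmem M).2 h.1, fun N i hi hN hr0 => ?_⟩
  obtain ⟨h2, h3⟩ := q.inv_equiv_TwC hV e hmem hr hN
  have h4 : Mono (e.inverse.map i ≫ (e.unitIso.app M).inv) := mono_comp _ _
  exact isZero_inv_TwC e (h.2 _ _ h4 h2 (h3.trans hr0))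

/-- (aux) torsion-free objects and the inverse. -/
theorem Tf_inv_TwC (hV : WSerre V) (e : 𝒟 ≌ 𝒟)
    (hmem : ∀ M, V (e.functor.obj M) ↔ V M)
    (hr : ∀ M, V M → q.r (e.functor.obj M) = q.r M) {Q : 𝒟} (h : q.Tf Q) :
    q.Tf (e.inverse.obj Q) := by
  refine ⟨(q.inv_equiv_TwC hV e hmem hr h.1).1, fun N i hi hN hr0 => ?_⟩
  have h4 : Mono (e.functor.map i ≫ (e.counitIso.app Q).hom) := mono_comp _ _
  exact isZero_fun_TwC e (h.2 _ _ h4 ((hmem N).2 hN) ((hr N hN).trans hr0))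

theorem Tc_equiv (hV : WSerre V) (e : 𝒟 ≌ 𝒟) (k : ℤ)
    (hmem : ∀ M, V (e.functor.obj M) ↔ V M)
    (hr : ∀ M, V M → q.r (e.functor.obj M) = q.r M)
    (hD : ∀ M, V M → q.D (e.functor.obj M) = q.D M + k * q.r M) {M : 𝒟} {l : ℤ}
    (h : (q.sh l).Tc M) : (q.sh (l + k)).Tc (e.functor.obj M) := by
  refine ⟨(hmem M).2 h.1, fun Q p hp hQ hz => ?_⟩
  have h1 : Epi ((e.unitIso.app M).hom ≫ e.inverse.map p) := epi_comp _ _
  have h2 : (q.sh l).Tf (e.inverse.obj Q) := q.Tf_inv_TwC hV e hmem hr hQ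
  have h3 := h.2 _ _ h1 h2 fun h0 => hz (isZero_inv_TwC e h0)
  have hQV : V Q := hQ.1
  rw [sh_D] at h3 ⊢
  rw [q.inv_equivD_TwC hV e k hmem hr hD hQV, (q.inv_equiv_TwC hV e hmem hr hQV).2] at h3
  linarith

theorem Fc_equiv (hV : WSerre V) (e : 𝒟 ≌ 𝒟) (k : ℤ)
    (hmem : ∀ M, V (e.functor.obj M) ↔ V M)
    (hr : ∀ M, V M → q.r (e.functor.obj M) = q.r M)
    (hD : ∀ M, V M → q.D (e.functor.obj M) = q.D M + k * q.r M) {M : 𝒟} {l : ℤ}
    (h : (q.sh l).Fc M) : (q.sh (l + k)).Fc (e.functor.obj M) := by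
  refine ⟨q.Tf_equiv hV e k hmem hr h.1, fun N i hi hN => ?_⟩
  have h4 : Mono (e.inverse.map i ≫ (e.unitIso.app M).inv) := mono_comp _ _
  obtain ⟨h5, h6⟩ := q.inv_equiv_TwC hV e hmem hr hN
  have h3 := h.2 _ _ h4 h5
  rw [sh_D] at h3 ⊢
  rw [q.inv_equivD_TwC hV e k hmem hr hD hN, h6] at h3
  linarith

theorem Tc_joint (hV : WSerre V) {κ : Type} {S T : 𝒟} (hS : q.Tc S) (hT : V T)
    (f : κ → (S ⟶ T)) (hf : ∀ (R : 𝒟) (h : T ⟶ R), V R → (∀ x, f x ≫ h = 0) → h = 0) :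
    q.Tc T := by
  obtain ⟨C, hC, h2, h1, h3⟩ := q.exists_ses hV T hT
  subst h2
  have he := hC.epi_g
  have hm := hC.mono_f
  have h4 : C.g = 0 := hf _ C.g h3.1.1 fun x => q.Tc_Fc_zero hV hS h3 (f x ≫ C.g)
  have hz : IsZero C.X₃ := by
    rw [IsZero.iff_id_eq_zero, ← cancel_epi C.g, h4, zero_comp, zero_comp]
  have h5 : IsIso C.f := hC.isIso_f_iff.2 hz
  exact q.Tc_iso hV (asIso C.f) h1

theorem Fc_joint (hV : WSerre V) {κ : Type} {S T : 𝒟} (hS : q.Fc S) (hT : V T)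
    (f : κ → (T ⟶ S)) (hf : ∀ (R : 𝒟) (h : R ⟶ T), V R → (∀ x, h ≫ f x = 0) → h = 0) :
    q.Fc T := by
  obtain ⟨C, hC, h2, h1, h3⟩ := q.exists_ses hV T hT
  subst h2
  have he := hC.epi_g
  have hm := hC.mono_f
  have h4 : C.f = 0 := hf _ C.f h1.1 fun x => q.Tc_Fc_zero hV h1 hS (C.f ≫ f x)
  have hz : IsZero C.X₁ := by
    rw [IsZero.iff_id_eq_zero, ← cancel_mono C.f, h4, comp_zero, comp_zero]
  have h5 : IsIso C.g := hC.isIso_g_iff.2 hz
  exact q.Fc_iso hV (asIso C.g).symm h3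

end RDX

end M21.E3
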